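import Mathlib

/-!
# Arithmetic of the multi-cusp unfolding
-/

namespace ShghM

/-- `κ = 2 j (μ - j Ξ)`, `A = d δ - Σ_{l ∉ J} m_l μ_l + Σ_{i ∈ J} m_i μ_i`, `S = Σ_{i ∈ J} m_i`, `e = 3d - Σ_{l<9} m_l`,
`e' = e + 2 S`. The identity is
`A + λ Ξ - (σ n + 2 j e') μ = (A - w e - 2 κ S - n c) + n (c - cb) + (e - n)(w - κ)`,
`cb = (2g+1) μ - 2g(g+1) Ξ - w`. Model: `ShghR.unfold_arith`. -/
theorem arithM (σ : ℝ) (hσ : σ ^ 2 = 1) (j g A e n w μ Ξ c lam S : ℝ) (hg : 2 * g + 1 = 2 * j + σ)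
    (hlam : lam = 2 * j * (j * (e + 2 * S) + σ * n)) :
    A + lam * Ξ - (σ * n + 2 * j * (e + 2 * S)) * μ =
      (A - w * e - 2 * (2 * j * (μ - j * Ξ)) * S - n * c) +
      n * (c - ((2 * g + 1) * μ - 2 * g * (g + 1) * Ξ - w)) +
      (e - n) * (w - 2 * j * (μ - j * Ξ)) := by
  have hg' : g = j + (σ - 1) / 2 := by linarith
  rw [hlam, hg']
  linear_combination (-(n * Ξ) / 2) * hσ

/-- The numerical consequences of equality at the point `z_i`: `κ < w`, `N = 2 κ - μ_i - w = c ≥ i0 ≥ 0`,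
`2 μ_l = w + i0`, `4 q² μ_i = 2 q² (w + i0) - (w + i0 - (c - i0) - μ_i)`. Then `4 q² μ_i = (2 q² - 2)(w + i0) + 2 κ`,
`μ_i ≤ 2 κ - w - i0`, so `(3 q² - 1)(w + i0) ≤ (4 q² - 1) κ < (4 q² - 1) w`, so `i0 < w` (and `w > 0`). -/
theorem arith_eq (q : ℝ) (hq : 1 ≤ q) (κ w i0 c μi : ℝ) (hκ : κ < w) (hw : 0 ≤ w) (hi0 : 0 ≤ i0)
    (hic : i0 ≤ c) (hc : 2 * κ - μi - w = c)
    (h : 4 * q ^ 2 * μi = 2 * q ^ 2 * (w + i0) - (w + i0 - (c - i0) - μi)) :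
    i0 < w ∧ 4 * q ^ 2 * μi = (2 * q ^ 2 - 2) * (w + i0) + 2 * κ := by
  have h1 : 4 * q ^ 2 * μi = (2 * q ^ 2 - 2) * (w + i0) + 2 * κ := by
    linear_combination h - hc
  refine ⟨?_, h1⟩
  have hq2 : 1 ≤ q ^ 2 := by nlinarith
  have h2 : 4 * q ^ 2 * μi ≤ 4 * q ^ 2 * (2 * κ - w - i0) := by
    apply mul_le_mul_of_nonneg_left _ (by positivity)
    linarith
  have h3 : (8 * q ^ 2 - 2) * κ < (8 * q ^ 2 - 2) * w :=
    mul_lt_mul_of_pos_left hκ (by linarith)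
  by_contra hcon
  push Not at hcon
  have h4 : (6 * q ^ 2 - 2) * w ≤ (6 * q ^ 2 - 2) * i0 :=
    mul_le_mul_of_nonneg_left hcon (by linarith)
  nlinarith [mul_nonneg (sub_nonneg.2 hq2) hw]

end ShghM
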