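import Pool.Agent.ShghM.DegenM
import Pool.Agent.ShghM.NefSpecM
import Pool.Agent.ShghM.ArithM
import Pool.Agent.ShghR.UnfoldS

/-!
# The multi-cusp unfolding theorem: nefness

`D♯ = (d; m_0..m_8, n)`, `J ⊆ {0..8}`, `σ = ±1`, `j ≥ 1`, `e' = 3d - Σ_{l ∉ J} m_l + Σ_{i ∈ J} m_i`,
`λ = 2 j (j e' + σ n)`; the class `(d + 3 λ; λ + m_l (l ∉ J), λ - m_i (i ∈ J), σ n + 2 j e')` is nef.
-/

namespace ShghM

open MvPolynomial ShghE ShghR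

variable {k : Type*} [Field k]

/-- `m_i` for `i ∉ J`, `- m_i` for `i ∈ J`. -/
noncomputable def sgnm (J : Finset (Fin 9)) (m : Fin 10 → ℝ) (i : Fin 9) : ℝ :=
  if i ∈ J then - m i.castSucc else m i.castSucc

/-- The step. Model: `ShghR.UnfoldS_step`. Apply `coreM` with `B = (9 (2 q²) + g (g+1) + 1)(δ + 1)` and
`nef_specM` (`N1 = 2 q²`, `N2 = g (g+1)`) to `g0` with the multiplicities `c`. The strict inequality is
`UnfoldS_arith` as in `UnfoldS_step`. -/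
theorem unfoldM_step [IsAlgClosed k] (h2 : (2 : k) ≠ 0) (P : Fin 10 → Fin 2 → k)
    (hP : AlgebraicIndependent (⊥ : Subfield k) (fun ij : Fin 10 × Fin 2 => P ij.1 ij.2))
    (d : ℝ) (m : Fin 10 → ℝ) (hm : ∀ i, 0 ≤ m i) (hK : ∑ i, m i ≤ 3 * d) (hN : NumNef d m)
    (J : Finset (Fin 9)) (g q : ℕ) (hq : 1 ≤ q)
    (f : MvPolynomial (Fin 2) k) (hf : f ≠ 0) (δ : ℕ) (hδ1 : 1 ≤ δ) (hδ : f.totalDegree ≤ δ)
    (μ : Fin 10 → ℕ) (hμ : ∀ i, f ∈ ptIdeal (P i 0) (P i 1) ^ μ i) :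
    ∃ (w : ℕ) (c : Fin 10 → ℕ), 3 * w ≤ δ ∧
      ∑ i, m i * (c i : ℝ) ≤ d * (δ - 3 * w) ∧
      (∀ i : Fin 9, i ∉ J → c i.castSucc = μ i.castSucc - w) ∧
      (∀ i : Fin 9, i ∈ J → 4 * (q : ℤ) * μ (Fin.last 9) -
        4 * (q : ℤ) ^ 2 * (3 * (δ : ℤ) - ∑ i : Fin 9, (μ i.castSucc : ℤ)) - μ i.castSucc - w ≤
          c i.castSucc) ∧
      (2 * g + 1) * (μ (Fin.last 9) : ℤ) -
        2 * g * (g + 1) * (3 * (δ : ℤ) - ∑ i : Fin 9, (μ i.castSucc : ℤ)) - w ≤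
          c (Fin.last 9) ∧
      2 * (q : ℤ) * μ (Fin.last 9) <
        2 * (q : ℤ) ^ 2 * (3 * (δ : ℤ) - ∑ i : Fin 9, (μ i.castSucc : ℤ)) + w ∧
      (∀ i : Fin 9, i ∈ J → 4 * (q : ℤ) * μ (Fin.last 9) -
        4 * (q : ℤ) ^ 2 * (3 * (δ : ℤ) - ∑ i : Fin 9, (μ i.castSucc : ℤ)) - μ i.castSucc - w =
          c i.castSucc →
        ∃ i0 : ℕ, i0 ≤ c i.castSucc ∧
          (∀ l : Fin 9, l ≠ i → 2 * (μ l.castSucc : ℤ) = w + i0) ∧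
          4 * (q : ℤ) ^ 2 * μ i.castSucc = 2 * (q : ℤ) ^ 2 * (w + i0) -
            (w + i0 - (c i.castSucc - i0) - μ i.castSucc)) := by
  classical
  obtain ⟨CD, p, Z, hZ, hI, hp, hz, w, g0, c, hg0, hdeg, hc, hcJ, hcJ', hc9, hsec, hE1, hE2⟩ :=
    coreM h2 P hP f hf δ hδ μ hμ J g q hq ((9 * (2 * q ^ 2) + g * (g + 1) + 1) * (δ + 1))
  have hq2 : 1 ≤ q ^ 2 := Nat.one_le_pow _ _ hq
  have hn := nef_specM h2 CD.toCurveData p (2 * q ^ 2) (g * (g + 1))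
    ((9 * (2 * q ^ 2) + g * (g + 1) + 1) * (δ + 1)) (by omega) J hI Z hZ hp hz d m hm hK hN
    g0 hg0 g0.totalDegree le_rfl
    (Nat.mul_le_mul_left _ (by omega)) c hc
  have hd0 : 0 ≤ d := by
    have h1 : 0 ≤ ∑ i, m i := Finset.sum_nonneg fun i _ => hm _
    linarith
  have hdeg' : d * (g0.totalDegree : ℝ) ≤ d * (δ - 3 * w) := by
    apply mul_le_mul_of_nonneg_left _ hd0
    have h1 : ((g0.totalDegree + 3 * w : ℕ) : ℝ) ≤ (δ : ℝ) := by exact_mod_cast hdeg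
    push_cast at h1
    linarith
  have hw : 3 * w ≤ δ := by omega
  refine ⟨w, c, hw, hn.trans hdeg', hcJ, hcJ', hc9, lt_of_le_of_ne hsec ?_, hE2⟩
  intro heq
  have hμδ : μ (Fin.last 9) ≤ δ := (ShghE.le_totalDegree hf (hμ (Fin.last 9))).trans hδ
  exact UnfoldS_arith q δ w (μ (Fin.last 9)) _ (fun i => (μ i.castSucc : ℤ))
    (by exact_mod_cast hq) (by exact_mod_cast hδ1) (by exact_mod_cast hw)
    (by exact_mod_cast hμδ) (hE1 heq) rfl heq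

end ShghM
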