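import Pool.Agent.ShghM.NatM

/-!
# The multi-cusp unfolding theorem
-/

namespace ShghM

open MvPolynomial ShghE ShghR

variable {k : Type*} [Field k]

theorem MainM_sum (J : Finset (Fin 9)) (m : Fin 10 → ℝ) (S : ℝ) (hS : S = ∑ i ∈ J, m i.castSucc) :
    ∑ i : Fin 9, sgnm J m i = ∑ i : Fin 9, m i.castSucc - 2 * S := by
  have h1 : ∀ i : Fin 9, sgnm J m i = m i.castSucc - (if i ∈ J then 2 * m i.castSucc else 0) := by
    intro i
    unfold sgnm
    split_ifs <;> ring
  simp_rw [h1]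
  rw [Finset.sum_sub_distrib, Finset.sum_ite_mem, Finset.univ_inter, ← Finset.mul_sum, hS]

/-- The unfolding theorem. `J = ∅`: `ShghR.unfolding` (`sgnm ∅ m i = m i.castSucc`). `j ≠ 0`: write
`j = σ j'`, `j' ≥ 1` a natural number (model: the proof of `ShghR.unfolding`); `e' = e + 2 S ≥ e ≥ m_9 ≥ 0`,
`S = Σ_{i ∈ J} m_i`, `|m_9 + 2 j e'| = σ m_9 + 2 j' e'`, `λ = 2 j' (j' e' + σ m_9) ≥ 2 (e' - m_9) ≥ 4 S`, so that
`λ - m_i ≥ 0` for `i ∈ J`; `unfoldM_nat`. -/
theorem unfoldingM [IsAlgClosed k] (h2 : (2 : k) ≠ 0) (P : Fin 10 → Fin 2 → k)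
    (hP : AlgebraicIndependent (⊥ : Subfield k) (fun ij : Fin 10 × Fin 2 => P ij.1 ij.2))
    (d : ℝ) (m : Fin 10 → ℝ) (hm : ∀ i, 0 ≤ m i) (hK : ∑ i, m i ≤ 3 * d) (hN : NumNef d m)
    (J : Finset (Fin 9)) (j : ℤ) (hJ : J = ∅ ∨ j ≠ 0) (e lam : ℝ)
    (he : e = 3 * d - ∑ i : Fin 9, sgnm J m i)
    (hlam : lam = 2 * j * (j * e + m (Fin.last 9)))
    (M : Fin 10 → ℝ) (hM : ∀ i : Fin 9, M i.castSucc = lam + sgnm J m i)
    (hM9 : M (Fin.last 9) = |m (Fin.last 9) + 2 * j * e|) :
    IsNef P (d + 3 * lam) M := by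
  have hK' : ∑ i : Fin 9, m i.castSucc + m (Fin.last 9) ≤ 3 * d := by
    rwa [Fin.sum_univ_castSucc] at hK
  have hn0 := hm (Fin.last 9)
  obtain ⟨S, hS⟩ : ∃ S, S = ∑ i ∈ J, m i.castSucc := ⟨_, rfl⟩
  have hS0 : 0 ≤ S := by
    rw [hS]
    exact Finset.sum_nonneg fun i _ => hm _
  have hsg : ∑ i : Fin 9, sgnm J m i = ∑ i : Fin 9, m i.castSucc - 2 * S := MainM_sum J m S hS
  have heS : e = 3 * d - ∑ i : Fin 9, m i.castSucc + 2 * S := by
    rw [he, hsg]
    ring
  have hne : m (Fin.last 9) + 2 * S ≤ e := by linarith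
  have he0 : 0 ≤ e := by linarith
  have hcase : J = ∅ ∨ ∃ (j' : ℕ) (σ : ℝ), 1 ≤ j' ∧ (σ = 1 ∨ σ = -1) ∧ (j : ℝ) = σ * j' := by
    rcases hJ with hJ | hJ
    · exact Or.inl hJ
    · right
      obtain ⟨j', hj'⟩ := j.eq_nat_or_neg
      have h0 : 1 ≤ j' := by
        rcases Nat.eq_zero_or_pos j' with h0 | h0
        · exfalso
          subst h0
          simp at hj'
          exact hJ hj'
        · exact h0
      rcases hj' with h | h
      · refine ⟨j', 1, h0, Or.inl rfl, ?_⟩
        rw [h]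
        push_cast
        ring
      · refine ⟨j', -1, h0, Or.inr rfl, ?_⟩
        rw [h]
        push_cast
        ring
  rcases hcase with hj | ⟨j', σ, hj', hσ, hjσ⟩
  · have h := unfolding h2 P hP d m hm hK hN j e lam (by
      rw [heS, hS, hj]
      simp) hlam
    have e1 : (fun i => if i = Fin.last 9 then |m (Fin.last 9) + 2 * (j : ℝ) * e|
        else m i + lam) = M := by
      funext i
      refine Fin.lastCases ?_ (fun i => ?_) i
      · rw [if_pos rfl, hM9]
      · rw [if_neg (Fin.castSucc_lt_last i).ne, hM, sgnm, hj, if_neg (Finset.notMem_empty i),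
          add_comm]
    rw [e1] at h
    exact h
  · have hσ2 : σ * σ = 1 := by
      rcases hσ with h | h <;> rw [h] <;> norm_num
    have hj1 : (1 : ℝ) ≤ j' := by exact_mod_cast hj'
    have hlam' : lam = 2 * j' * (j' * (3 * d - ∑ i : Fin 9, sgnm J m i) +
        σ * m (Fin.last 9)) := by
      rw [hlam, hjσ, ← he]
      linear_combination (2 * (j' : ℝ) ^ 2 * e) * hσ2
    have hσn : -m (Fin.last 9) ≤ σ * m (Fin.last 9) := by
      rcases hσ with h | h <;> rw [h] <;> linarith
    have hje : e ≤ j' * e := le_mul_of_one_le_left he0 hj1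
    have hlam0 : 4 * S ≤ lam := by
      rw [hlam', ← he]
      have h1 : 2 * S ≤ j' * e + σ * m (Fin.last 9) := by linarith
      have h3 : 0 ≤ j' * e + σ * m (Fin.last 9) := by linarith
      have h4 : 2 * (j' * e + σ * m (Fin.last 9)) ≤ 2 * j' * (j' * e + σ * m (Fin.last 9)) :=
        mul_le_mul_of_nonneg_right (by linarith) h3
      linarith
    have hpos : 0 ≤ σ * m (Fin.last 9) + 2 * j' * e := by linarith
    have habs : |m (Fin.last 9) + 2 * (j : ℝ) * e| = σ * m (Fin.last 9) + 2 * j' * e := by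
      rw [← abs_of_nonneg hpos]
      rw [hjσ]
      rcases hσ with h | h
      · rw [h]
        congr 1
        ring
      · rw [h, ← abs_neg]
        congr 1
        ring
    refine ⟨?_, ?_⟩
    · intro i
      refine Fin.lastCases ?_ (fun i => ?_) i
      · rw [hM9]
        exact abs_nonneg _
      · rw [hM, sgnm]
        split_ifs with hi
        · have h1 : m i.castSucc ≤ S := by
            rw [hS]
            exact Finset.single_le_sum (f := fun i : Fin 9 => m i.castSucc)
              (fun i _ => hm _) hi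
          linarith
        · linarith [hm i.castSucc]
    · intro f δ μ hf hδ hμ
      have key := unfoldM_nat h2 P hP d m hm hK hN J j' hj' σ hσ f hf δ hδ μ hμ lam hlam'
      rw [← he] at key
      rw [Fin.sum_univ_castSucc, hM9, habs]
      simp only [hM]
      exact key

end ShghM
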