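import Pool.Agent.ShghM.SetupM

/-!
# The degeneration: the end point of `C_m`
-/

namespace ShghM

open MvPolynomial ShghE ShghR WeierstrassCurve WeierstrassCurve.Affine

variable {k : Type*} [Field k] [DecidableEq k] {δ : ℕ} {μ : Fin 10 → ℕ} {B : ℕ}
variable (S : Setup k δ μ B)

/-- The part `hmem` of `ShghR.coreS` (`mult_zero` for `g = 0`, `mult_end` for `g ≥ 1`), with
`Z = Fin.snoc (a, b) (za, zb)`. -/
theorem Setup.end9 [IsAlgClosed k] (h2 : (2 : k) ≠ 0) (g : ℕ) (hB : bigB g 0 δ ≤ B)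
    {za zb : k} (hns : (E0 k).Nonsingular za zb)
    (hz : (Point.some za zb hns : (E0 k).Point) =
      S.CD.E.T + ((g * (g + 1) : ℕ) : ℤ) • ∑ i, S.p i) :
    S.gg 0 ∈ ptIdeal za zb ^
      ((2 * g + 1) * (μ (Fin.last 9) : ℤ) -
        2 * g * (g + 1) * (3 * (δ : ℤ) - ∑ i : Fin 9, (μ i.castSucc : ℤ)) - S.w).toNat := by
  unfold bigB at hB
  have hN : g * (g + 1) + 1 ≤ B := by
    have h : g * (g + 1) ≤ 2 * g * (g + 1) := by
      rw [mul_assoc]
      exact Nat.le_mul_of_pos_left _ (by norm_num)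
    omega
  have hzp : ∀ i, (Point.some za zb hns : (E0 k).Point) ≠ S.p i := by
    intro i h
    have h1 : ∑ j : Fin 9, (((g * (g + 1) : ℕ) : ℤ) - if j = i then 1 else 0) • S.p j =
        (-1 : ℤ) • S.CD.E.T := by
      simp only [sub_smul, Finset.sum_sub_distrib, ite_smul, one_smul, zero_smul,
        Finset.sum_ite_eq', Finset.mem_univ, if_true, ← Finset.smul_sum]
      rw [← h, hz]
      simp
    have h3 := S.indep _ (fun j => ?_) (-1) h1
    · have h4 := congrFun h3 i
      simp only [if_true, Pi.zero_apply] at h4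
      have h5 : ((g * (g + 1) : ℕ) : ℤ) = 1 := by linarith
      have h6 : g * (g + 1) = 1 := by exact_mod_cast h5
      have h7 := Nat.even_mul_succ_self g
      rw [h6] at h7
      exact absurd h7 (by decide)
    · have h4 : (0 : ℤ) ≤ (g * (g + 1) : ℕ) := by positivity
      have h5 : ((g * (g + 1) : ℕ) : ℤ) + 1 ≤ (B : ℤ) := by exact_mod_cast hN
      rw [abs_le]
      split_ifs <;> constructor <;> linarith
  rcases Nat.eq_zero_or_pos g with hg | hg
  · have h1 : (Point.some za zb hns : (E0 k).Point) = S.CD.E.T := by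
      rw [hz, hg]
      simp
    rw [S.CD.T_eq] at h1
    have h3 : za = 0 ∧ zb = 0 := by
      simpa using h1
    rw [h3.1, h3.2]
    have h4 : ((2 * (g : ℤ) + 1) * (μ (Fin.last 9) : ℤ) -
        2 * g * (g + 1) * (3 * (δ : ℤ) - ∑ i : Fin 9, (μ i.castSucc : ℤ)) - S.w).toNat =
        μ (Fin.last 9) - S.w := by
      rw [hg]
      simp
    rw [h4]
    exact mult_zero h2 S.v0 S.F _ S.move S.w S.gg S.hgg
  · rcases le_or_gt 0 ((2 * (g : ℤ) + 1) * (μ (Fin.last 9) : ℤ) -
      2 * g * (g + 1) * (3 * (δ : ℤ) - ∑ i : Fin 9, (μ i.castSucc : ℤ)) - S.w) with h | h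
    · have key := mult_end h2 S.CD S.n S.v0 S.hv0 S.sym B S.tors g hg (by omega) S.p
        (S.indep.ne_zero (by omega)) (S.indep.ne_T (by omega)) (S.indep.inj (by omega)) S.hn
        (S.Z za zb) (S.Z_ns hns) (S.Z_p hns)
        (by rw [S.Z_z hns, hz, S.s_eq, smul_neg, sub_neg_eq_add])
        (by
          intro i
          rw [S.Z_z hns]
          exact hzp i) S.F δ μ S.deg (S.Z_mult za zb) S.move S.w S.gg S.hgg
        ((2 * (g : ℤ) + 1) * (μ (Fin.last 9) : ℤ) -
          2 * g * (g + 1) * (3 * (δ : ℤ) - ∑ i : Fin 9, (μ i.castSucc : ℤ)) - S.w).toNat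
        (by rw [Int.toNat_of_nonneg h])
      rw [S.Z_last] at key
      exact key
    · rw [Int.toNat_of_nonpos h.le, pow_zero, Ideal.one_eq_top]
      exact Submodule.mem_top

end ShghM
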