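import Pool.Agent.ShghM.SetupM

/-!
# The degeneration: the end points of the curves `A^(q)_p`
-/

namespace ShghM

open MvPolynomial ShghE ShghR WeierstrassCurve WeierstrassCurve.Affine

variable {k : Type*} [Field k] [DecidableEq k] {δ : ℕ} {μ : Fin 10 → ℕ} {B : ℕ}
variable (S : Setup k δ μ B)

/-- Existence of the curve through `p i`: the hypothesis of `exists_A` is the relation
`a p_i - b Σ p_l = c T`; the coefficient of `p_l`, `l ≠ i`, is `- b`, that of `p_i` is `a - b`. -/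
theorem Setup.exists_A (q : ℕ) (hq : 1 ≤ q) (hB : bigB 0 q δ ≤ B) (i : Fin 9) :
    ∃ C : Polynomial (K0 k), IsA S.CD.E S.n S.v0 q (S.p i) C := by
  have hB' := hB
  unfold bigB at hB'
  have hBB : 4 * q * (q + 1) + 8 * q ^ 3 * (q + 1) ≤ B := by omega
  refine ShghM.exists_A S.CD.E S.n S.hv0 S.sym S.symA B S.tors q hq (by omega) (by omega) (S.p i)
    (S.indep.ne_T (by omega) i) ?_
  intro a b c ha ha' hb h
  have h1 : ∑ j : Fin 9, ((if j = i then a else 0) - b) • S.p j = c • S.CD.E.T := by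
    simp only [sub_smul, Finset.sum_sub_distrib, ite_smul, zero_smul,
      Finset.sum_ite_eq', Finset.mem_univ, if_true, ← Finset.smul_sum]
    rw [← h, S.s_eq, smul_neg, sub_eq_add_neg]
  have hBZ : 4 * (q : ℤ) * (q + 1) + 8 * (q : ℤ) ^ 3 * (q + 1) ≤ (B : ℤ) := by exact_mod_cast hBB
  have h2 := S.rel _ (fun j => ?_) c h1
  · obtain ⟨j, hj⟩ : ∃ j : Fin 9, j ≠ i := exists_ne i
    have h3 := h2 j
    have h4 := h2 i
    rw [if_neg hj] at h3
    rw [if_pos rfl] at h4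
    omega
  · have hb' := abs_le.1 hb
    have hq0 : (0 : ℤ) ≤ 4 * (q : ℤ) * (q + 1) := by positivity
    rw [abs_le]
    split_ifs <;> constructor <;> linarith

/-- The point `2 q² Σ p_l - p_i` is none of the `p_l`. -/
private theorem EndM_ne (q : ℕ) (hq : 1 ≤ q) (hB : bigB 0 q δ ≤ B) (i l : Fin 9)
    (h : ((2 * q ^ 2 : ℕ) : ℤ) • ∑ l, S.p l - S.p i = S.p l) : False := by
  unfold bigB at hB
  have hBB : 2 * q ^ 2 + 2 ≤ B := by
    have h1 : 1 ≤ q * (q + 1) := Nat.mul_pos hq (Nat.succ_pos q)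
    have h2 : 4 * q * (q + 1) = 4 * (q * (q + 1)) := by ring
    omega
  have hBZ : ((2 * q ^ 2 : ℕ) : ℤ) + 2 ≤ (B : ℤ) := by exact_mod_cast hBB
  have h1 : ∑ j : Fin 9, ((((2 * q ^ 2 : ℕ) : ℤ) - if j = i then 1 else 0) -
      if j = l then 1 else 0) • S.p j = (0 : ℤ) • S.CD.E.T := by
    simp only [sub_smul, Finset.sum_sub_distrib, ite_smul, one_smul, zero_smul,
      Finset.sum_ite_eq', Finset.mem_univ, if_true, ← Finset.smul_sum]
    rw [h, sub_self]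
  have hq0 : (0 : ℤ) ≤ ((2 * q ^ 2 : ℕ) : ℤ) := Int.natCast_nonneg _
  have h2 := S.rel _ (fun j => ?_) 0 h1
  · have hex : ∀ i l : Fin 9, ∃ j : Fin 9, j ≠ i ∧ j ≠ l := by decide
    obtain ⟨j, hji, hjl⟩ := hex i l
    have h3 := h2 j
    rw [if_neg hji, if_neg hjl, sub_zero, sub_zero] at h3
    have h4 : 2 * q ^ 2 = 0 := by exact_mod_cast h3
    have h5 : 0 < 2 * q ^ 2 := by positivity
    omega
  · rw [abs_le]
    split_ifs <;> constructor <;> linarith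

/-- The consequences of the relation. -/
private theorem EndM_rel (q : ℕ) (hq : 1 ≤ q) (hB : bigB 0 q δ ≤ B) (i : Fin 9) (c i0 : ℕ)
    (hi0 : i0 ≤ c) (hc : c ≤ δ) (t : ℤ)
    (h : (4 * (q : ℤ) ^ 2) •
        (∑ᶠ P, divf (3 * δ) (fun i => -(μ i.castSucc : ℤ)) S.p P • P) =
        (2 * (q : ℤ) ^ 2 * (S.w + i0)) • S.n.s + t • S.CD.E.T +
          ((S.w : ℤ) + i0 - (c - i0) - μ i.castSucc) • S.p i) :
    (∀ l : Fin 9, l ≠ i → 2 * (μ l.castSucc : ℤ) = S.w + i0) ∧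
      4 * (q : ℤ) ^ 2 * μ i.castSucc = 2 * (q : ℤ) ^ 2 * (S.w + i0) -
        (S.w + i0 - (c - i0) - μ i.castSucc) := by
  unfold bigB at hB
  obtain ⟨K, hK⟩ : ∃ K : ℤ, K = (S.w : ℤ) + i0 - (c - i0) - μ i.castSucc := ⟨_, rfl⟩
  have hwδ := S.gg0.2
  have hμ := S.mu_le
  have e3 : (S.w : ℤ) ≤ δ := by
    exact_mod_cast (by omega : S.w ≤ δ)
  have e4 : (0 : ℤ) ≤ S.w := Int.natCast_nonneg _
  have e8 : (i0 : ℤ) ≤ c := by exact_mod_cast hi0
  have e9 : (0 : ℤ) ≤ i0 := Int.natCast_nonneg _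
  have e10 : (c : ℤ) ≤ δ := by exact_mod_cast hc
  have e11 : (μ i.castSucc : ℤ) ≤ δ := by exact_mod_cast hμ i
  have e12 : (0 : ℤ) ≤ μ i.castSucc := Int.natCast_nonneg _
  have hKb : |K| ≤ 2 * δ := by
    rw [abs_le, hK]
    constructor <;> linarith
  have hq2 : (0 : ℤ) ≤ 2 * (q : ℤ) ^ 2 := by positivity
  have hBB : (8 * q ^ 2 + 4) * (4 * δ) ≤ B := by
    have := Nat.zero_le (2 * q * (q + 1) * (4 * δ))
    omega
  have hBZ : (8 * (q : ℤ) ^ 2 + 4) * (4 * δ) ≤ (B : ℤ) := by exact_mod_cast hBB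
  rw [← hK] at h ⊢
  rw [divf_sum_smul, S.s_eq] at h
  have h1 : ∑ j : Fin 9, (2 * (q : ℤ) ^ 2 * (S.w + i0 - 2 * μ j.castSucc) -
      if j = i then K else 0) • S.p j = t • S.CD.E.T := by
    have h2 : ∑ j : Fin 9, (if j = i then K else 0) • S.p j = K • S.p i := by
      simp only [ite_smul, zero_smul, Finset.sum_ite_eq', Finset.mem_univ, if_true]
    have h3 : ∑ j : Fin 9, (2 * (q : ℤ) ^ 2 * (S.w + i0 - 2 * μ j.castSucc)) • S.p j =
        (4 * (q : ℤ) ^ 2) • (∑ j : Fin 9, (-(μ j.castSucc : ℤ)) • S.p j) -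
          (2 * (q : ℤ) ^ 2 * (S.w + i0)) • (- ∑ j, S.p j) := by
      rw [Finset.smul_sum, smul_neg, Finset.smul_sum, sub_neg_eq_add, ← Finset.sum_add_distrib]
      refine Finset.sum_congr rfl fun j _ => ?_
      module
    simp only [sub_smul (2 * (q : ℤ) ^ 2 * _), Finset.sum_sub_distrib]
    rw [h2, h3, h]
    abel
  have h2 := S.rel _ (fun j => ?_) t h1
  · refine ⟨fun l hl => ?_, ?_⟩
    · have h3 := h2 l
      rw [if_neg hl, sub_zero] at h3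
      have h4 : (2 * (q : ℤ) ^ 2) ≠ 0 := by
        have : 0 < q := hq
        positivity
      have h5 := (mul_eq_zero.1 h3).resolve_left h4
      linarith
    · have h3 := h2 i
      rw [if_pos rfl] at h3
      linarith
  · have e1 : (μ j.castSucc : ℤ) ≤ δ := by exact_mod_cast hμ j
    have e2 : (0 : ℤ) ≤ μ j.castSucc := Int.natCast_nonneg _
    have e5 : |(S.w : ℤ) + i0 - 2 * (μ j.castSucc : ℤ)| ≤ 2 * δ := by
      rw [abs_le]
      constructor <;> linarith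
    have e6 : |2 * (q : ℤ) ^ 2 * (S.w + i0 - 2 * μ j.castSucc)| ≤ 2 * (q : ℤ) ^ 2 * (2 * δ) := by
      rw [abs_mul, abs_of_nonneg hq2]
      exact mul_le_mul_of_nonneg_left e5 hq2
    have e7 : |if j = i then K else 0| ≤ 2 * (δ : ℤ) := by
      split_ifs
      · exact hKb
      · rw [abs_zero]
        positivity
    have hδ0 : (0 : ℤ) ≤ δ := Int.natCast_nonneg _
    have hqδ : (0 : ℤ) ≤ (q : ℤ) ^ 2 * δ := by positivity
    calc _ ≤ |2 * (q : ℤ) ^ 2 * (S.w + i0 - 2 * μ j.castSucc)| + |if j = i then K else 0| :=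
          abs_sub _ _
      _ ≤ 2 * (q : ℤ) ^ 2 * (2 * δ) + 2 * δ := add_le_add e6 e7
      _ ≤ (8 * (q : ℤ) ^ 2 + 4) * (4 * δ) := by linarith
      _ ≤ B := hBZ

/-- Let `N` be the bound. If `N < 0` take `c = 0`. If `N ≥ 0`, `mult_endA_eq` (for `Z = Fin.snoc (a, b) (za, zb)`):
either the multiplicity is `≥ N + 1` (take `c = N + 1`), or there is the relation; then `c = N`
(`mult_endA`), `Σ Mf P = - Σ μ_l p_l`, `s = - Σ p_l`:
`Σ_l (2 q² (w + i0) - 4 q² μ_l) p_l - ((w + i0) - (c - i0) - μ_i) p_i = t T`, and `Setup.rel`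
(`i0 ≤ c ≤ δ` by `le_totalDegree`). The point `z = 2 q² Σ p_l - p_i` is different from all `p_l`
(the coefficient of some other `p` is `2 q² ≠ 0`). -/
theorem Setup.endA [IsAlgClosed k] (h2 : (2 : k) ≠ 0) (q : ℕ) (hq : 1 ≤ q) (hB : bigB 0 q δ ≤ B)
    (i : Fin 9) {za zb : k} (hns : (E0 k).Nonsingular za zb)
    (hz : (Point.some za zb hns : (E0 k).Point) =
      ((2 * q ^ 2 : ℕ) : ℤ) • ∑ l, S.p l - S.p i) :
    ∃ c : ℕ, S.gg 0 ∈ ptIdeal za zb ^ c ∧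
      4 * (q : ℤ) * μ (Fin.last 9) -
        4 * (q : ℤ) ^ 2 * (3 * (δ : ℤ) - ∑ i : Fin 9, (μ i.castSucc : ℤ)) - μ i.castSucc - S.w ≤ c ∧
      (4 * (q : ℤ) * μ (Fin.last 9) -
        4 * (q : ℤ) ^ 2 * (3 * (δ : ℤ) - ∑ i : Fin 9, (μ i.castSucc : ℤ)) - μ i.castSucc - S.w = c →
        ∃ i0 : ℕ, i0 ≤ c ∧ (∀ l : Fin 9, l ≠ i → 2 * (μ l.castSucc : ℤ) = S.w + i0) ∧
          4 * (q : ℤ) ^ 2 * μ i.castSucc = 2 * (q : ℤ) ^ 2 * (S.w + i0) -
            (S.w + i0 - (c - i0) - μ i.castSucc)) := by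
  have hB1 : 1 ≤ B := by
    have hB' := hB
    unfold bigB at hB'
    omega
  have hzp : ∀ l, (Point.some za zb hns : (E0 k).Point) ≠ S.p l := by
    intro l h
    rw [hz] at h
    exact EndM_ne S q hq hB i l h
  obtain ⟨C, hC⟩ := S.exists_A q hq hB i
  obtain ⟨N, hN⟩ : ∃ N : ℤ, N = 4 * (q : ℤ) * μ (Fin.last 9) -
      4 * (q : ℤ) ^ 2 * (3 * (δ : ℤ) - ∑ i : Fin 9, (μ i.castSucc : ℤ)) - μ i.castSucc - S.w :=
    ⟨_, rfl⟩
  rw [← hN]
  have hz' : (Point.some (S.Z za zb (Fin.last 9) 0) (S.Z za zb (Fin.last 9) 1)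
      (S.Z_ns hns (Fin.last 9)) : (E0 k).Point) =
      -((2 * q ^ 2 : ℕ) : ℤ) • S.n.s - S.p i := by
    rw [S.Z_z hns, hz, S.s_eq, smul_neg, neg_smul, neg_neg]
  have hzp' : ∀ l : Fin 9, (Point.some (S.Z za zb (Fin.last 9) 0) (S.Z za zb (Fin.last 9) 1)
      (S.Z_ns hns (Fin.last 9)) : (E0 k).Point) ≠ S.p l := by
    intro l
    rw [S.Z_z hns]
    exact hzp l
  rcases lt_or_ge N 0 with hneg | hpos
  · refine ⟨0, ?_, ?_, ?_⟩
    · rw [pow_zero, Ideal.one_eq_top]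
      exact Submodule.mem_top
    · rw [Nat.cast_zero]
      exact hneg.le
    · intro h
      rw [Nat.cast_zero] at h
      omega
  · obtain ⟨c, hcN⟩ : ∃ c : ℕ, (c : ℤ) = N := ⟨N.toNat, Int.toNat_of_nonneg hpos⟩
    have hmem := mult_endA h2 S.CD S.n S.v0 S.hv0 q hq S.p (S.indep.ne_zero hB1)
      (S.indep.ne_T hB1) (S.indep.inj hB1) S.hn i C hC (S.Z za zb) (S.Z_ns hns) (S.Z_p hns)
      hz' hzp' S.F δ μ S.deg (S.Z_mult za zb) S.move S.w S.gg S.hgg c (by rw [hcN, hN])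
    rw [S.Z_last] at hmem
    have hmem' : S.gg 0 ∈ ptIdeal za zb ^ c := hmem
    have hcδ : c ≤ δ := by
      have h1 := S.gg0
      have h3 := le_totalDegree h1.1 hmem'
      omega
    rcases mult_endA_eq h2 S.CD S.n S.v0 S.hv0 q hq S.p (S.indep.ne_zero hB1)
      (S.indep.ne_T hB1) (S.indep.inj hB1) S.hn i C hC (S.Z za zb) (S.Z_ns hns) (S.Z_p hns)
      hz' hzp' S.F δ μ S.deg (S.Z_mult za zb) S.move S.w S.gg S.hgg c (by rw [hcN, hN]) with
      h | ⟨i0, hi0, t, ht⟩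
    · rw [S.Z_last] at h
      refine ⟨c + 1, h, ?_, fun h3 => ?_⟩
      · push_cast
        omega
      · push_cast at h3
        omega
    · exact ⟨c, hmem', hcN.ge, fun _ => ⟨i0, hi0, EndM_rel S q hq hB i c i0 hi0 hcδ t ht⟩⟩

end ShghM
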