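import Pool.Agent.ShghM.SecM
import Pool.Agent.ShghM.End9
import Pool.Agent.ShghM.EndM

/-!
# The degeneration
-/

namespace ShghM

open MvPolynomial ShghE ShghR WeierstrassCurve WeierstrassCurve.Affine

variable {k : Type*} [Field k]

private theorem DegenM_coords [DecidableEq k] {z : (E0 k).Point} (hz : z ≠ 0) :
    ∃ (a b : k) (h : (E0 k).Nonsingular a b), (Point.some a b h : (E0 k).Point) = z := by
  rcases z with _ | ⟨a, b, h⟩
  · exact absurd rfl hz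
  · exact ⟨a, b, h, rfl⟩

private theorem DegenM_bigB_left (g q δ : ℕ) : bigB 0 q δ ≤ bigB g q δ := by
  unfold bigB
  gcongr <;> exact Nat.zero_le _

private theorem DegenM_bigB_right (g q δ : ℕ) : bigB g 0 δ ≤ bigB g q δ := by
  unfold bigB
  gcongr <;> exact Nat.zero_le _

private theorem DegenM_bound (g q δ : ℕ) :
    g * (g + 1) + 1 ≤ bigB g q δ ∧ 2 * q ^ 2 + 1 ≤ bigB g q δ := by
  unfold bigB
  constructor
  · nlinarith [Nat.zero_le (g * (g + 1)), Nat.zero_le (q * (q + 1)), Nat.zero_le (q ^ 2),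
      Nat.zero_le (q ^ 3 * (q + 1)), Nat.zero_le (g * (g + 1) * δ),
      Nat.zero_le (q * (q + 1) * δ), Nat.zero_le (q ^ 2 * δ)]
  · nlinarith [Nat.zero_le (g * (g + 1)), Nat.zero_le (q * (q + 1)), Nat.zero_le (q ^ 2),
      Nat.zero_le (q ^ 3 * (q + 1)), Nat.zero_le (g * (g + 1) * δ),
      Nat.zero_le (q * (q + 1) * δ), Nat.zero_le (q ^ 2 * δ)]

/-- Assembly of `exists_setup` (with the bound `B + bigB g q δ`), `Setup.sec`, `Setup.sec_eq`, `Setup.end9`,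
`Setup.endA`. The points `2 q² Σ p_l - p_i` and `T + g (g+1) Σ p_l` are not zero by the independence, so they
have coordinates; choose the coordinates of all ten special points. -/
theorem coreM [IsAlgClosed k] [DecidableEq k] (h2 : (2 : k) ≠ 0) (P : Fin 10 → Fin 2 → k)
    (hP : AlgebraicIndependent (⊥ : Subfield k) (fun ij : Fin 10 × Fin 2 => P ij.1 ij.2))
    (f : MvPolynomial (Fin 2) k) (hf : f ≠ 0) (δ : ℕ) (hdeg : f.totalDegree ≤ δ) (μ : Fin 10 → ℕ)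
    (hμ : ∀ i, f ∈ ptIdeal (P i 0) (P i 1) ^ μ i) (J : Finset (Fin 9)) (g q : ℕ) (hq : 1 ≤ q)
    (B : ℕ) :
    ∃ (CD : CurveData2 k) (p : Fin 9 → (E0 k).Point) (Z : Fin 10 → Fin 2 → k)
      (hZ : ∀ i, (E0 k).Nonsingular (Z i 0) (Z i 1)),
      Indep p CD.E.T B ∧
      (∀ i : Fin 9, (Point.some (Z i.castSucc 0) (Z i.castSucc 1) (hZ i.castSucc) :
        (E0 k).Point) = if i ∈ J then ((2 * q ^ 2 : ℕ) : ℤ) • ∑ l, p l - p i else p i) ∧
      (Point.some (Z (Fin.last 9) 0) (Z (Fin.last 9) 1) (hZ (Fin.last 9)) : (E0 k).Point) =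
        CD.E.T + ((g * (g + 1) : ℕ) : ℤ) • ∑ i, p i ∧
      ∃ (w : ℕ) (g0 : MvPolynomial (Fin 2) k) (c : Fin 10 → ℕ), g0 ≠ 0 ∧
        g0.totalDegree + 3 * w ≤ δ ∧
        (∀ i, g0 ∈ ptIdeal (Z i 0) (Z i 1) ^ c i) ∧
        (∀ i : Fin 9, i ∉ J → c i.castSucc = μ i.castSucc - w) ∧
        (∀ i : Fin 9, i ∈ J → 4 * (q : ℤ) * μ (Fin.last 9) -
          4 * (q : ℤ) ^ 2 * (3 * (δ : ℤ) - ∑ i : Fin 9, (μ i.castSucc : ℤ)) - μ i.castSucc - w ≤
            c i.castSucc) ∧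
        (2 * g + 1) * (μ (Fin.last 9) : ℤ) -
          2 * g * (g + 1) * (3 * (δ : ℤ) - ∑ i : Fin 9, (μ i.castSucc : ℤ)) - w ≤
            c (Fin.last 9) ∧
        2 * (q : ℤ) * μ (Fin.last 9) ≤
          2 * (q : ℤ) ^ 2 * (3 * (δ : ℤ) - ∑ i : Fin 9, (μ i.castSucc : ℤ)) + w ∧
        (2 * (q : ℤ) * μ (Fin.last 9) =
          2 * (q : ℤ) ^ 2 * (3 * (δ : ℤ) - ∑ i : Fin 9, (μ i.castSucc : ℤ)) + w →
          ∀ i : Fin 9, 2 * (μ i.castSucc : ℤ) = w) ∧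
        (∀ i : Fin 9, i ∈ J → 4 * (q : ℤ) * μ (Fin.last 9) -
          4 * (q : ℤ) ^ 2 * (3 * (δ : ℤ) - ∑ i : Fin 9, (μ i.castSucc : ℤ)) - μ i.castSucc - w =
            c i.castSucc →
          ∃ i0 : ℕ, i0 ≤ c i.castSucc ∧
            (∀ l : Fin 9, l ≠ i → 2 * (μ l.castSucc : ℤ) = w + i0) ∧
            4 * (q : ℤ) ^ 2 * μ i.castSucc = 2 * (q : ℤ) ^ 2 * (w + i0) -
              (w + i0 - (c i.castSucc - i0) - μ i.castSucc)) := by
  classical
  obtain ⟨S⟩ := exists_setup h2 P hP f hf δ hdeg μ hμ (B + bigB g q δ)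
  have hB1 : bigB 0 q δ ≤ B + bigB g q δ := (DegenM_bigB_left g q δ).trans (Nat.le_add_left _ _)
  have hB2 : bigB g 0 δ ≤ B + bigB g q δ := (DegenM_bigB_right g q δ).trans (Nat.le_add_left _ _)
  obtain ⟨hb1, hb2⟩ := DegenM_bound g q δ
  have hT0 : S.CD.E.T ≠ 0 := by
    rw [S.CD.T_eq]
    exact Point.some_ne_zero _
  have hp0 : ∀ i, S.p i ≠ 0 := by
    intro i
    rw [S.pab]
    exact Point.some_ne_zero _
  -- the special points are not zero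
  have hzJ : ∀ i, ((2 * q ^ 2 : ℕ) : ℤ) • ∑ l, S.p l - S.p i ≠ 0 := by
    intro i h
    have h1 : ∑ j : Fin 9, (((2 * q ^ 2 : ℕ) : ℤ) - if j = i then 1 else 0) • S.p j =
        (0 : ℤ) • S.CD.E.T := by
      simp only [sub_smul, Finset.sum_sub_distrib, ite_smul, one_smul, zero_smul,
        Finset.sum_ite_eq', Finset.mem_univ, if_true, ← Finset.smul_sum]
      exact h
    obtain ⟨j, hj⟩ : ∃ j : Fin 9, j ≠ i := exists_ne i
    have h3 := S.rel _ (fun l => ?_) 0 h1 j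
    · rw [if_neg hj, sub_zero] at h3
      have h4 : 2 * q ^ 2 = 0 := by exact_mod_cast h3
      have h5 : 0 < 2 * q ^ 2 := by positivity
      omega
    · have h4 : (0 : ℤ) ≤ (2 * q ^ 2 : ℕ) := by positivity
      have h5 : ((2 * q ^ 2 : ℕ) : ℤ) + 1 ≤ ((B + bigB g q δ : ℕ) : ℤ) := by
        exact_mod_cast hb2.trans (Nat.le_add_left _ _)
      rw [abs_le]
      split_ifs <;> constructor <;> linarith
  have hzl : S.CD.E.T + ((g * (g + 1) : ℕ) : ℤ) • ∑ i, S.p i ≠ 0 := by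
    intro h
    have h1 : ∑ i, ((g * (g + 1) : ℕ) : ℤ) • S.p i = (-1 : ℤ) • S.CD.E.T := by
      rw [← Finset.smul_sum, neg_smul, one_smul]
      exact (neg_eq_of_add_eq_zero_right h).symm
    have h3 := S.rel (fun _ => ((g * (g + 1) : ℕ) : ℤ)) (fun i => by
      rw [abs_of_nonneg (by positivity)]
      exact_mod_cast (by omega : g * (g + 1) ≤ B + bigB g q δ)) (-1) h1 0
    rw [h3, zero_smul, add_zero] at h
    exact hT0 h
  -- coordinates of the special points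
  let zz : Fin 10 → (E0 k).Point := Fin.snoc (α := fun _ => (E0 k).Point)
    (fun i : Fin 9 => if i ∈ J then ((2 * q ^ 2 : ℕ) : ℤ) • ∑ l, S.p l - S.p i else S.p i)
    (S.CD.E.T + ((g * (g + 1) : ℕ) : ℤ) • ∑ i, S.p i)
  have hzz1 : ∀ i : Fin 9, zz i.castSucc =
      if i ∈ J then ((2 * q ^ 2 : ℕ) : ℤ) • ∑ l, S.p l - S.p i else S.p i := fun i =>
    Fin.snoc_castSucc _ _ _
  have hzz2 : zz (Fin.last 9) = S.CD.E.T + ((g * (g + 1) : ℕ) : ℤ) • ∑ i, S.p i :=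
    Fin.snoc_last _ _
  have hzz0 : ∀ i, zz i ≠ 0 := by
    intro i
    refine Fin.lastCases ?_ (fun i => ?_) i
    · rw [hzz2]
      exact hzl
    · rw [hzz1]
      split_ifs
      · exact hzJ i
      · exact hp0 i
  choose Z0 Z1 hns hZz using fun i => DegenM_coords (hzz0 i)
  -- the multiplicities
  have hc : ∀ i : Fin 9, ∃ c : ℕ,
      S.gg 0 ∈ ptIdeal (Z0 i.castSucc) (Z1 i.castSucc) ^ c ∧
      (i ∉ J → c = μ i.castSucc - S.w) ∧
      (i ∈ J → 4 * (q : ℤ) * μ (Fin.last 9) -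
        4 * (q : ℤ) ^ 2 * (3 * (δ : ℤ) - ∑ i : Fin 9, (μ i.castSucc : ℤ)) - μ i.castSucc - S.w ≤
          c) ∧
      (i ∈ J → 4 * (q : ℤ) * μ (Fin.last 9) -
        4 * (q : ℤ) ^ 2 * (3 * (δ : ℤ) - ∑ i : Fin 9, (μ i.castSucc : ℤ)) - μ i.castSucc - S.w =
          c → ∃ i0 : ℕ, i0 ≤ c ∧
          (∀ l : Fin 9, l ≠ i → 2 * (μ l.castSucc : ℤ) = S.w + i0) ∧
          4 * (q : ℤ) ^ 2 * μ i.castSucc = 2 * (q : ℤ) ^ 2 * (S.w + i0) -
            (S.w + i0 - (c - i0) - μ i.castSucc)) := by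
    intro i
    by_cases hi : i ∈ J
    · obtain ⟨c, hc1, hc2, hc3⟩ := S.endA h2 q hq hB1 i (hns i.castSucc) (by
        rw [hZz, hzz1, if_pos hi])
      exact ⟨c, hc1, fun h => absurd hi h, fun _ => hc2, fun _ => hc3⟩
    · refine ⟨μ i.castSucc - S.w, ?_, fun _ => rfl, fun h => absurd h hi,
        fun h => absurd h hi⟩
      have h1 := hZz i.castSucc
      rw [hzz1, if_neg hi, S.pab i] at h1
      have h3 : Z0 i.castSucc = S.a i ∧ Z1 i.castSucc = S.b i := by simpa using h1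
      rw [h3.1, h3.2]
      exact S.gg0_mem h2 i
  choose c hc1 hc2 hc3 hc4 using hc
  obtain ⟨cl, hcl1, hcl2⟩ : ∃ cl : ℕ,
      S.gg 0 ∈ ptIdeal (Z0 (Fin.last 9)) (Z1 (Fin.last 9)) ^ cl ∧
      (2 * g + 1) * (μ (Fin.last 9) : ℤ) -
        2 * g * (g + 1) * (3 * (δ : ℤ) - ∑ i : Fin 9, (μ i.castSucc : ℤ)) - S.w ≤ cl :=
    ⟨_, S.end9 h2 g hB2 (hns (Fin.last 9)) (by rw [hZz, hzz2]), Int.self_le_toNat _⟩
  refine ⟨S.CD, S.p, fun i => ![Z0 i, Z1 i], hns, ?_, fun i => ?_, ?_, S.w, S.gg 0,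
    Fin.snoc (α := fun _ => ℕ) c cl, S.gg0.1, S.gg0.2, ?_, ?_, ?_, ?_,
    S.sec h2 q hq hB1, S.sec_eq h2 q hq hB1, ?_⟩
  · intro c hc ε h
    refine S.indep c (fun i => (hc i).trans ?_) ε h
    exact_mod_cast Nat.le_add_right B _
  · rw [← hzz1]
    exact hZz i.castSucc
  · rw [← hzz2]
    exact hZz (Fin.last 9)
  · intro i
    refine Fin.lastCases ?_ (fun i => ?_) i
    · rw [Fin.snoc_last]
      exact hcl1
    · rw [Fin.snoc_castSucc]
      exact hc1 i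
  · intro i hi
    rw [Fin.snoc_castSucc]
    exact hc2 i hi
  · intro i hi
    rw [Fin.snoc_castSucc]
    exact hc3 i hi
  · rw [Fin.snoc_last]
    exact hcl2
  · intro i hi
    rw [Fin.snoc_castSucc]
    exact hc4 i hi

end ShghM
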