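import Pool.Agent.ShghE.Sym

/-!
# The dimension count

`Φ : V → K[X]` linear over `k`, all values symmetric (`ρ (Φ c) = Φ c`), of degree `≤ 2h`, with at most a
double pole at `T`. If `l² < dim V` there is `c ≠ 0` such that `π² Φ c` has order `≥ 2 l` at `(T, v0)`.

Proof: as in `ShghE/Sym.lean` (`VV`, `Sym_int`, `Sym_int_taylor`, `SymL`, `finrank_VV`, `VV_even`,
`exists_sym`), with `π²` instead of `π` and `Φ` instead of `Phi Pi e h`. Let
`V_i = {c : FW v0 i (π² Φ c)}`. The coefficients of `π² Φ c` are integral at `T`, so `V_0 = V`;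
`dim V_i ≤ dim V_(i+1) + (i + 1)` (residues of the `i + 1` leading coefficients, as in `finrank_VV`).
For odd `i` one has `V_i ≤ V_(i+1)`: `ρ (π² F) = (iota π)² ρ F = π² F` (`rho_C_mul`, `pi_iota`), so that
`EField.parity` gives `FW v0 (i+1) (π² F + π² F)`, and `2` is invertible (as in `VV_even`).
Hence `dim V ≤ dim V_(2l) + (1 + 3 + .. + (2l - 1)) = dim V_(2l) + l²`.
-/

set_option linter.unusedSectionVars false

namespace ShghM

open Polynomial ShghE

variable {k K A : Type*} [Field k] [Field K] [Algebra k K] [AddCommGroup A]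
variable (E : EField k K A)

/-- Vectors with order at least `i`. -/
noncomputable def DimM_VV {V : Type*} [AddCommGroup V] [Module k V] (Φ : V →ₗ[k] K[X]) (v0 : k)
    (i : ℕ) : Submodule k V where
  carrier := {c | E.FW v0 i (C (E.pi ^ 2) * Φ c)}
  add_mem' := by
    intro c d hc hd
    simp only [Set.mem_ofPred_eq, map_add, mul_add] at *
    exact EField.FW.add hc hd
  zero_mem' := by
    simp only [Set.mem_ofPred_eq, map_zero, mul_zero]
    exact EField.FW.zero _
  smul_mem' := by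
    intro a c hc
    simp only [Set.mem_ofPred_eq] at *
    have h1 : C (E.pi ^ 2) * Φ (a • c) =
        C (algebraMap k K a) * (C (E.pi ^ 2) * Φ c) := by
      rw [map_smul, ← algebraMap_smul K a, smul_eq_C_mul]
      ring
    rw [h1]
    have h2 : E.FW v0 0 (C (algebraMap k K a)) := by
      refine EField.FW.const ?_
      intro ha
      have ha' : a ≠ 0 := by
        rintro rfl
        exact ha (map_zero _)
      rw [E.const a ha']
    have h3 := EField.FW.mul h2 hc
    rwa [zero_add] at h3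

theorem DimM_mem {V : Type*} [AddCommGroup V] [Module k V] {Φ : V →ₗ[k] K[X]} {v0 : k}
    {i : ℕ} {c : V} : c ∈ DimM_VV E Φ v0 i ↔ E.FW v0 i (C (E.pi ^ 2) * Φ c) := Iff.rfl

/-- The coefficients of `pi ^ 2 Φ` are integral at `T`. -/
theorem DimM_int {F : K[X]} (hT : ∀ j, F.coeff j ≠ 0 → -2 ≤ E.v E.T (F.coeff j)) (j : ℕ)
    (hj : (C (E.pi ^ 2) * F).coeff j ≠ 0) :
    0 ≤ E.v E.T ((C (E.pi ^ 2) * F).coeff j) := by
  rw [coeff_C_mul] at hj ⊢
  have hj1 := right_ne_zero_of_mul hj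
  rw [(E.ord E.T).mul (left_ne_zero_of_mul hj) hj1, (E.ord E.T).pow E.pi_ne_zero, E.pi_v]
  have := hT j hj1
  push_cast
  linarith

/-- The coefficients of the expansion at `v0` are integral at `T`. -/
theorem DimM_taylor {F : K[X]} (hT : ∀ j, F.coeff j ≠ 0 → -2 ≤ E.v E.T (F.coeff j))
    {v0 : k} (hv0 : v0 ≠ 0) (j : ℕ)
    (hj : (taylor (algebraMap k K v0) (C (E.pi ^ 2) * F)).coeff j ≠ 0) :
    0 ≤ E.v E.T ((taylor (algebraMap k K v0) (C (E.pi ^ 2) * F)).coeff j) := by
  have hF : C (E.pi ^ 2) * F ≠ 0 := by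
    intro h0
    exact hj (by rw [h0, map_zero, coeff_zero])
  have h1 : 0 ≤ gv (E.v E.T) 0 (C (E.pi ^ 2) * F) := by
    rw [le_gv_iff hF]
    intro l hl
    have := DimM_int E hT l hl
    linarith
  rw [← gv_taylor (E.ord E.T) (c := algebraMap k K v0)
    (fun _ => by rw [E.const v0 hv0]) hF] at h1
  have h2 := gv_le (v := E.v E.T) (n := 0) hj
  linarith

/-- The normalised coefficients of the expansion. -/
noncomputable def DimM_L {V : Type*} [AddCommGroup V] [Module k V] (Φ : V →ₗ[k] K[X]) (v0 : k)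
    (i j : ℕ) : V →ₗ[k] K where
  toFun c := (taylor (algebraMap k K v0) (C (E.pi ^ 2) * Φ c)).coeff j * (E.pi ^ (i - j))⁻¹
  map_add' c d := by
    simp only [map_add, mul_add, coeff_add, add_mul]
  map_smul' a c := by
    have h1 : C (E.pi ^ 2) * Φ (a • c) =
        C (algebraMap k K a) * (C (E.pi ^ 2) * Φ c) := by
      rw [map_smul, ← algebraMap_smul K a, smul_eq_C_mul]
      ring
    rw [h1, taylor_mul, taylor_C, coeff_C_mul, RingHom.id_apply, Algebra.smul_def, mul_assoc]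

theorem DimM_L_apply {V : Type*} [AddCommGroup V] [Module k V] (Φ : V →ₗ[k] K[X]) (v0 : k)
    (i j : ℕ) (c : V) : DimM_L E Φ v0 i j c =
      (taylor (algebraMap k K v0) (C (E.pi ^ 2) * Φ c)).coeff j * (E.pi ^ (i - j))⁻¹ := rfl

/-- Leading forms: at most `i + 1` conditions. -/
theorem DimM_finrank {V : Type*} [AddCommGroup V] [Module k V] [FiniteDimensional k V]
    (Φ : V →ₗ[k] K[X])
    (hT : ∀ c j, (Φ c).coeff j ≠ 0 → -2 ≤ E.v E.T ((Φ c).coeff j))
    {v0 : k} (hv0 : v0 ≠ 0) (i : ℕ) :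
    Module.finrank k (DimM_VV E Φ v0 i) ≤
      Module.finrank k (DimM_VV E Φ v0 (i + 1)) + (i + 1) := by
  classical
  let q : K →ₗ[k] (K ⧸ E.SymM) := E.SymM.mkQ
  let L : DimM_VV E Φ v0 i →ₗ[k] (Fin (i + 1) → (K ⧸ E.SymM)) :=
    LinearMap.pi fun j => q ∘ₗ (DimM_L E Φ v0 i j) ∘ₗ (DimM_VV E Φ v0 i).subtype
  have hL : ∀ c j, L c j = q (DimM_L E Φ v0 i j c) := fun c j => rfl
  have hint : ∀ (c : DimM_VV E Φ v0 i) (j : Fin (i + 1)), DimM_L E Φ v0 i j c ≠ 0 →
      0 ≤ E.v E.T (DimM_L E Φ v0 i j c) := by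
    intro c j hj
    rw [DimM_L_apply] at hj ⊢
    have h1 := left_ne_zero_of_mul hj
    have h2 := ((DimM_mem E).mp c.2) j h1
    have hp := E.pi_ne_zero
    rw [(E.ord E.T).mul h1 (right_ne_zero_of_mul hj), (E.ord E.T).inv (pow_ne_zero _ hp),
      (E.ord E.T).pow hp, E.pi_v]
    have h3 : ((i - (j : ℕ) : ℕ) : ℤ) = (i : ℤ) - j := by
      have := j.2
      rw [Nat.cast_sub (by omega)]
    rw [h3]
    linarith
  have hrange : Module.finrank k (LinearMap.range L) ≤ i + 1 := by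
    let S : Submodule k (Fin (i + 1) → (K ⧸ E.SymM)) :=
      Submodule.span k (Set.range fun j : Fin (i + 1) => _root_.Pi.single j (q 1))
    have h1 : LinearMap.range L ≤ S := by
      rintro _ ⟨c, rfl⟩
      have h2 : ∀ j, ∃ a : k, L c j = a • q 1 := by
        intro j
        rw [hL]
        by_cases h0 : DimM_L E Φ v0 i j c = 0
        · exact ⟨0, by rw [h0, map_zero, zero_smul]⟩
        · obtain ⟨a, ha⟩ := E.res _ h0 (hint c j h0)
          refine ⟨a, ?_⟩
          rw [← map_smul, ← sub_eq_zero, ← map_sub, Submodule.mkQ_apply,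
            Submodule.Quotient.mk_eq_zero, EField.Sym_mem_M, Algebra.smul_def, mul_one]
          exact ha
      choose a ha using h2
      have h3 : L c = ∑ j, a j • (_root_.Pi.single j (q 1) : Fin (i + 1) → (K ⧸ E.SymM)) := by
        funext l
        rw [ha, Finset.sum_apply, Finset.sum_eq_single l]
        · simp
        · intro b _ hb
          simp [_root_.Pi.single_eq_of_ne hb.symm]
        · intro hh; exact absurd (Finset.mem_univ _) hh
      rw [h3]
      exact Submodule.sum_mem _ fun j _ => Submodule.smul_mem _ _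
        (Submodule.subset_span ⟨j, rfl⟩)
    have hfin : FiniteDimensional k S := FiniteDimensional.span_of_finite k (Set.finite_range _)
    refine (Submodule.finrank_mono h1).trans ?_
    refine (finrank_range_le_card _).trans ?_
    simp
  have hker : Module.finrank k (LinearMap.ker L) ≤
      Module.finrank k (DimM_VV E Φ v0 (i + 1)) := by
    have hmem : ∀ c : LinearMap.ker L, ((c : DimM_VV E Φ v0 i) : V) ∈
        DimM_VV E Φ v0 (i + 1) := by
      rintro ⟨c, hc⟩
      rw [DimM_mem]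
      intro j hj
      by_cases hji : j ≤ i
      · have h1 : L c ⟨j, by omega⟩ = 0 := by
          rw [LinearMap.mem_ker] at hc
          rw [hc]; rfl
        rw [hL, Submodule.mkQ_apply, Submodule.Quotient.mk_eq_zero, EField.Sym_mem_M,
          DimM_L_apply] at h1
        have hp := E.pi_ne_zero
        have hp2 : (E.pi ^ (i - j))⁻¹ ≠ 0 := inv_ne_zero (pow_ne_zero _ hp)
        have h2 := h1 (mul_ne_zero hj hp2)
        simp only at h2
        rw [(E.ord E.T).mul hj hp2, (E.ord E.T).inv (pow_ne_zero _ hp),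
          (E.ord E.T).pow hp, E.pi_v, Nat.cast_sub hji] at h2
        push_cast
        linarith
      · have h1 := DimM_taylor E (hT _) hv0 j hj
        push_cast
        have : (i : ℤ) + 1 ≤ j := by exact_mod_cast (by omega : i + 1 ≤ j)
        linarith
    let J : LinearMap.ker L →ₗ[k] DimM_VV E Φ v0 (i + 1) :=
      LinearMap.codRestrict _ ((DimM_VV E Φ v0 i).subtype ∘ₗ (LinearMap.ker L).subtype) hmem
    refine LinearMap.finrank_le_finrank_of_injective (f := J) ?_
    intro c d hcd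
    have := congrArg (fun x : DimM_VV E Φ v0 (i + 1) => (x : V)) hcd
    exact Subtype.ext (Subtype.ext this)
  have h1 := LinearMap.finrank_range_add_finrank_ker L
  omega

/-- Parity: for odd `i` there is no condition at all. -/
theorem DimM_odd (h2 : (2 : k) ≠ 0) {Pi : K} (hPi : Pi ≠ 0) (hPi0 : E.v E.T Pi = 0)
    {v0 : k} (hv0 : v0 ≠ 0)
    (hPi2 : Pi - algebraMap k K v0 ^ 2 ≠ 0 → 2 ≤ E.v E.T (Pi - algebraMap k K v0 ^ 2))
    (h : ℕ) {V : Type*} [AddCommGroup V] [Module k V]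
    (Φ : V →ₗ[k] K[X]) (hdeg : ∀ c, (Φ c).natDegree ≤ 2 * h)
    (hρ : ∀ c, E.rho Pi h (Φ c) = Φ c)
    (hT : ∀ c j, (Φ c).coeff j ≠ 0 → -2 ≤ E.v E.T ((Φ c).coeff j))
    (i : ℕ) (hio : Odd i) : DimM_VV E Φ v0 i ≤ DimM_VV E Φ v0 (i + 1) := by
  intro c hc
  rw [DimM_mem] at hc ⊢
  have hdeg' : (C (E.pi ^ 2) * Φ c).natDegree ≤ 2 * h :=
    (natDegree_C_mul_le _ _).trans (hdeg c)
  have h3 := E.parity hPi hv0 hPi0 hPi2 h _ hdeg' (DimM_int E (hT c)) i hc
  rw [E.rho_C_mul, hρ, map_pow, E.pi_iota, hio.neg_one_pow, neg_sq] at h3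
  have h4 : C (E.pi ^ 2) * Φ c - -1 * (C (E.pi ^ 2) * Φ c) =
      C (algebraMap k K 2) * (C (E.pi ^ 2) * Φ c) := by
    rw [map_ofNat]
    have : (C (2 : K) : K[X]) = 2 := rfl
    rw [this]
    ring
  rw [h4] at h3
  have h5 : E.FW v0 0 (C (algebraMap k K (2)⁻¹)) := by
    refine EField.FW.const ?_
    intro _
    rw [E.const _ (inv_ne_zero h2)]
  have h6 := EField.FW.mul h5 h3
  rw [← mul_assoc, ← C_mul, ← map_mul, inv_mul_cancel₀ h2, map_one, C_1, one_mul,
    zero_add] at h6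
  exact_mod_cast h6

theorem exists_fw (h2 : (2 : k) ≠ 0) {Pi : K} (hPi : Pi ≠ 0) (hPi0 : E.v E.T Pi = 0)
    {v0 : k} (hv0 : v0 ≠ 0)
    (hPi2 : Pi - algebraMap k K v0 ^ 2 ≠ 0 → 2 ≤ E.v E.T (Pi - algebraMap k K v0 ^ 2))
    (h l : ℕ) {V : Type*} [AddCommGroup V] [Module k V] [FiniteDimensional k V]
    (Φ : V →ₗ[k] K[X]) (hdeg : ∀ c, (Φ c).natDegree ≤ 2 * h)
    (hρ : ∀ c, E.rho Pi h (Φ c) = Φ c)
    (hT : ∀ c j, (Φ c).coeff j ≠ 0 → -2 ≤ E.v E.T ((Φ c).coeff j))
    (hdim : l ^ 2 < Module.finrank k V) :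
    ∃ c : V, c ≠ 0 ∧ E.FW v0 (2 * l : ℕ) (C (E.pi ^ 2) * Φ c) := by
  have h0 : DimM_VV E Φ v0 0 = ⊤ := by
    rw [eq_top_iff]
    intro c _
    rw [DimM_mem]
    intro j hj
    have := DimM_taylor E (hT c) hv0 j hj
    push_cast
    have : (0 : ℤ) ≤ j := Int.natCast_nonneg j
    linarith
  have hd : ∀ l : ℕ, Module.finrank k V ≤
      Module.finrank k (DimM_VV E Φ v0 (2 * l)) + l ^ 2 := by
    intro l
    induction l with
    | zero =>
      rw [mul_zero, h0, finrank_top]
      simp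
    | succ l ih =>
      have h4 := DimM_finrank E Φ hT hv0 (2 * l)
      have h3 : Module.finrank k (DimM_VV E Φ v0 (2 * l + 1)) ≤
          Module.finrank k (DimM_VV E Φ v0 (2 * l + 1 + 1)) :=
        Submodule.finrank_mono (DimM_odd E h2 hPi hPi0 hv0 hPi2 h Φ hdeg hρ hT (2 * l + 1)
          (odd_two_mul_add_one l))
      have h5 : 2 * (l + 1) = 2 * l + 1 + 1 := by ring
      rw [h5]
      have h6 : (l + 1) ^ 2 = l ^ 2 + (2 * l + 1) := by ring
      rw [h6]
      omega
  have hd1 := hd l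
  have hd2 : 0 < Module.finrank k (DimM_VV E Φ v0 (2 * l)) := by omega
  obtain ⟨c, hc⟩ : ∃ c : DimM_VV E Φ v0 (2 * l), c ≠ 0 := by
    have := Module.finrank_pos_iff.mp hd2
    exact exists_ne 0
  refine ⟨c, fun hh => hc (Subtype.ext hh), (DimM_mem E).mp c.2⟩

end ShghM
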