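import Pool.Agent.ShghM.MultAEq
import Pool.Agent.ShghM.EndA

/-!
# Multiplicity at the end point of `A^(q)_p`, `p = p_i`: the case of equality

See the head of `EndA.lean`; model: `ShghR/MultEndEq.lean`.
-/

namespace ShghM

open MvPolynomial ShghE ShghR WeierstrassCurve WeierstrassCurve.Affine

variable {k : Type*} [Field k]

theorem mult_endA_eq [IsAlgClosed k] [DecidableEq k] (h2 : (2 : k) ≠ 0) (CD : CurveData2 k)
    (n : CD.E.Twist) (v0 : k) (hv0 : v0 ≠ 0) (q : ℕ) (hq : 1 ≤ q)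
    (p : Fin 9 → (E0 k).Point) (hp0 : ∀ i, p i ≠ 0) (hpT : ∀ i, p i ≠ CD.E.T)
    (hpi : Function.Injective p) (hn : n.n = divf 9 (fun _ => -1) p) (i : Fin 9)
    (C : Polynomial (K0 k)) (hC : IsA CD.E n v0 q (p i) C)
    (Z : Fin 10 → Fin 2 → k) (hZ : ∀ i, (E0 k).Nonsingular (Z i 0) (Z i 1))
    (hp : ∀ i : Fin 9, p i = Point.some (Z i.castSucc 0) (Z i.castSucc 1) (hZ i.castSucc))
    (hz : (Point.some (Z (Fin.last 9) 0) (Z (Fin.last 9) 1) (hZ (Fin.last 9)) : (E0 k).Point) =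
      -((2 * q ^ 2 : ℕ) : ℤ) • n.s - p i)
    (hzp : ∀ i : Fin 9, (Point.some (Z (Fin.last 9) 0) (Z (Fin.last 9) 1) (hZ (Fin.last 9)) :
      (E0 k).Point) ≠ p i)
    (f : Polynomial (MvPolynomial (Fin 2) k)) (δ : ℕ) (μ : Fin 10 → ℕ)
    (hdeg : ∀ l, (f.coeff l).totalDegree ≤ δ)
    (hmult : ∀ l, ∀ i : Fin 9,
      f.coeff l ∈ ptIdeal (Z i.castSucc 0) (Z i.castSucc 1) ^ μ i.castSucc)
    (hmove : f ∈ (Ideal.span {Polynomial.C (MvPolynomial.X 0) +
        Polynomial.C (MvPolynomial.C v0) * Polynomial.X, Polynomial.C (MvPolynomial.X 1)} :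
        Ideal (Polynomial (MvPolynomial (Fin 2) k))) ^ μ (Fin.last 9))
    (w : ℕ) (gg : ℕ → MvPolynomial (Fin 2) k)
    (hgg : ∀ l, l ≤ w → f.coeff l = Geq k ^ (w - l) * gg l)
    (c : ℕ) (hc : (c : ℤ) = 4 * q * μ (Fin.last 9) -
      4 * (q : ℤ) ^ 2 * (3 * (δ : ℤ) - ∑ i : Fin 9, (μ i.castSucc : ℤ)) - μ i.castSucc - w) :
    gg 0 ∈ ptIdeal (Z (Fin.last 9) 0) (Z (Fin.last 9) 1) ^ (c + 1) ∨
      ∃ i0 ≤ c, ∃ t : ℤ, (4 * (q : ℤ) ^ 2) •
        (∑ᶠ P, divf (3 * δ) (fun i => -(μ i.castSucc : ℤ)) p P • P) =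
        (2 * (q : ℤ) ^ 2 * (w + i0)) • n.s + t • CD.E.T +
          ((w : ℤ) + i0 - (c - i0) - μ i.castSucc) • p i := by
  classical
  have hT0 : CD.E.T ≠ 0 := by
    rw [CD.T_eq]
    exact Point.some_ne_zero _
  have hnn : ∀ P, n.n P = divf 9 (fun _ => -1) p P := fun P => congrFun hn P
  have hp1 : n.n (p i) = -1 := by
    rw [hnn]
    exact divf_apply _ _ _ hp0 hpi i
  obtain ⟨ψ, U, hψ, hU, hflow⟩ := exists_flow (k := k) h2
  have hOm0 := Om_lt h2 f w gg hgg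
  have hFP : ∀ i P, P ≠ 0 → Om f (w + i) ≠ 0 →
      - divf (3 * δ) (fun i => -(μ i.castSucc : ℤ)) p P ≤ CD.E.w n P (Om f (w + i)) :=
    fun i P hP hF => MultEnd_place CD n p hp0 hpi hn Z hZ hp f δ μ hmult (w + i) P hP hF
  have hFO : ∀ i, OmI δ f (w + i) ≠ 0 →
      - divf (3 * δ) (fun i => -(μ i.castSucc : ℤ)) p 0 ≤ CD.E.w n 0 (OmI δ f (w + i)) := by
    intro i hF
    unfold EField.w
    rw [hnn, divf_zero _ _ _ hp0, divf_zero _ _ _ hp0]
    have h := OmI_inf CD δ f hdeg (w + i) hF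
    linarith
  have hμT : ∀ i, Om f (w + i) ≠ 0 →
      ((μ (Fin.last 9) : ℕ) : ℤ) ≤ oo (CD.E.v CD.E.T) (algebraMap k (K0 k) v0) (Om f (w + i)) :=
    fun i hF => MultEnd_T CD v0 f _ hmove (w + i) hF
  have hlead : ∀ N i0 : ℕ, i0 ≤ N → (∀ i ≤ N, C ^ (N - i) ∣ Om f (w + i)) →
      (∀ i < i0, C ^ (N + 1 - i) ∣ Om f (w + i)) →
      C ^ (N - i0) ∣ OmI δ f (w + i0) ∧ C ^ (N + 1 - i0) ∣ Om f (w + i0) - OmI δ f (w + i0) := by
    intro N i0 hi0 h1 h3
    have hV : PowerSeries.constantCoeff (U ^ δ) = 1 := by rw [map_pow, hU, one_pow]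
    obtain ⟨h4, -, h5⟩ := lead_transfer_shift C ψ hψ (U ^ δ) hV (Om f) (OmI δ f)
      (hflow δ f hdeg) w hOm0 N i0 hi0 h1 h3
    exact ⟨h4 i0 hi0, h5⟩
  have htau := hC.tau_end
  rw [← hz] at htau
  have hnz : n.n (Point.some (Z (Fin.last 9) 0) (Z (Fin.last 9) 1) (hZ (Fin.last 9))) = 0 := by
    rw [hnn]
    exact divf_eq_zero _ _ _ (Point.some_ne_zero _) hzp
  have hab : (Z (Fin.last 9) 1) ^ 2 = (Z (Fin.last 9) 0) ^ 3 + Z (Fin.last 9) 0 :=
    eq_of_nonsingular (hZ (Fin.last 9))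
  have hcoef : ∀ j, (Om f j).coeff j =
      algebraMap (R0 k) (K0 k) ((Th k (f.coeff 0)).coeff j) := by
    intro j
    rw [Om_coeff, if_pos le_rfl, Nat.sub_self]
  have hf0 : f.coeff 0 = Geq k ^ w * gg 0 := by
    have h := hgg 0 (Nat.zero_le _)
    rwa [Nat.sub_zero] at h
  have final : ∀ c : ℕ, (∀ i < c, C ^ (c - i) ∣ Om f (w + i)) →
      gg 0 ∈ ptIdeal (Z (Fin.last 9) 0) (Z (Fin.last 9) 1) ^ c := by
    intro c hmult
    have hTh : f.coeff 0 ∈ ptIdeal (Z (Fin.last 9) 0) (Z (Fin.last 9) 1) ^ (w + c) := by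
      refine Th_mem_conv h2 hab fun j hj => ?_
      rcases Nat.lt_or_ge j w with hjw | hjw
      · rw [hf0, (Th_Geq_pow_mul h2 w (gg 0)).1 j hjw]
        exact Ideal.zero_mem _
      · obtain ⟨i, rfl⟩ := Nat.exists_eq_add_of_le hjw
        by_cases hr : (Th k (f.coeff 0)).coeff (w + i) = 0
        · rw [hr]
          exact Ideal.zero_mem _
        · have hic : i < c := by omega
          have hr' : (Om f (w + i)).coeff (w + i) ≠ 0 := by
            rw [hcoef, Ne, map_eq_zero_iff _ (IsFractionRing.injective (R0 k) (K0 k))]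
            exact hr
          have hF : Om f (w + i) ≠ 0 := by
            intro h
            apply hr'
            rw [h, Polynomial.coeff_zero]
          have hw0 : 0 ≤ CD.E.w n (Point.some (Z (Fin.last 9) 0) (Z (Fin.last 9) 1)
              (hZ (Fin.last 9))) (Om f (w + i)) := by
            have h := hFP i _ (Point.some_ne_zero (hZ (Fin.last 9))) hF
            rw [divf_eq_zero _ _ _ (Point.some_ne_zero _) hzp, neg_zero] at h
            exact h
          have h3 := end_coeff CD.E n hnz hC.irr.ne_zero hF htau (hmult i hic)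
            (diag_natDegree _ _) hw0 hr'
          rw [hcoef] at h3
          refine CD.aff_conv _ _ (hZ (Fin.last 9)) _ _ hr ?_
          have e : w + c - (w + i) = c - i := by omega
          rw [e]
          exact h3
    rw [hf0] at hTh
    have h4 := colon h2 hab w (w + c) hTh
    rwa [Nat.add_sub_cancel_left] at h4
  have hreg : ∀ j, Om f (w + j) ≠ 0 → 0 ≤ gv (CD.E.v (p i)) 0 (Om f (w + j)) := by
    intro j hF
    rw [hp i]
    exact Om_reg _ (fun r hr => MultEnd_reg CD _ _ _ r hr) f _ hF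
  rcases mult_A_eq CD.E n hv0 hq hp1 hC 0 hT0.symm (hp0 i).symm (fun j => Om f (w + j))
    (fun j => OmI δ f (w + j)) w (fun j => diag_natDegree _ _) (fun j => diag_natDegree _ _)
    (divf (3 * δ) (fun i => -(μ i.castSucc : ℤ)) p) (divf_fin _ _ _)
    (divf_eq_zero _ _ _ hT0 (fun i => (hpT i).symm)) hFP hFO hreg _ hμT hlead c (by
      rw [divf_sum, Finset.sum_neg_distrib, ← sub_eq_add_neg, divf_apply _ _ _ hp0 hpi i,
        ← sub_eq_add_neg]
      exact hc) with h | h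
  · exact Or.inl (final (c + 1) h)
  · right
    obtain ⟨i0, hi0, t, ht⟩ := h
    refine ⟨i0, hi0, t, ?_⟩
    rw [divf_apply _ _ _ hp0 hpi i, ← sub_eq_add_neg] at ht
    exact ht

end ShghM
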