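import Pool.Agent.ShghM.IsA

/-!
# Existence of the curves `A^(q)_p`
-/

set_option linter.unusedSectionVars false

namespace ShghM

open Polynomial ShghE

variable {k K A : Type*} [Field k] [Field K] [Algebra k K] [AddCommGroup A]
variable (E : EField k K A) (n : E.Twist)

private theorem ExA_unit (v0 : k) {F : K[X]} (hF : IsUnit F) :
    E.b n F = 0 ∧ E.m v0 F = 0 ∧ E.cls n F = 0 ∧ F.natDegree = 0 := by
  obtain ⟨c, hc, rfl⟩ := Polynomial.isUnit_iff.mp hF
  have hc0 : c ≠ 0 := hc.ne_zero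
  exact ⟨E.b_C n hc0, E.m_C v0 hc0, E.cls_C n hc0, natDegree_C c⟩

private theorem ExA_oo (v0 : k) (F : K[X]) :
    oo (E.v E.T) (algebraMap k K v0) F = E.m v0 F + E.w n E.T F := by
  unfold EField.m mu EField.w
  rw [n.nT]
  ring

private theorem ExA_m_monomial {v0 : k} (h0 : v0 ≠ 0) (j : ℕ) {c : K} (hc : c ≠ 0) :
    E.m v0 (monomial j c) = 0 := by
  rw [← C_mul_X_pow_eq_monomial]
  have hC : (C c : K[X]) ≠ 0 := C_ne_zero.mpr hc
  have hX : ∀ j : ℕ, E.m v0 ((X : K[X]) ^ j) = 0 := by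
    intro j
    induction j with
    | zero =>
      rw [pow_zero, ← C_1]
      exact E.m_C v0 one_ne_zero
    | succ j ih => rw [pow_succ, E.m_mul v0 (pow_ne_zero _ X_ne_zero) X_ne_zero, ih, E.m_X h0,
        add_zero]
  rw [E.m_mul v0 hC (pow_ne_zero _ X_ne_zero), E.m_C v0 hc, hX, add_zero]

private theorem ExA_dT_fin : (Function.support fun P => E.dT P).Finite := by
  refine (Set.finite_singleton E.T).subset ?_
  intro P hP
  by_contra h
  apply hP
  change E.dT P = 0
  unfold EField.dT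
  rw [if_neg (fun hPT => h (Set.mem_singleton_iff.mpr hPT))]

private theorem ExA_sum_dT : ∑ᶠ P, E.dT P = 1 := by
  rw [finsum_eq_single _ E.T]
  · unfold EField.dT
    rw [if_pos rfl]
  · intro P hP
    unfold EField.dT
    rw [if_neg hP]

private theorem ExA_sum_dT_smul : ∑ᶠ P, E.dT P • P = E.T := by
  rw [finsum_eq_single _ E.T]
  · unfold EField.dT
    rw [if_pos rfl, one_smul]
  · intro P hP
    unfold EField.dT
    rw [if_neg hP, zero_smul]

private theorem ExA_dT_ne {p : A} (hp : p ≠ E.T) : E.dT p = 0 := by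
  unfold EField.dT
  rw [if_neg hp]

private theorem ExA_dT_T : E.dT E.T = 1 := by
  unfold EField.dT
  rw [if_pos rfl]

/-- a nonnegative function with sum one, positive at `p` -/
private theorem ExA_one {f : A → ℤ} (hf : (Function.support f).Finite) (h0 : ∀ P, 0 ≤ f P)
    (hsum : ∑ᶠ P, f P = 1) {p : A} (hp : 1 ≤ f p) : f p = 1 ∧ ∀ P, P ≠ p → f P = 0 := by
  classical
  have hle : f p ≤ ∑ᶠ R, f R := single_le_finsum p hf h0
  refine ⟨by omega, fun P hP => ?_⟩
  have h1 : ∑ᶠ R, f R = ∑ R ∈ hf.toFinset ∪ {P, p}, f R := by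
    apply finsum_eq_sum_of_support_subset
    intro R hR
    simp only [Finset.coe_union, Set.Finite.coe_toFinset]
    exact Or.inl hR
  have h2 : f P + f p = ∑ R ∈ ({P, p} : Finset A), f R := by
    rw [Finset.sum_pair hP]
  have h3 : f P + f p ≤ ∑ᶠ R, f R := by
    rw [h1, h2]
    exact Finset.sum_le_sum_of_subset_of_nonneg Finset.subset_union_right (fun R _ _ => h0 R)
  have h4 := h0 P
  omega

/-- a nonnegative function with sum one -/
private theorem ExA_one' {f : A → ℤ} (hf : (Function.support f).Finite) (h0 : ∀ P, 0 ≤ f P)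
    (hsum : ∑ᶠ P, f P = 1) : ∃ z, f z = 1 ∧ ∀ P, P ≠ z → f P = 0 := by
  have h1 : ∃ z, 0 < f z := by
    by_contra hcon
    push Not at hcon
    have h2 : ∀ P, f P = 0 := fun P => le_antisymm (hcon P) (h0 P)
    simp only [h2, finsum_zero] at hsum
    exact zero_ne_one hsum
  obtain ⟨z, hz⟩ := h1
  exact ⟨z, ExA_one hf h0 hsum (by omega)⟩

private theorem ExA_smul {f : A → ℤ} {z : A} (h : ∀ P, P ≠ z → f P = 0) :
    ∑ᶠ P, f P • P = f z • z := by
  rw [finsum_eq_single _ z]
  intro P hP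
  rw [h P hP, zero_smul]

/-- a nonnegative function with sum two, positive at `p` -/
private theorem ExA_two {f : A → ℤ} (hf : (Function.support f).Finite) (h0 : ∀ P, 0 ≤ f P)
    (hsum : ∑ᶠ P, f P = 2) {p : A} (hp : 1 ≤ f p) :
    ∃ z, ∑ᶠ P, f P • P = p + z ∧ (z ≠ p → f p = 1 ∧ f z = 1) := by
  classical
  set e : A → ℤ := fun P => if P = p then 1 else 0 with he
  have hep : e p = 1 := by rw [he]; simp
  have hen : ∀ P, P ≠ p → e P = 0 := by
    intro P hP
    rw [he]
    simp [hP]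
  have hefin : (Function.support e).Finite := by
    refine (Set.finite_singleton p).subset ?_
    intro P hP
    by_contra h
    exact hP (hen P (fun hPT => h (Set.mem_singleton_iff.mpr hPT)))
  have hesum : ∑ᶠ P, e P = 1 := by
    rw [finsum_eq_single _ p hen, hep]
  set f' : A → ℤ := fun P => f P - e P with hf'
  have hf'fin : (Function.support f').Finite := by
    refine (hf.union hefin).subset ?_
    intro P hP
    by_contra hc
    rw [Set.mem_union, not_or] at hc
    apply hP
    have h1 : f P = 0 := Function.notMem_support.mp hc.1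
    have h2 : e P = 0 := Function.notMem_support.mp hc.2
    change f P - e P = 0
    rw [h1, h2, sub_zero]
  have hf'0 : ∀ P, 0 ≤ f' P := by
    intro P
    change 0 ≤ f P - e P
    by_cases hP : P = p
    · rw [hP, hep]
      omega
    · rw [hen P hP, sub_zero]
      exact h0 P
  have hf'sum : ∑ᶠ P, f' P = 1 := by
    change ∑ᶠ P, (f P - e P) = 1
    rw [finsum_sub_distrib hf hefin, hsum, hesum]
    norm_num
  obtain ⟨z, hz1, hz2⟩ := ExA_one' hf'fin hf'0 hf'sum
  have hfe : ∀ P, f P = f' P + e P := fun P => by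
    change f P = f P - e P + e P
    ring
  refine ⟨z, ?_, ?_⟩
  · have hs1 : (Function.support fun P => f' P • P).Finite := by
      refine hf'fin.subset ?_
      intro P hP hP0
      apply hP
      change f' P • P = 0
      rw [show f' P = 0 from hP0, zero_smul]
    have hs2 : (Function.support fun P => e P • P).Finite := by
      refine hefin.subset ?_
      intro P hP hP0
      apply hP
      change e P • P = 0
      rw [show e P = 0 from hP0, zero_smul]
    have h1 : ∀ P, f P • P = f' P • P + e P • P := fun P => by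
      rw [hfe P, add_smul]
    rw [finsum_congr h1, finsum_add_distrib hs1 hs2, ExA_smul hz2, ExA_smul hen, hz1, hep,
      one_smul, one_smul, add_comm]
  · intro hzp
    refine ⟨?_, ?_⟩
    · rw [hfe p, hz2 p (fun h => hzp h.symm), hep, zero_add]
    · rw [hfe z, hz1, hen z hzp, add_zero]

/-- The numbers `w_P(F) + 2 dT P + h n_P`. -/
private theorem ExA_bounds {F : K[X]} (hF : F ≠ 0) (h : ℤ) :
    (Function.support fun P => E.w n P F + 2 * E.dT P + h * n.n P).Finite ∧
      ∑ᶠ P, (E.w n P F + 2 * E.dT P + h * n.n P) = 2 - E.b n F := by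
  have hf1 : (Function.support fun P => E.w n P F).Finite := E.w_fin n hF
  have hf2 : (Function.support fun P => 2 * E.dT P).Finite := by
    refine (ExA_dT_fin E).subset ?_
    intro P hP hP0
    apply hP
    change 2 * E.dT P = 0
    rw [show E.dT P = 0 from hP0, mul_zero]
  have hf3 : (Function.support fun P => h * n.n P).Finite := by
    refine n.fin.subset ?_
    intro P hP hP0
    apply hP
    change h * n.n P = 0
    rw [show n.n P = 0 from hP0, mul_zero]
  have hf12 : (Function.support fun P => E.w n P F + 2 * E.dT P).Finite := by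
    refine (hf1.union hf2).subset ?_
    intro P hP
    by_contra hc
    rw [Set.mem_union, not_or] at hc
    apply hP
    have h1 : E.w n P F = 0 := Function.notMem_support.mp hc.1
    have h2 : 2 * E.dT P = 0 := Function.notMem_support.mp hc.2
    change E.w n P F + 2 * E.dT P = 0
    rw [h1, h2, add_zero]
  refine ⟨?_, ?_⟩
  · refine (hf12.union hf3).subset ?_
    intro P hP
    by_contra hc
    rw [Set.mem_union, not_or] at hc
    apply hP
    have h1 : E.w n P F + 2 * E.dT P = 0 := Function.notMem_support.mp hc.1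
    have h2 : h * n.n P = 0 := Function.notMem_support.mp hc.2
    change E.w n P F + 2 * E.dT P + h * n.n P = 0
    rw [h1, h2, add_zero]
  · rw [finsum_add_distrib hf12 hf3, finsum_add_distrib hf1 hf2, ← mul_finsum, ExA_sum_dT E,
      ← mul_finsum, n.deg, mul_zero]
    unfold EField.b
    ring

/-- The class of a polynomial with known contents. -/
private theorem ExA_cls {F : K[X]} (a h : ℤ) (hw : ∀ P, E.w n P F = - a * E.dT P - h * n.n P) :
    E.cls n F = a • E.T + h • n.s := by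
  unfold EField.cls
  have h1 : ∀ P, E.w n P F • P = - (a • (E.dT P • P) + h • (n.n P • P)) := by
    intro P
    rw [hw, smul_smul, smul_smul, ← add_smul, ← neg_smul]
    congr 1
    ring
  rw [finsum_congr h1, finsum_neg_distrib, neg_neg]
  have hs2 : (Function.support fun P => E.dT P • P).Finite := by
    refine (ExA_dT_fin E).subset ?_
    intro P hP hP0
    apply hP
    change E.dT P • P = 0
    rw [show E.dT P = 0 from hP0, zero_smul]
  have hs2' : (Function.support fun P => a • (E.dT P • P)).Finite := by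
    refine hs2.subset ?_
    intro P hP hP0
    apply hP
    change a • (E.dT P • P) = 0
    rw [show E.dT P • P = 0 from hP0, smul_zero]
  have hs3 : (Function.support fun P => n.n P • P).Finite := by
    refine n.fin.subset ?_
    intro P hP hP0
    apply hP
    change n.n P • P = 0
    rw [show n.n P = 0 from hP0, zero_smul]
  have hs4 : (Function.support fun P => h • (n.n P • P)).Finite := by
    refine hs3.subset ?_
    intro P hP hP0
    apply hP
    change h • (n.n P • P) = 0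
    rw [show n.n P • P = 0 from hP0, smul_zero]
  rw [finsum_add_distrib hs2' hs4, ← smul_finsum' a hs2, ← smul_finsum' h hs3, ExA_sum_dT_smul E]
  rfl

/-- An irreducible factor through `p`. -/
private theorem ExA_factor (p : A) {F : K[X]} (hF : F ≠ 0) (ht : 1 ≤ E.tau n p F) :
    ∃ G H : K[X], Irreducible G ∧ H ≠ 0 ∧ F = G * H ∧ 1 ≤ E.tau n p G := by
  revert ht hF
  refine WfDvdMonoid.induction_on_irreducible (motive := fun F : K[X] => F ≠ 0 →
    1 ≤ E.tau n p F →
    ∃ G H : K[X], Irreducible G ∧ H ≠ 0 ∧ F = G * H ∧ 1 ≤ E.tau n p G) F ?_ ?_ ?_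
  · intro h
    exact absurd rfl h
  · intro u hu hu0 ht
    exfalso
    obtain ⟨h1, -⟩ := ExA_unit E n 0 hu
    have h2 : E.tau n p u ≤ ∑ᶠ P, E.tau n P u :=
      single_le_finsum p (E.tau_fin n hu0) (fun P => E.tau_nonneg n P hu0)
    rw [E.sum_tau n hu0, h1] at h2
    omega
  · intro a i ha hi ih _ ht
    rw [E.tau_mul n p hi.ne_zero ha] at ht
    have h1 := E.tau_nonneg n p hi.ne_zero
    have h2 := E.tau_nonneg n p ha
    by_cases h3 : 1 ≤ E.tau n p i
    · exact ⟨i, a, hi, ha, rfl, h3⟩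
    · obtain ⟨G, H, hG, hH, rfl, hbG⟩ := ih ha (by omega)
      exact ⟨G, i * H, hG, mul_ne_zero hi.ne_zero hH, by ring, hbG⟩

/-- Existence. Let `F` be as in `HasA` (the hypothesis follows from `hp` with `a = 1`, `b = -i`, `c = -1`).
Put `b = b(F)`, `m = m(F) = oo_T(F) - w_T(F)` (`n_T = 0`), `D = deg F`. The numbers
`w_P(F) + 2 dT P + 2 q² n_P` are `≥ 0` with sum `2 - b` (see the private lemma `Fm_bounds`), so `b ≤ 2`,
`w_T(F) ≤ - b`, and `m ≥ 4 q - 2 + b`. `main_even` (for `q`): `2 q m ≤ 2 q² b + D ≤ 2 q² b + 4 q²`.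

(1) `b = 2`. If `b = 0` then `F` is a monomial (`eq_monomial_of_b_eq_zero`) and `m = 0 < 4 q - 2`. Let
`b = 1`: `2 q (4 q - 1) ≤ 6 q²` gives `q = 1`. Then `m ≥ 3` and `2 m ≤ 2 + D ≤ 6`, so `m = 3`, `D = 4`,
`oo_T ≥ 2`, `w_T = oo_T - 3 ≥ -1`, so `w_T = -1`, the nonnegative number above is `1` at `T` and `0`
elsewhere: `w_P = - dT P - 2 n_P`, `cls F = T + 2 s`. `tau_p(F) = v_p(lc) - 4 n_p - w_p ≥ 1` (as `p ≠ T`),
`Σ tau = b = 1`, so `tau` is `1` at `p` only and `Σ tau_P P = p = cls F - 4 s = T - 2 s`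
(`sum_tau_smul`): contradiction to `hp` (`a = 1`, `b = 2`, `c = 1`).

(2) `b = 2`: then `m ≥ 4 q` and equality holds in `2 q m ≤ 4 q² + D ≤ 8 q²`, so `m = 4 q`, `D = 4 q²`, and
`w_P = - 2 dT P - 2 q² n_P` for all `P`. `tau_p(F) ≥ 2 q² n_p + 1 - 4 q² n_p + 2 q² n_p = 1`.

(3) Irreducibility. `tau` is additive and vanishes for units, so some irreducible factor `G`,
`F = G H`, has `tau_p(G) ≥ 1`; `b(G) ≥ tau_p(G) ≥ 1`. `main_even` for `G` and `H` with sum an equality: both are
equalities. If `b(G) = 2`, then `b(H) = 0`, `H` is a monomial, `m(H) = 0`, so `deg H = 0` by the equality,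
`H` is a unit and `F` is irreducible. If `b(G) = 1` then `tau(G)` is `1` at `p` and `0` elsewhere,
`p = cls G - deg G s`, and `main_even_eq` gives `c ∈ [1, 2q(q+1)]` with `2 c cls G = c deg G s`; so
`2 c p + c deg G s = 0` with `0 < 2 c ≤ 4 q (q+1)`, `0 ≤ c deg G ≤ 8 q³ (q+1)`: contradiction to `hp`.

(4) `Σ tau_P(F) = 2`, `Σ tau_P(F) P = cls F - 4 q² s = - 2 q² s`. If `tau_p ≥ 2` then `tau_p = 2`,
`2 p + 2 q² s = 0`, contradiction. So `tau_p = 1` and there is exactly one other place `p'` with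
`tau_p' = 1`, `p + p' = - 2 q² s`. -/
theorem exists_A {v0 : k} (h0 : v0 ≠ 0) (hsym : E.HasSym n v0) (hA : HasA E n v0) (B : ℕ)
    (hs : ∀ j : ℕ, 1 ≤ j → j ≤ B → j • n.s ≠ 0) (q : ℕ) (hq : 1 ≤ q) (hB : 2 * q * (q + 1) ≤ B)
    (hB' : 4 * q ^ 2 ≤ B) (p : A) (hpT : p ≠ E.T)
    (hp : ∀ a b c : ℤ, 0 < a → a ≤ 4 * q * (q + 1) → |b| ≤ 8 * q ^ 3 * (q + 1) →
      a • p + b • n.s ≠ c • E.T) :
    ∃ F : K[X], IsA E n v0 q p F := by
  have hqZ : (1 : ℤ) ≤ (q : ℤ) := by exact_mod_cast hq
  have hq2 : (q : ℤ) ≤ (q : ℤ) ^ 2 := by nlinarith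
  have hq4 : (q : ℤ) ^ 2 ≤ (q : ℤ) ^ 3 * (q + 1) := by
    have h1 : (0 : ℤ) ≤ (q : ℤ) ^ 2 := sq_nonneg _
    have h2 : (1 : ℤ) ≤ (q : ℤ) * (q + 1) := by nlinarith
    calc (q : ℤ) ^ 2 = (q : ℤ) ^ 2 * 1 := by ring
      _ ≤ (q : ℤ) ^ 2 * ((q : ℤ) * (q + 1)) := mul_le_mul_of_nonneg_left h2 h1
      _ = (q : ℤ) ^ 3 * (q + 1) := by ring
  have ha1 : (1 : ℤ) ≤ 4 * q * (q + 1) := by nlinarith
  have ha2 : (2 : ℤ) ≤ 4 * q * (q + 1) := by nlinarith
  have hT2 : E.T + E.T = 0 := E.T_two
  have hTneg : - E.T = E.T := by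
    rw [neg_eq_iff_add_eq_zero]
    exact hT2
  have hdTp : E.dT p = 0 := ExA_dT_ne E hpT
  obtain ⟨F, hF0, hFdeg, hFw, hFoo, hFlc⟩ := hA q p hq (by
    intro i hi heq
    have hiZ : (i : ℤ) ≤ 2 * (q : ℤ) ^ 2 := by exact_mod_cast hi
    refine hp 1 (-(i : ℤ)) (-1) one_pos ha1 ?_ ?_
    · rw [abs_neg, abs_of_nonneg (by positivity)]
      linarith
    · rw [one_smul, neg_smul, natCast_zsmul, heq, neg_smul, one_smul]
      abel)
  have hFdegZ : (F.natDegree : ℤ) ≤ 4 * (q : ℤ) ^ 2 := by exact_mod_cast hFdeg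
  have hb0 := E.b_nonneg n hF0
  obtain ⟨hgfin, hgsum⟩ := ExA_bounds E n hF0 (2 * (q : ℤ) ^ 2)
  have hg0 : ∀ P, 0 ≤ E.w n P F + 2 * E.dT P + 2 * (q : ℤ) ^ 2 * n.n P := fun P => by
    have := hFw P
    linarith
  have hgle : ∀ P, E.w n P F + 2 * E.dT P + 2 * (q : ℤ) ^ 2 * n.n P ≤ 2 - E.b n F := by
    intro P
    rw [← hgsum]
    exact single_le_finsum P hgfin hg0
  have hwT : E.w n E.T F ≤ - E.b n F := by
    have h1 := hgle E.T
    rw [ExA_dT_T E, n.nT] at h1
    linarith
  have hwT' : -2 ≤ E.w n E.T F := by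
    have h1 := hg0 E.T
    rw [ExA_dT_T E, n.nT] at h1
    linarith
  have hb2 : E.b n F ≤ 2 := by linarith
  have hoo := ExA_oo E n v0 F
  have hm : 4 * (q : ℤ) - 2 + E.b n F ≤ E.m v0 F := by linarith
  have hmain := E.main_even n h0 hsym B hs q hq hB hF0 (hFdeg.trans hB')
  -- the order of the leading coefficient
  have hlc : F.natDegree = 4 * q ^ 2 →
      2 * (q : ℤ) ^ 2 * n.n p + 1 ≤ E.v p F.leadingCoeff := by
    intro hd
    have h1 : F.coeff (4 * q ^ 2) ≠ 0 := by
      rw [← hd]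
      exact leadingCoeff_ne_zero.mpr hF0
    have h2 := hFlc h1
    rw [← hd] at h2
    exact h2
  have hbF : E.b n F = 2 := by
    by_contra hb
    have hb01 : E.b n F = 0 ∨ E.b n F = 1 := by omega
    rcases hb01 with hb | hb
    · obtain ⟨j, c, hjc⟩ := E.eq_monomial_of_b_eq_zero n hF0 hb
        (fun j h1 h2 => hs j h1 (h2.trans (hFdeg.trans hB')))
      have hc : c ≠ 0 := by
        rintro rfl
        rw [monomial_zero_right] at hjc
        exact hF0 hjc
      have hm0 : E.m v0 F = 0 := by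
        rw [hjc]
        exact ExA_m_monomial E h0 j hc
      rw [hm0, hb] at hm
      linarith
    · rw [hb] at hm hmain hwT
      have hq1 : (q : ℤ) = 1 := by nlinarith
      have hq1' : q = 1 := by exact_mod_cast hq1
      rw [hq1] at hm hmain hFdegZ hFoo
      have hm3 : E.m v0 F = 3 := by omega
      have hD4 : F.natDegree = 4 := by omega
      have hwT1 : E.w n E.T F = -1 := by omega
      have hgT : (fun P => E.w n P F + 2 * E.dT P + 2 * (q : ℤ) ^ 2 * n.n P) E.T = 1 := by
        change E.w n E.T F + 2 * E.dT E.T + 2 * (q : ℤ) ^ 2 * n.n E.T = 1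
        rw [ExA_dT_T E, n.nT, hwT1]
        ring
      have hgsum1 : ∑ᶠ P, (E.w n P F + 2 * E.dT P + 2 * (q : ℤ) ^ 2 * n.n P) = 1 := by
        rw [hgsum, hb]
        norm_num
      obtain ⟨-, hgz⟩ := ExA_one hgfin hg0 hgsum1 hgT.ge
      have hw1 : ∀ P, E.w n P F = - 1 * E.dT P - 2 * n.n P := by
        intro P
        by_cases hP : P = E.T
        · rw [hP, hwT1, ExA_dT_T E, n.nT]
          ring
        · have h1 := hgz P hP
          change E.w n P F + 2 * E.dT P + 2 * (q : ℤ) ^ 2 * n.n P = 0 at h1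
          rw [ExA_dT_ne E hP, hq1] at h1
          rw [ExA_dT_ne E hP]
          linarith
      have hcls := ExA_cls E n 1 2 hw1
      have htau : 1 ≤ E.tau n p F := by
        unfold EField.tau
        have h1 := hlc (by rw [hD4, hq1']; norm_num)
        rw [hD4, hw1 p, hdTp]
        rw [hq1] at h1
        push_cast
        linarith
      have hts := E.sum_tau n hF0
      rw [hb] at hts
      obtain ⟨ht1, ht2⟩ := ExA_one (E.tau_fin n hF0) (fun P => E.tau_nonneg n P hF0) hts htau
      have hk := E.sum_tau_smul n hF0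
      rw [ExA_smul (f := fun P => E.tau n P F) ht2, hcls, hD4] at hk
      simp only [ht1, one_smul] at hk
      refine hp 1 2 1 one_pos ha1 ?_ ?_
      · rw [abs_of_nonneg (by norm_num)]
        nlinarith
      · rw [one_smul, one_smul, hk]
        have h4 : ((4 : ℕ) : ℤ) = 2 + 2 := by norm_num
        rw [h4, add_smul]
        abel
  rw [hbF] at hm hmain
  have hm4 : E.m v0 F = 4 * q := by
    refine le_antisymm ?_ (by linarith)
    by_contra hcon
    push Not at hcon
    nlinarith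
  have hD : F.natDegree = 4 * q ^ 2 := by
    refine le_antisymm hFdeg ?_
    have h1 : 4 * (q : ℤ) ^ 2 ≤ (F.natDegree : ℤ) := by
      rw [hm4] at hmain
      linarith
    exact_mod_cast h1
  have hw : ∀ P, E.w n P F = - 2 * E.dT P - 2 * (q : ℤ) ^ 2 * n.n P := by
    intro P
    have h1 := hg0 P
    have h2 := hgle P
    rw [hbF] at h2
    linarith
  have hcls : E.cls n F = (2 * (q : ℤ) ^ 2) • n.s := by
    rw [ExA_cls E n 2 (2 * (q : ℤ) ^ 2) hw, two_smul, hT2, zero_add]
  have htau1 : 1 ≤ E.tau n p F := by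
    unfold EField.tau
    have h1 := hlc hD
    rw [hD, hw p, hdTp]
    push_cast
    linarith
  have hirr : Irreducible F := by
    obtain ⟨G, H, hG, hH0, hGH, htG⟩ := ExA_factor E n p hF0 htau1
    have hG0 := hG.ne_zero
    have hdeg : F.natDegree = G.natDegree + H.natDegree := by rw [hGH, natDegree_mul hG0 hH0]
    have hbb : E.b n F = E.b n G + E.b n H := by rw [hGH, E.b_mul n hG0 hH0]
    have hmm : E.m v0 F = E.m v0 G + E.m v0 H := by rw [hGH, E.m_mul v0 hG0 hH0]
    have hbG : 1 ≤ E.b n G := by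
      have h2 : E.tau n p G ≤ ∑ᶠ P, E.tau n P G :=
        single_le_finsum p (E.tau_fin n hG0) (fun P => E.tau_nonneg n P hG0)
      rw [E.sum_tau n hG0] at h2
      linarith
    have hbH := E.b_nonneg n hH0
    have hGd : G.natDegree ≤ 4 * q ^ 2 := by omega
    have hHd : H.natDegree ≤ 4 * q ^ 2 := by omega
    have mG := E.main_even n h0 hsym B hs q hq hB hG0 (hGd.trans hB')
    have mH := E.main_even n h0 hsym B hs q hq hB hH0 (hHd.trans hB')
    have hdegZ : (G.natDegree : ℤ) + H.natDegree = 4 * (q : ℤ) ^ 2 := by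
      have h1 : G.natDegree + H.natDegree = 4 * q ^ 2 := by rw [← hdeg, hD]
      exact_mod_cast h1
    have hsumeq : 2 * (q : ℤ) * E.m v0 G + 2 * (q : ℤ) * E.m v0 H =
        (2 * (q : ℤ) ^ 2 * E.b n G + G.natDegree) +
          (2 * (q : ℤ) ^ 2 * E.b n H + H.natDegree) := by
      have e1 : 2 * (q : ℤ) * E.m v0 G + 2 * (q : ℤ) * E.m v0 H = 2 * q * E.m v0 F := by
        rw [hmm]
        ring
      have e2 : (2 * (q : ℤ) ^ 2 * E.b n G + G.natDegree) +
          (2 * (q : ℤ) ^ 2 * E.b n H + H.natDegree) =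
          2 * (q : ℤ) ^ 2 * E.b n F + (G.natDegree + H.natDegree) := by
        rw [hbb]
        ring
      rw [e1, e2, hdegZ, hm4, hbF]
      ring
    have eG : 2 * (q : ℤ) * E.m v0 G = 2 * (q : ℤ) ^ 2 * E.b n G + G.natDegree := by linarith
    have eH : 2 * (q : ℤ) * E.m v0 H = 2 * (q : ℤ) ^ 2 * E.b n H + H.natDegree := by linarith
    rw [hbF] at hbb
    have hcase : E.b n G = 2 ∨ E.b n G = 1 := by omega
    rcases hcase with hbG2 | hbG1
    · have hbH0 : E.b n H = 0 := by omega
      obtain ⟨l, c, hlc'⟩ := E.eq_monomial_of_b_eq_zero n hH0 hbH0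
        (fun j h1 h2 => hs j h1 (h2.trans (hHd.trans hB')))
      have hc : c ≠ 0 := by
        rintro rfl
        rw [monomial_zero_right] at hlc'
        exact hH0 hlc'
      have hHm : E.m v0 H = 0 := by
        rw [hlc']
        exact ExA_m_monomial E h0 l hc
      rw [hHm, hbH0, mul_zero, mul_zero, zero_add] at eH
      have hHdeg : H.natDegree = 0 := by exact_mod_cast eH.symm
      have hHu : IsUnit H := by
        rw [Polynomial.isUnit_iff_degree_eq_zero, degree_eq_natDegree hH0, hHdeg]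
        rfl
      rw [hGH]
      exact (irreducible_mul_isUnit hHu).mpr hG
    · exfalso
      have hts := E.sum_tau n hG0
      rw [hbG1] at hts
      obtain ⟨ht1, ht2⟩ := ExA_one (E.tau_fin n hG0) (fun P => E.tau_nonneg n P hG0) hts htG
      have hk := E.sum_tau_smul n hG0
      rw [ExA_smul (f := fun P => E.tau n P G) ht2] at hk
      simp only [ht1, one_smul] at hk
      obtain ⟨c, hc1, hc2, hc3⟩ := E.main_even_eq n h0 hsym B hs q hq hB hG0 (hGd.trans hB') eG
      have hc1Z : (1 : ℤ) ≤ (c : ℤ) := by exact_mod_cast hc1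
      have hc2Z : (c : ℤ) ≤ 2 * q * (q + 1) := by exact_mod_cast hc2
      have hGdZ : (G.natDegree : ℤ) ≤ 4 * (q : ℤ) ^ 2 := by exact_mod_cast hGd
      refine hp (2 * (c : ℤ)) ((c : ℤ) * G.natDegree) 0 (by linarith) (by linarith) ?_ ?_
      · rw [abs_of_nonneg (by positivity)]
        calc (c : ℤ) * G.natDegree ≤ (2 * q * (q + 1)) * (4 * (q : ℤ) ^ 2) :=
              mul_le_mul hc2Z hGdZ (by positivity) (by positivity)
          _ = 8 * (q : ℤ) ^ 3 * (q + 1) := by ring
      · rw [hk, smul_sub, hc3, zero_smul, smul_smul, sub_add_eq_add_sub, ← add_smul, ← sub_smul]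
        have h1 : (c : ℤ) * G.natDegree + (c : ℤ) * G.natDegree -
            2 * (c : ℤ) * G.natDegree = 0 := by ring
        rw [h1, zero_smul]
  have hts := E.sum_tau n hF0
  rw [hbF] at hts
  obtain ⟨z, hz1, hz2⟩ := ExA_two (E.tau_fin n hF0) (fun P => E.tau_nonneg n P hF0) hts htau1
  rw [E.sum_tau_smul n hF0, hcls, hD] at hz1
  have hzeq : z = -((2 * q ^ 2 : ℕ) : ℤ) • n.s - p := by
    have h1 : ((4 * q ^ 2 : ℕ) : ℤ) = 2 * (q : ℤ) ^ 2 + 2 * (q : ℤ) ^ 2 := by
      push_cast
      ring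
    rw [h1, add_smul, sub_add_cancel_left] at hz1
    have h2 : ((2 * q ^ 2 : ℕ) : ℤ) = 2 * (q : ℤ) ^ 2 := by
      push_cast
      ring
    rw [h2, neg_smul, hz1]
    abel
  have hzp : z ≠ p := by
    intro h
    have h2 : ((2 * q ^ 2 : ℕ) : ℤ) = 2 * (q : ℤ) ^ 2 := by
      push_cast
      ring
    refine hp 2 (2 * (q : ℤ) ^ 2) 0 (by norm_num) ha2 ?_ ?_
    · rw [abs_of_nonneg (by positivity)]
      linarith
    · rw [zero_smul, two_smul]
      rw [hzeq, h2, neg_smul] at h
      nth_rw 1 [← h]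
      abel
  obtain ⟨t1, t2⟩ := hz2 hzp
  rw [hzeq] at t2
  exact ⟨F, hirr, hD, hw, hm4, t1, t2⟩

end ShghM
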