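import Pool.Agent.ShghE.SymB

/-!
# Functions with a double pole at `T`

Model: `EField.exists_e` in `ShghE/SymA.lean`.
-/

set_option linter.unusedSectionVars false

namespace ShghM

open Polynomial ShghE

variable {k K A : Type*} [Field k] [Field K] [Algebra k K] [AddCommGroup A]
variable (E : EField k K A) (n : E.Twist)

/-- the function with divisor `-2 [T] - i n + [a] + [b]` -/
private theorem FunM_key (a b : A) (i : ℤ) (hab : a + b = i • n.s) :
    ∃ (x : K) (da db : A → ℤ), x ≠ 0 ∧ (∀ P, 0 ≤ da P) ∧ (∀ P, 0 ≤ db P) ∧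
      (∀ P, P ≠ a → da P = 0) ∧ (∀ P, P ≠ b → db P = 0) ∧ da a = 1 ∧ db b = 1 ∧
      ∀ P, E.v P x = - 2 * E.dT P - i * n.n P + da P + db P := by
  classical
  let δ : A → A → ℤ := fun Q P => if P = Q then 1 else 0
  have hδ0 : ∀ Q P, 0 ≤ δ Q P := by
    intro Q P
    change 0 ≤ (if P = Q then (1 : ℤ) else 0)
    split_ifs
    · exact zero_le_one
    · exact le_rfl
  have hδne : ∀ Q P, P ≠ Q → δ Q P = 0 := fun Q P h => if_neg h
  have hδeq : ∀ Q, δ Q Q = 1 := fun Q => if_pos rfl
  have hδfin : ∀ Q, (Function.support (δ Q)).Finite := by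
    intro Q
    refine (Set.finite_singleton Q).subset fun P hP => ?_
    by_contra hcon
    exact hP (if_neg hcon)
  have hδdeg : ∀ Q, ∑ᶠ P, δ Q P = 1 := by
    intro Q
    rw [finsum_eq_single _ Q fun P hP => if_neg hP]
    exact if_pos rfl
  have hδsum : ∀ Q, ∑ᶠ P, δ Q P • P = Q := by
    intro Q
    rw [finsum_eq_single _ Q fun P hP => by rw [show δ Q P = 0 from if_neg hP, zero_smul]]
    rw [show δ Q Q = 1 from if_pos rfl, one_smul]
  have hsmulfin : ∀ d : A → ℤ, (Function.support d).Finite →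
      (Function.support fun P => d P • P).Finite := by
    intro d hd
    refine hd.subset fun P hP => ?_
    intro h0
    exact hP (by simp only [h0, zero_smul])
  have hTfin : (Function.support fun P => - 2 * δ E.T P).Finite := by
    refine (hδfin E.T).subset fun P hP => ?_
    intro h0
    exact hP (by simp only [h0, mul_zero])
  have hnfin : (Function.support fun P => -(i * n.n P)).Finite := by
    refine n.fin.subset fun P hP => ?_
    intro h0
    exact hP (by simp only [h0, mul_zero, neg_zero])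
  have h12fin : (Function.support fun P => - 2 * δ E.T P + -(i * n.n P)).Finite :=
    (hTfin.union hnfin).subset (Function.support_add _ _)
  have habfin : (Function.support fun P => δ a P + δ b P).Finite :=
    ((hδfin a).union (hδfin b)).subset (Function.support_add _ _)
  have hfin : (Function.support fun P => (- 2 * δ E.T P + -(i * n.n P)) +
      (δ a P + δ b P)).Finite :=
    (h12fin.union habfin).subset (Function.support_add _ _)
  have hdeg : ∑ᶠ P, ((- 2 * δ E.T P + -(i * n.n P)) + (δ a P + δ b P)) = 0 := by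
    rw [finsum_add_distrib h12fin habfin, finsum_add_distrib hTfin hnfin,
      finsum_add_distrib (hδfin a) (hδfin b), finsum_neg_distrib, hδdeg, hδdeg]
    have e1 : ∑ᶠ P, i * n.n P = 0 := by
      rw [← mul_finsum n.n i, n.deg, mul_zero]
    have e2 : ∑ᶠ P, - 2 * δ E.T P = -2 := by
      rw [← mul_finsum, hδdeg, mul_one]
    rw [e1, e2]
    norm_num
  have hsum : ∑ᶠ P, ((- 2 * δ E.T P + -(i * n.n P)) + (δ a P + δ b P)) • P = 0 := by
    have e1 : (fun P => ((- 2 * δ E.T P + -(i * n.n P)) + (δ a P + δ b P)) • P)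
        = fun P => ((- 2 * δ E.T P) • P + (-(i * n.n P)) • P) + (δ a P • P + δ b P • P) := by
      funext P
      rw [add_smul, add_smul, add_smul]
    have e2 : ∑ᶠ P, (- 2 * δ E.T P) • P = - (2 : ℤ) • E.T := by
      have : (fun P => (- 2 * δ E.T P) • P) = fun P => (-2 : ℤ) • (δ E.T P • P) := by
        funext P
        rw [mul_smul]
      rw [this]
      have h3 := ((smulAddHom ℤ A (-2 : ℤ)).map_finsum (hsmulfin _ (hδfin E.T))).symm
      rw [hδsum] at h3
      exact h3
    have e3 : ∑ᶠ P, (-(i * n.n P)) • P = - (i • n.s) := by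
      have : (fun P => (-(i * n.n P)) • P) = fun P => -(i • (n.n P • P)) := by
        funext P
        rw [neg_smul, mul_smul]
      rw [this, finsum_neg_distrib]
      congr 1
      unfold EField.Twist.s
      exact ((smulAddHom ℤ A i).map_finsum (hsmulfin _ n.fin)).symm
    rw [e1, finsum_add_distrib ((hsmulfin _ hTfin).union (hsmulfin _ hnfin) |>.subset
        (Function.support_add _ _)) ((hsmulfin _ (hδfin a)).union (hsmulfin _ (hδfin b)) |>.subset
        (Function.support_add _ _)),
      finsum_add_distrib (hsmulfin _ hTfin) (hsmulfin _ hnfin),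
      finsum_add_distrib (hsmulfin _ (hδfin a)) (hsmulfin _ (hδfin b)), e2, e3, hδsum, hδsum, hab,
      neg_smul, two_smul, E.T_two, neg_zero, zero_add, neg_add_cancel]
  obtain ⟨x, hx, hvx⟩ := E.ex _ hfin hdeg hsum
  refine ⟨x, δ a, δ b, hx, hδ0 a, hδ0 b, hδne a, hδne b, hδeq a, hδeq b, fun P => ?_⟩
  rw [hvx P]
  have h2 : E.dT P = δ E.T P := by
    unfold EField.dT
    change (if P = E.T then (1 : ℤ) else 0) = (if P = E.T then (1 : ℤ) else 0)
    by_cases h : P = E.T
    · simp only [h, if_true]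
    · simp only [h, if_false]
  rw [h2]
  ring

/-- `e i` has the divisor `-2 [T] - i n + [p] + [i s - p]` (degree zero; the sum is
`-2 T - i s + p + (i s - p) = 0`); `p ≠ T` (the case `i = 0` of the hypothesis, as `-T = T`) and
`i s - p ≠ T`, so the order at `T` is exactly `-2` (`n_T = 0`). -/
theorem exists_two (p : A) (h : ℕ) (hp : ∀ i ≤ h, i • n.s ≠ p + E.T) :
    ∃ e : ℕ → K, ∀ i ≤ h, e i ≠ 0 ∧ E.v E.T (e i) = -2 ∧
      ∀ P, - 2 * E.dT P - (i : ℤ) * n.n P ≤ E.v P (e i) := by
  have key : ∀ i : ℕ, ∃ x : K, i ≤ h → x ≠ 0 ∧ E.v E.T x = -2 ∧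
      ∀ P, - 2 * E.dT P - (i : ℤ) * n.n P ≤ E.v P x := by
    intro i
    obtain ⟨x, da, db, hx, ha0, hb0, ha, hb, -, -, hv⟩ :=
      FunM_key E n p (i • n.s - p) (i : ℤ) (by rw [natCast_zsmul]; abel)
    refine ⟨x, fun hi => ⟨hx, ?_, fun P => ?_⟩⟩
    · have h1 : E.T ≠ p := by
        intro h0
        apply hp 0 (Nat.zero_le _)
        rw [zero_smul, ← h0, E.T_two]
      have h2 : E.T ≠ i • n.s - p := by
        intro h0
        apply hp i hi
        rw [h0]
        abel
      rw [hv, ha _ h1, hb _ h2, n.nT]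
      unfold EField.dT
      rw [if_pos rfl]
      ring
    · rw [hv]
      have h1 := ha0 P
      have h2 := hb0 P
      linarith
  choose x hx using key
  exact ⟨x, fun i hi => hx i hi⟩

/-- `x` has the divisor `-2 [T] - h n + [-p] + [h s + p]` (the sum is `-2 T - h s - p + (h s + p) = 0`).
At `-p` (`≠ T`) the order is `≥ 1 - h n_(-p)`. -/
theorem exists_top (p : A) (hpT : p ≠ E.T) (h : ℕ) :
    ∃ x : K, x ≠ 0 ∧ (∀ P, - 2 * E.dT P - (h : ℤ) * n.n P ≤ E.v P x) ∧
      1 - (h : ℤ) * n.n (-p) ≤ E.v (-p) x := by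
  obtain ⟨x, da, db, hx, ha0, hb0, -, -, ha1, -, hv⟩ :=
    FunM_key E n (-p) (h • n.s + p) (h : ℤ) (by rw [natCast_zsmul]; abel)
  refine ⟨x, hx, fun P => ?_, ?_⟩
  · rw [hv]
    have h1 := ha0 P
    have h2 := hb0 P
    linarith
  · have h1 : -p ≠ E.T := by
      intro h0
      apply hpT
      rw [← neg_neg p, h0, neg_eq_iff_add_eq_zero]
      exact E.T_two
    have h2 : E.dT (-p) = 0 := by
      unfold EField.dT
      rw [if_neg h1]
    rw [hv, ha1, h2]
    have h3 := hb0 (-p)
    linarith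

end ShghM
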