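import Pool.Agent.ShghM.SymM
import Pool.Agent.ShghE.Fm

/-!
# The curves `A^(q)_p`

`F` irreducible of degree `4 q²`, content of degree two, with a point of multiplicity `4 q` at `(T, v0)`,
passing through the point at infinity over the place `p` and over `z = - 2 q² s - p`.
-/

set_option linter.unusedSectionVars false

namespace ShghM

open Polynomial ShghE

variable {k K A : Type*} [Field k] [Field K] [Algebra k K] [AddCommGroup A]
variable (E : EField k K A) (n : E.Twist)

structure IsA (v0 : k) (q : ℕ) (p : A) (F : K[X]) : Prop where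
  irr : Irreducible F
  deg : F.natDegree = 4 * q ^ 2
  w : ∀ P, E.w n P F = - 2 * E.dT P - 2 * (q : ℤ) ^ 2 * n.n P
  m : E.m v0 F = 4 * q
  tau : E.tau n p F = 1
  tau_end : E.tau n (-((2 * q ^ 2 : ℕ) : ℤ) • n.s - p) F = 1

private theorem IsA_dT_fin : (Function.support fun P => E.dT P).Finite := by
  refine (Set.finite_singleton E.T).subset ?_
  intro P hP
  by_contra h
  apply hP
  change E.dT P = 0
  unfold EField.dT
  rw [if_neg (fun hPT => h (Set.mem_singleton_iff.mpr hPT))]

private theorem IsA_sum_dT : ∑ᶠ P, E.dT P = 1 := by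
  rw [finsum_eq_single _ E.T]
  · unfold EField.dT
    rw [if_pos rfl]
  · intro P hP
    unfold EField.dT
    rw [if_neg hP]

private theorem IsA_sum_dT_smul : ∑ᶠ P, E.dT P • P = E.T := by
  rw [finsum_eq_single _ E.T]
  · unfold EField.dT
    rw [if_pos rfl, one_smul]
  · intro P hP
    unfold EField.dT
    rw [if_neg hP, zero_smul]

/-- `Σ_P w_P(F) = -2`. -/
theorem IsA.sum_w {v0 : k} {q : ℕ} {p : A} {F : K[X]} (h : IsA E n v0 q p F) :
    ∑ᶠ P, E.w n P F = -2 := by
  have hf2 : (Function.support fun P => - 2 * E.dT P).Finite := by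
    refine (IsA_dT_fin E).subset ?_
    intro P hP hP0
    apply hP
    change - 2 * E.dT P = 0
    rw [show E.dT P = 0 from hP0, mul_zero]
  have hf3 : (Function.support fun P => 2 * (q : ℤ) ^ 2 * n.n P).Finite := by
    refine n.fin.subset ?_
    intro P hP hP0
    apply hP
    change 2 * (q : ℤ) ^ 2 * n.n P = 0
    rw [show n.n P = 0 from hP0, mul_zero]
  rw [finsum_congr h.w, finsum_sub_distrib hf2 hf3, ← mul_finsum, IsA_sum_dT E, ← mul_finsum,
    n.deg]
  ring

/-- `cls F = 2 T + 2 q² s = 2 q² s`. -/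
theorem IsA.cls_eq {v0 : k} {q : ℕ} {p : A} {F : K[X]} (h : IsA E n v0 q p F) :
    E.cls n F = ((2 * q ^ 2 : ℕ) : ℤ) • n.s := by
  have hq : ((2 * q ^ 2 : ℕ) : ℤ) = 2 * (q : ℤ) ^ 2 := by
    push_cast
    ring
  rw [hq]
  unfold EField.cls
  have h1 : ∀ P, E.w n P F • P =
      - ((2 : ℤ) • (E.dT P • P) + (2 * (q : ℤ) ^ 2) • (n.n P • P)) := by
    intro P
    rw [h.w, smul_smul, smul_smul, ← add_smul, ← neg_smul]
    congr 1
    ring
  rw [finsum_congr h1, finsum_neg_distrib, neg_neg]
  have hs2 : (Function.support fun P => E.dT P • P).Finite := by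
    refine (IsA_dT_fin E).subset ?_
    intro P hP hP0
    apply hP
    change E.dT P • P = 0
    rw [show E.dT P = 0 from hP0, zero_smul]
  have hs2' : (Function.support fun P => (2 : ℤ) • (E.dT P • P)).Finite := by
    refine hs2.subset ?_
    intro P hP hP0
    apply hP
    change (2 : ℤ) • (E.dT P • P) = 0
    rw [show E.dT P • P = 0 from hP0, smul_zero]
  have hs3 : (Function.support fun P => n.n P • P).Finite := by
    refine n.fin.subset ?_
    intro P hP hP0
    apply hP
    change n.n P • P = 0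
    rw [show n.n P = 0 from hP0, zero_smul]
  have hs4 : (Function.support fun P => (2 * (q : ℤ) ^ 2) • (n.n P • P)).Finite := by
    refine hs3.subset ?_
    intro P hP hP0
    apply hP
    change (2 * (q : ℤ) ^ 2) • (n.n P • P) = 0
    rw [show n.n P • P = 0 from hP0, smul_zero]
  rw [finsum_add_distrib hs2' hs4, ← smul_finsum' (2 : ℤ) hs2, ← smul_finsum' (2 * (q : ℤ) ^ 2) hs3,
    IsA_sum_dT_smul E, two_smul, E.T_two, zero_add]
  rfl

/-- The Gauss order (without twist) at `p`, if `n_p = -1`: the leading coefficient has order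
`w_p + 4 q² n_p + tau_p = 2 q² - 4 q² + 1 = 1 - 2 q²`; the others have order
`≥ w_p + j n_p = 2 q² - j ≥ 1 - 2 q²` (`j ≤ 4 q² - 1`). -/
theorem IsA.gv0 {v0 : k} {q : ℕ} {p : A} {F : K[X]} (h : IsA E n v0 q p F) (hn : n.n p = -1) :
    gv (E.v p) 0 F = 1 - 2 * (q : ℤ) ^ 2 := by
  have hF0 : F ≠ 0 := h.irr.ne_zero
  have hpT : p ≠ E.T := by
    rintro rfl
    rw [n.nT] at hn
    norm_num at hn
  have hdT : E.dT p = 0 := by
    unfold EField.dT
    rw [if_neg hpT]
  have hwp : E.w n p F = 2 * (q : ℤ) ^ 2 := by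
    rw [h.w, hdT, hn]
    ring
  have hlc : E.v p (F.coeff F.natDegree) = 1 - 2 * (q : ℤ) ^ 2 := by
    have h1 := h.tau
    unfold EField.tau at h1
    rw [hwp, hn, h.deg] at h1
    rw [coeff_natDegree]
    push_cast at h1
    linarith
  refine le_antisymm ?_ ?_
  · have h1 := gv_le (v := E.v p) (n := 0) (F := F) (j := F.natDegree)
      (leadingCoeff_ne_zero.mpr hF0)
    rw [hlc, mul_zero, add_zero] at h1
    exact h1
  · rw [le_gv_iff hF0]
    intro j hj
    rw [mul_zero, add_zero]
    rcases eq_or_ne j F.natDegree with hjd | hjd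
    · rw [hjd, hlc]
    · have h1 : j < 4 * q ^ 2 := by
        have h2 := le_natDegree_of_ne_zero hj
        rw [h.deg] at h2 hjd
        omega
      have h2 : E.w n p F + (j : ℤ) * n.n p ≤ E.v p (F.coeff j) := gv_le hj
      rw [hwp, hn] at h2
      have h3 : (j : ℤ) + 1 ≤ 4 * (q : ℤ) ^ 2 := by exact_mod_cast h1
      linarith

end ShghM
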