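import Pool.Agent.ShghM.StrictM
import Pool.Agent.ShghM.MainM
import Pool.Agent.ShghR.UnfoldS

/-!
# The multi-cusp unfolding theorem: strictness
-/

namespace ShghM

open MvPolynomial ShghE ShghR

variable {k : Type*} [Field k]

/-- Strictness. `K·D > 0` means `e < |m_9 + 2 j e|`; `j = 0` is impossible. If `m_i = 0` for all `i ∈ J`, then
`sgnm J m i = m i.castSucc` and `ShghR.unfolding_strict` applies. Otherwise `unfoldM_strict`, and
`λ ≥ 4 S > 0`, `λ - m_i ≥ 3 S > 0`. -/
theorem unfoldingM_strict [IsAlgClosed k] (h2 : (2 : k) ≠ 0) (P : Fin 10 → Fin 2 → k)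
    (hP : AlgebraicIndependent (⊥ : Subfield k) (fun ij : Fin 10 × Fin 2 => P ij.1 ij.2))
    (d : ℝ) (m : Fin 10 → ℝ) (hm : ∀ i, 0 ≤ m i) (hK : ∑ i, m i ≤ 3 * d) (hN : NumNef d m)
    (J : Finset (Fin 9)) (j : ℤ) (hJ : J = ∅ ∨ j ≠ 0) (e lam : ℝ)
    (he : e = 3 * d - ∑ i : Fin 9, sgnm J m i)
    (hlam : lam = 2 * j * (j * e + m (Fin.last 9)))
    (hpos : e < |m (Fin.last 9) + 2 * j * e|)
    (M : Fin 10 → ℝ) (hM : ∀ i : Fin 9, M i.castSucc = lam + sgnm J m i)
    (hM9 : M (Fin.last 9) = |m (Fin.last 9) + 2 * j * e|) :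
    (∀ i, 0 < M i) ∧
    ∀ (f : MvPolynomial (Fin 2) k) (δ : ℕ) (μ : Fin 10 → ℕ), f ≠ 0 → 1 ≤ δ →
      f.totalDegree ≤ δ → (∀ i, f ∈ ptIdeal (P i 0) (P i 1) ^ μ i) →
      ∑ i, M i * μ i < (d + 3 * lam) * δ := by
  have hK' : ∑ i : Fin 9, m i.castSucc + m (Fin.last 9) ≤ 3 * d := by
    rwa [Fin.sum_univ_castSucc] at hK
  have hn0 := hm (Fin.last 9)
  obtain ⟨S, hS⟩ : ∃ S, S = ∑ i ∈ J, m i.castSucc := ⟨_, rfl⟩
  have hS0 : 0 ≤ S := by
    rw [hS]
    exact Finset.sum_nonneg fun i _ => hm _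
  have hle : ∀ i ∈ J, m i.castSucc ≤ S := by
    intro i hi
    rw [hS]
    exact Finset.single_le_sum (f := fun i : Fin 9 => m i.castSucc) (fun i _ => hm _) hi
  have hsg : ∑ i : Fin 9, sgnm J m i = ∑ i : Fin 9, m i.castSucc - 2 * S := MainM_sum J m S hS
  have heS : e = 3 * d - ∑ i : Fin 9, m i.castSucc + 2 * S := by
    rw [he, hsg]
    ring
  have hne : m (Fin.last 9) + 2 * S ≤ e := by linarith
  have he0 : 0 ≤ e := by linarith
  rcases hS0.eq_or_lt with hSz | hSpos
  · -- all `m_i` with `i ∈ J` vanish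
    have hz : ∀ i ∈ J, m i.castSucc = 0 := fun i hi =>
      le_antisymm ((hle i hi).trans_eq hSz.symm) (hm _)
    have hsgn : ∀ i, sgnm J m i = m i.castSucc := by
      intro i
      unfold sgnm
      split_ifs with hi
      · rw [hz i hi, neg_zero]
      · rfl
    obtain ⟨h1, h3⟩ := unfolding_strict h2 P hP d m hm hK hN j e lam (by
      rw [heS, ← hSz]
      ring) hlam hpos
    have e1 : ∀ i, (if i = Fin.last 9 then |m (Fin.last 9) + 2 * (j : ℝ) * e|
        else m i + lam) = M i := by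
      intro i
      refine Fin.lastCases ?_ (fun i => ?_) i
      · rw [if_pos rfl, hM9]
      · rw [if_neg (Fin.castSucc_lt_last i).ne, hM, hsgn, add_comm]
    refine ⟨fun i => ?_, fun f δ μ hf hδ1 hδ hμ => ?_⟩
    · rw [← e1 i]
      exact h1 i
    · have h4 := h3 f δ μ hf hδ1 hδ hμ
      simp only [e1] at h4
      exact h4
  · have hcase : ∃ (j' : ℕ) (σ : ℝ), 1 ≤ j' ∧ (σ = 1 ∨ σ = -1) ∧ (j : ℝ) = σ * j' := by
      have hj0 : j ≠ 0 := by
        rcases hJ with hJ | hJ
        · exfalso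
          rw [hJ, Finset.sum_empty] at hS
          linarith
        · exact hJ
      obtain ⟨j', hj'⟩ := j.eq_nat_or_neg
      have h0 : 1 ≤ j' := by
        rcases Nat.eq_zero_or_pos j' with h0 | h0
        · exfalso
          subst h0
          simp at hj'
          exact hj0 hj'
        · exact h0
      rcases hj' with h | h
      · refine ⟨j', 1, h0, Or.inl rfl, ?_⟩
        rw [h]
        push_cast
        ring
      · refine ⟨j', -1, h0, Or.inr rfl, ?_⟩
        rw [h]
        push_cast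
        ring
    obtain ⟨j', σ, hj', hσ, hjσ⟩ := hcase
    have hσ2 : σ * σ = 1 := by
      rcases hσ with h | h <;> rw [h] <;> norm_num
    have hj1 : (1 : ℝ) ≤ j' := by exact_mod_cast hj'
    have hlam' : lam = 2 * j' * (j' * (3 * d - ∑ i : Fin 9, sgnm J m i) +
        σ * m (Fin.last 9)) := by
      rw [hlam, hjσ, ← he]
      linear_combination (2 * (j' : ℝ) ^ 2 * e) * hσ2
    have hσn : -m (Fin.last 9) ≤ σ * m (Fin.last 9) := by
      rcases hσ with h | h <;> rw [h] <;> linarith
    have hje : e ≤ j' * e := le_mul_of_one_le_left he0 hj1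
    have hlam0 : 4 * S ≤ lam := by
      rw [hlam', ← he]
      have h1 : 2 * S ≤ j' * e + σ * m (Fin.last 9) := by linarith
      have h3 : 0 ≤ j' * e + σ * m (Fin.last 9) := by linarith
      have h4 : 2 * (j' * e + σ * m (Fin.last 9)) ≤ 2 * j' * (j' * e + σ * m (Fin.last 9)) :=
        mul_le_mul_of_nonneg_right (by linarith) h3
      linarith
    have hpos9 : 0 ≤ σ * m (Fin.last 9) + 2 * j' * e := by linarith
    have habs : |m (Fin.last 9) + 2 * (j : ℝ) * e| = σ * m (Fin.last 9) + 2 * j' * e := by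
      rw [← abs_of_nonneg hpos9]
      rw [hjσ]
      rcases hσ with h | h
      · rw [h]
        congr 1
        ring
      · rw [h, ← abs_neg]
        congr 1
        ring
    have hex : ∃ i : Fin 9, i ∈ J ∧ 0 < m i.castSucc := by
      by_contra hcon
      push Not at hcon
      have h1 : S ≤ 0 := by
        rw [hS]
        exact Finset.sum_nonpos fun i hi => hcon i hi
      linarith
    refine ⟨?_, ?_⟩
    · intro i
      refine Fin.lastCases ?_ (fun i => ?_) i
      · rw [hM9]
        linarith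
      · rw [hM, sgnm]
        split_ifs with hi
        · linarith [hle i hi]
        · linarith [hm i.castSucc]
    · intro f δ μ hf hδ1 hδ hμ
      have key := unfoldM_strict h2 P hP d m hm hK hN J j' hj' σ hσ (Or.inr hex) f hf δ hδ1 hδ μ hμ
        lam hlam'
      rw [← he] at key
      rw [Fin.sum_univ_castSucc, hM9, habs]
      simp only [hM]
      exact key

end ShghM
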