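import Pool.Agent.ShghM.ResA

/-!
# The multiplicity along `A^(q)_p`

Analogue of `ShghR/MultC.lean` and `ShghR/MultCEq.lean` (copy the proofs). New: the Gauss orders (without
twist) of the pieces at `p` are nonnegative (`hreg`). In the induction let `a = N - i0`,
`F i0 = C^a Q`, `D = w + i0 - 4 q² a`, `W P = - Mf P - a w_P(C)`, `M = μ - a oo_T(C) = μ - a (4 q - 2)`
(`oo_T(C) = m(C) + w_T(C) = 4 q - 2`), `W T = 2 a`, `γ = a (2 q² - 1)` (`gv0(C) = 1 - 2 q²`, additivity `gv_mul`),
`W p = - Mf p - 2 q² a` (`w_p(C) = 2 q²`), `Σ W_P = - Σ Mf P + 2 a`. `res_A` gives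
`4 q² (- Ξ + 2 a) + 4 q (μ - 4 q a) + a (4 q² - 1) + Mf p ≤ w + i0 - 4 q² a`, `Ξ = Σ Mf P`, that is
`4 q μ - 4 q² Ξ + Mf p - w ≤ i0 + a = N`. In the case of equality `res_A_eq` gives
`- 4 q² Σ Mf P P + 8 q⁴ a s + 2 q² D s + (D + γ - W p) p + t T = 0`, `D + γ - W p = w + i0 - a + Mf p`,
`8 q⁴ a + 2 q² D = 2 q² (w + i0)`.
-/

set_option linter.unusedSectionVars false

namespace ShghM

open Polynomial ShghE

variable {k K A : Type*} [Field k] [Field K] [Algebra k K] [AddCommGroup A]
variable (E : EField k K A) (n : E.Twist)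

theorem mult_A {v0 : k} (h0 : v0 ≠ 0) {q : ℕ} (hq : 1 ≤ q) {p : A} (hp1 : n.n p = -1)
    {C : K[X]} (hC : IsA E n v0 q p C)
    (O : A) (hO : O ≠ E.T) (hOp : O ≠ p) (F F' : ℕ → K[X]) (w : ℕ)
    (hdeg : ∀ i, (F i).natDegree ≤ w + i) (hdeg' : ∀ i, (F' i).natDegree ≤ w + i)
    (Mf : A → ℤ) (hMf : (Function.support Mf).Finite) (hMT : Mf E.T = 0)
    (hFP : ∀ i P, P ≠ O → F i ≠ 0 → - Mf P ≤ E.w n P (F i))
    (hFO : ∀ i, F' i ≠ 0 → - Mf O ≤ E.w n O (F' i))
    (hreg : ∀ i, F i ≠ 0 → 0 ≤ gv (E.v p) 0 (F i))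
    (μ : ℤ) (hμ : ∀ i, F i ≠ 0 → μ ≤ oo (E.v E.T) (algebraMap k K v0) (F i))
    (hlead : ∀ N i0 : ℕ, i0 ≤ N → (∀ i ≤ N, C ^ (N - i) ∣ F i) →
      (∀ i < i0, C ^ (N + 1 - i) ∣ F i) → C ^ (N - i0) ∣ F' i0 ∧ C ^ (N + 1 - i0) ∣ F i0 - F' i0)
    (N : ℕ) (hN : (N : ℤ) ≤ 4 * q * μ - 4 * (q : ℤ) ^ 2 * (∑ᶠ P, Mf P) + Mf p - w) :
    ∀ i < N, C ^ (N - i) ∣ F i := by
  have hC0 : C ≠ 0 := hC.irr.ne_zero
  have hwpow : ∀ (P : A) (a : ℕ), E.w n P (C ^ a) = a * E.w n P C := by
    intro P a
    induction a with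
    | zero =>
      have h1 := E.w_mul n P (F := (1 : K[X])) (G := 1) one_ne_zero one_ne_zero
      rw [mul_one] at h1
      rw [pow_zero]
      push_cast
      linarith
    | succ a ih =>
      rw [pow_succ, E.w_mul n P (pow_ne_zero a hC0) hC0, ih]
      push_cast
      ring
  have hopow : ∀ a : ℕ, oo (E.v E.T) (algebraMap k K v0) (C ^ a) =
      a * oo (E.v E.T) (algebraMap k K v0) C := by
    intro a
    induction a with
    | zero =>
      have h1 := oo_mul (E.ord E.T) (algebraMap k K v0) (F := (1 : K[X])) (G := 1)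
        one_ne_zero one_ne_zero
      rw [mul_one] at h1
      rw [pow_zero]
      push_cast
      linarith
    | succ a ih =>
      rw [pow_succ, oo_mul (E.ord E.T) _ (pow_ne_zero a hC0) hC0, ih]
      push_cast
      ring
  have hdT : E.dT E.T = 1 := by
    unfold EField.dT
    rw [if_pos rfl]
  have hwT : E.w n E.T C = -2 := by
    rw [hC.w, hdT, n.nT]
    ring
  have hpT : p ≠ E.T := by
    rintro rfl
    rw [n.nT] at hp1
    norm_num at hp1
  have hwp : E.w n p C = 2 * (q : ℤ) ^ 2 := by
    have hdp : E.dT p = 0 := by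
      unfold EField.dT
      rw [if_neg hpT]
    rw [hC.w, hdp, hp1]
    ring
  have hooC : oo (E.v E.T) (algebraMap k K v0) C = 4 * q - 2 := by
    have h1 := hC.m
    unfold EField.m mu at h1
    have h3 := hwT
    unfold EField.w at h3
    rw [n.nT] at h3
    linarith
  have hbC : ∑ᶠ P, E.w n P C = -2 := IsA.sum_w E n hC
  have hgC := IsA.gv0 E n hC hp1
  have hgpow : ∀ a : ℕ, gv (E.v p) 0 (C ^ a) = a * gv (E.v p) 0 C := by
    intro a
    induction a with
    | zero =>
      have h1 := gv_mul (E.ord p) 0 (F := (1 : K[X])) (G := 1) one_ne_zero one_ne_zero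
      rw [mul_one] at h1
      rw [pow_zero]
      push_cast
      linarith
    | succ a ih =>
      rw [pow_succ, gv_mul (E.ord p) 0 (pow_ne_zero a hC0) hC0, ih]
      push_cast
      ring
  induction N with
  | zero => exact fun i hi => absurd hi (Nat.not_lt_zero i)
  | succ N ih =>
    have ihN := ih (by push_cast at hN; linarith)
    have hall : ∀ i ≤ N, C ^ (N - i) ∣ F i := by
      intro i hi
      rcases Nat.lt_or_ge i N with h | h
      · exact ihN i h
      · rw [show N - i = 0 by omega, pow_zero]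
        exact one_dvd _
    intro i0
    induction i0 using Nat.strong_induction_on with
    | _ i0 ih0 =>
      intro hi0
      by_contra hcon
      have hi0N : i0 ≤ N := by omega
      have hprev : ∀ i < i0, C ^ (N + 1 - i) ∣ F i := fun i hi => ih0 i hi (by omega)
      obtain ⟨hd', hdd⟩ := hlead N i0 hi0N hall hprev
      obtain ⟨a, ha⟩ : ∃ a, a = N - i0 := ⟨_, rfl⟩
      have ha1 : N + 1 - i0 = a + 1 := by omega
      rw [← ha] at hd'
      rw [ha1] at hdd hcon
      obtain ⟨Q, hQ⟩ := hall i0 hi0N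
      rw [← ha] at hQ
      obtain ⟨Q', hQ'⟩ := hd'
      have hCa : C ^ a ≠ 0 := pow_ne_zero a hC0
      have hQQ : C ∣ Q - Q' := by
        rw [hQ, hQ', ← mul_sub, pow_succ] at hdd
        exact (mul_dvd_mul_iff_left hCa).1 hdd
      have hnQ : ¬ C ∣ Q := by
        intro h
        apply hcon
        rw [hQ, pow_succ]
        exact mul_dvd_mul_left _ h
      have hnQ' : ¬ C ∣ Q' := by
        intro h
        apply hnQ
        have h3 := dvd_add hQQ h
        rwa [sub_add_cancel] at h3
      have hQ0 : Q ≠ 0 := fun h => hnQ (h ▸ dvd_zero C)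
      have hQ0' : Q' ≠ 0 := fun h => hnQ' (h ▸ dvd_zero C)
      have hF0 : F i0 ≠ 0 := by rw [hQ]; exact mul_ne_zero hCa hQ0
      have hF0' : F' i0 ≠ 0 := by rw [hQ']; exact mul_ne_zero hCa hQ0'
      have hdQ : a * (4 * q ^ 2) + Q.natDegree ≤ w + i0 := by
        have h3 := hdeg i0
        rw [hQ, natDegree_mul hCa hQ0, natDegree_pow, hC.deg] at h3
        exact h3
      have hdQ' : a * (4 * q ^ 2) + Q'.natDegree ≤ w + i0 := by
        have h3 := hdeg' i0
        rw [hQ', natDegree_mul hCa hQ0', natDegree_pow, hC.deg] at h3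
        exact h3
      have hfin : (Function.support fun P => - Mf P - a * E.w n P C).Finite := by
        refine (hMf.union (E.w_fin n hC0)).subset ?_
        intro P hP
        rw [Function.mem_support] at hP
        by_contra hcon2
        rw [Set.mem_union, not_or, Function.mem_support, Function.mem_support, not_not,
          not_not] at hcon2
        apply hP
        rw [hcon2.1, hcon2.2]
        ring
      have hres := res_A E n h0 hq hp1 hC O hO hOp hnQ hQQ
        (D := w + i0 - a * (4 * q ^ 2)) (by omega) (by omega)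
        (fun P => - Mf P - a * E.w n P C) hfin
        (by
          intro P hP
          have h3 := hFP i0 P hP hF0
          rw [hQ, E.w_mul n P hCa hQ0, hwpow] at h3
          show - Mf P - a * E.w n P C ≤ _
          linarith)
        (by
          have h3 := hFO i0 hF0'
          rw [hQ', E.w_mul n O hCa hQ0', hwpow] at h3
          show - Mf O - a * E.w n O C ≤ _
          linarith)
        (μ - a * oo (E.v E.T) (algebraMap k K v0) C)
        (by
          have h3 := hμ i0 hF0
          rw [hQ, oo_mul (E.ord E.T) _ hCa hQ0, hopow] at h3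
          linarith)
        (- a * gv (E.v p) 0 C)
        (by
          have h3 := hreg i0 hF0
          rw [hQ, gv_mul (E.ord p) 0 hCa hQ0, hgpow] at h3
          linarith)
      have hsum : ∑ᶠ P, (- Mf P - a * E.w n P C) = - ∑ᶠ P, Mf P + 2 * a := by
        have h3 : ∀ P, - Mf P - a * E.w n P C = - Mf P + (-(a : ℤ)) * E.w n P C := fun P => by ring
        simp_rw [h3]
        rw [finsum_add_distrib, finsum_neg_distrib, ← mul_finsum, hbC]
        · ring
        · refine hMf.subset fun P hP => ?_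
          rw [Function.mem_support] at hP ⊢
          exact neg_ne_zero.1 hP
        · refine (E.w_fin n hC0).subset fun P hP => ?_
          rw [Function.mem_support] at hP ⊢
          exact right_ne_zero_of_mul hP
      rw [hsum, hooC, hMT, hwT, hwp, hgC] at hres
      have hD : ((w + i0 - a * (4 * q ^ 2) : ℕ) : ℤ) = w + i0 - a * (4 * (q : ℤ) ^ 2) := by
        rw [Nat.cast_sub (by omega)]
        push_cast
        ring
      rw [hD] at hres
      have haN : (a : ℤ) = N - i0 := by rw [ha, Nat.cast_sub hi0N]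
      push_cast at hN
      nlinarith [hres, hN, haN]

end ShghM
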