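import Pool.Agent.ShghM.PosM

/-!
# The multi-cusp unfolding theorem: nefness for `j ≥ 1`
-/

namespace ShghM

open MvPolynomial ShghE ShghR

variable {k : Type*} [Field k]

/-- All the excess terms are nonnegative. -/
theorem unfoldM_nat [IsAlgClosed k] (h2 : (2 : k) ≠ 0) (P : Fin 10 → Fin 2 → k)
    (hP : AlgebraicIndependent (⊥ : Subfield k) (fun ij : Fin 10 × Fin 2 => P ij.1 ij.2))
    (d : ℝ) (m : Fin 10 → ℝ) (hm : ∀ i, 0 ≤ m i) (hK : ∑ i, m i ≤ 3 * d) (hN : NumNef d m)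
    (J : Finset (Fin 9)) (j : ℕ) (hj : 1 ≤ j) (σ : ℝ) (hσ : σ = 1 ∨ σ = -1)
    (f : MvPolynomial (Fin 2) k) (hf : f ≠ 0) (δ : ℕ) (hδ : f.totalDegree ≤ δ)
    (μ : Fin 10 → ℕ) (hμ : ∀ i, f ∈ ptIdeal (P i 0) (P i 1) ^ μ i)
    (lam : ℝ)
    (hlam : lam = 2 * j * (j * (3 * d - ∑ i : Fin 9, sgnm J m i) + σ * m (Fin.last 9))) :
    ∑ i : Fin 9, (lam + sgnm J m i) * μ i.castSucc +
        (σ * m (Fin.last 9) + 2 * j * (3 * d - ∑ i : Fin 9, sgnm J m i)) * μ (Fin.last 9) ≤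
      (d + 3 * lam) * δ := by
  rcases Nat.eq_zero_or_pos δ with hδ0 | hδ1
  · have h1 : ∀ i, μ i = 0 := by
      intro i
      have h3 := ShghE.le_totalDegree hf (hμ i)
      omega
    simp only [h1, hδ0, Nat.cast_zero, mul_zero, Finset.sum_const_zero, add_zero, le_refl]
  · obtain ⟨w, c, hw, hc1, hc2, -, hE⟩ := unfoldM_pos h2 P hP d m hm hK hN J j hj σ hσ f hf δ hδ1 hδ
      μ hμ _ lam rfl hlam
    have h1 : 0 ≤ ∑ i : Fin 9, (if i ∈ J then m i.castSucc * ((c i.castSucc : ℝ) -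
        (2 * (2 * j * (μ (Fin.last 9) - j * (3 * (δ : ℝ) - ∑ i : Fin 9, (μ i.castSucc : ℝ)))) -
          μ i.castSucc - w))
          else m i.castSucc * ((c i.castSucc : ℝ) - ((μ i.castSucc : ℝ) - w))) := by
      refine Finset.sum_nonneg fun i _ => ?_
      split_ifs with hi
      · exact mul_nonneg (hm _) (by linarith [hc2 i hi])
      · refine mul_nonneg (hm _) ?_
        rw [hc1 i hi]
        have h3 : μ i.castSucc ≤ (μ i.castSucc - w) + w := by omega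
        have h4 : (μ i.castSucc : ℝ) ≤ ((μ i.castSucc - w : ℕ) : ℝ) + w := by exact_mod_cast h3
        linarith
    have h3 : 0 ≤ (3 * d - ∑ i, m i) * ((w : ℝ) -
        2 * j * (μ (Fin.last 9) - j * (3 * (δ : ℝ) - ∑ i : Fin 9, (μ i.castSucc : ℝ)))) :=
      mul_nonneg (by linarith) (by linarith)
    linarith

end ShghM
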