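import Pool.Agent.ShghM.StepM

/-!
# The multi-cusp unfolding theorem: the excess terms
-/

namespace ShghM

open MvPolynomial ShghE ShghR

variable {k : Type*} [Field k]

/-- The sum of the bounds. -/
theorem PosM_sum (J : Finset (Fin 9)) (m : Fin 10 → ℝ) (κ w : ℝ) (c μ : Fin 9 → ℝ) :
    ∑ i : Fin 9, (if i ∈ J then m i.castSucc * (c i - (2 * κ - μ i - w))
      else m i.castSucc * (c i - (μ i - w))) =
      ∑ i : Fin 9, m i.castSucc * c i -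
        2 * κ * ∑ i : Fin 9, (if i ∈ J then m i.castSucc else 0) -
        ∑ i : Fin 9, sgnm J m i * μ i + w * ∑ i : Fin 9, m i.castSucc := by
  rw [Finset.mul_sum, Finset.mul_sum, ← Finset.sum_sub_distrib, ← Finset.sum_sub_distrib,
    ← Finset.sum_add_distrib]
  apply Finset.sum_congr rfl
  intro i _
  unfold sgnm
  split_ifs <;> ring

/-- The sum of the signed multiplicities. -/
theorem PosM_sgn (J : Finset (Fin 9)) (m : Fin 10 → ℝ) :
    ∑ i : Fin 9, sgnm J m i =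
      ∑ i : Fin 9, m i.castSucc - 2 * ∑ i : Fin 9, (if i ∈ J then m i.castSucc else 0) := by
  rw [Finset.mul_sum, ← Finset.sum_sub_distrib]
  apply Finset.sum_congr rfl
  intro i _
  unfold sgnm
  split_ifs <;> ring

/-- The choice of `g`. -/
theorem PosM_g (j : ℕ) (hj : 1 ≤ j) (σ : ℝ) (hσ : σ = 1 ∨ σ = -1) :
    ∃ g : ℕ, 2 * (g : ℝ) + 1 = 2 * j + σ := by
  rcases hσ with h | h
  · exact ⟨j, by rw [h]⟩
  · refine ⟨j - 1, ?_⟩
    rw [h, Nat.cast_sub hj]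
    push_cast
    ring

/-- The degree of the curve is at least one: the inequality of nefness with the excess terms. With
`Ξ = 3 δ - Σ_{i<9} μ_i`, `ν = μ_9`, `κ = 2 j (ν - j Ξ)`, `κ < w`, `e = 3d - Σ_{l<9} m_l ≥ n`:
`D·C` is the sum of the nonnegative terms
`d (δ - 3 w) - Σ m_i c_i`, `Σ_{l ∉ J} m_l (c_l - (μ_l - w))`, `Σ_{i ∈ J} m_i (c_i - (2 κ - μ_i - w))`,
`n (c_9 - cb)`, `(e - n)(w - κ)` (`arithM`; note `4 j ν - 4 j² Ξ = 2 κ`). -/
theorem unfoldM_pos [IsAlgClosed k] (h2 : (2 : k) ≠ 0) (P : Fin 10 → Fin 2 → k)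
    (hP : AlgebraicIndependent (⊥ : Subfield k) (fun ij : Fin 10 × Fin 2 => P ij.1 ij.2))
    (d : ℝ) (m : Fin 10 → ℝ) (hm : ∀ i, 0 ≤ m i) (hK : ∑ i, m i ≤ 3 * d) (hN : NumNef d m)
    (J : Finset (Fin 9)) (j : ℕ) (hj : 1 ≤ j) (σ : ℝ) (hσ : σ = 1 ∨ σ = -1)
    (f : MvPolynomial (Fin 2) k) (hf : f ≠ 0) (δ : ℕ) (hδ1 : 1 ≤ δ) (hδ : f.totalDegree ≤ δ)
    (μ : Fin 10 → ℕ) (hμ : ∀ i, f ∈ ptIdeal (P i 0) (P i 1) ^ μ i)
    (κ lam : ℝ)
    (hκ : κ = 2 * j * (μ (Fin.last 9) - j * (3 * (δ : ℝ) - ∑ i : Fin 9, (μ i.castSucc : ℝ))))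
    (hlam : lam = 2 * j * (j * (3 * d - ∑ i : Fin 9, sgnm J m i) + σ * m (Fin.last 9))) :
    ∃ (w : ℕ) (c : Fin 10 → ℕ), κ < w ∧
      (∀ i : Fin 9, i ∉ J → c i.castSucc = μ i.castSucc - w) ∧
      (∀ i : Fin 9, i ∈ J → 2 * κ - μ i.castSucc - w ≤ c i.castSucc) ∧
      (∀ i : Fin 9, i ∈ J → 2 * κ - μ i.castSucc - w = c i.castSucc →
        ∃ i0 : ℕ, i0 ≤ c i.castSucc ∧
          (∀ l : Fin 9, l ≠ i → 2 * (μ l.castSucc : ℝ) = w + i0) ∧
          4 * (j : ℝ) ^ 2 * μ i.castSucc = 2 * (j : ℝ) ^ 2 * (w + i0) -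
            (w + i0 - (c i.castSucc - i0) - μ i.castSucc)) ∧
      ∑ i : Fin 9, (lam + sgnm J m i) * μ i.castSucc +
          (σ * m (Fin.last 9) + 2 * j * (3 * d - ∑ i : Fin 9, sgnm J m i)) * μ (Fin.last 9) +
        (∑ i : Fin 9, (if i ∈ J then m i.castSucc * (c i.castSucc - (2 * κ - μ i.castSucc - w))
          else m i.castSucc * (c i.castSucc - ((μ i.castSucc : ℝ) - w))) +
        (3 * d - ∑ i, m i) * (w - κ)) ≤ (d + 3 * lam) * δ := by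
  obtain ⟨g, hg⟩ := PosM_g j hj σ hσ
  have hσ2 : σ ^ 2 = 1 := by
    rcases hσ with h | h <;> rw [h] <;> norm_num
  obtain ⟨w, c, h3w, hA, hcn, hcJ, hcl, hstr, heq⟩ :=
    unfoldM_step h2 P hP d m hm hK hN J g j hj f hf δ hδ1 hδ μ hμ
  have hcJ' : ∀ i : Fin 9, i ∈ J → 2 * κ - μ i.castSucc - w ≤ (c i.castSucc : ℝ) := by
    intro i hi
    have h := hcJ i hi
    have h' : 4 * (j : ℝ) * μ (Fin.last 9) -
        4 * (j : ℝ) ^ 2 * (3 * (δ : ℝ) - ∑ i : Fin 9, (μ i.castSucc : ℝ)) - μ i.castSucc - w ≤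
          c i.castSucc := by exact_mod_cast h
    rw [hκ]
    linarith
  have hcl' : (2 * (g : ℝ) + 1) * (μ (Fin.last 9) : ℝ) -
        2 * g * (g + 1) * (3 * (δ : ℝ) - ∑ i : Fin 9, (μ i.castSucc : ℝ)) - w ≤
          c (Fin.last 9) := by exact_mod_cast hcl
  have hstr' : 2 * (j : ℝ) * μ (Fin.last 9) <
        2 * (j : ℝ) ^ 2 * (3 * (δ : ℝ) - ∑ i : Fin 9, (μ i.castSucc : ℝ)) + w := by
    exact_mod_cast hstr
  refine ⟨w, c, ?_, hcn, hcJ', ?_, ?_⟩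
  · rw [hκ]
    linarith
  · intro i hi he
    have h' : 4 * (j : ℤ) * μ (Fin.last 9) -
        4 * (j : ℤ) ^ 2 * (3 * (δ : ℤ) - ∑ i : Fin 9, (μ i.castSucc : ℤ)) - μ i.castSucc - w =
          c i.castSucc := by
      have h'' : 4 * (j : ℝ) * μ (Fin.last 9) -
          4 * (j : ℝ) ^ 2 * (3 * (δ : ℝ) - ∑ i : Fin 9, (μ i.castSucc : ℝ)) -
          μ i.castSucc - w = c i.castSucc := by
        rw [← he, hκ]
        ring
      exact_mod_cast h''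
    obtain ⟨i0, h1, h2', h3⟩ := heq i hi h'
    refine ⟨i0, h1, ?_, ?_⟩
    · intro l hl
      exact_mod_cast h2' l hl
    · exact_mod_cast h3
  · have hn : 0 ≤ m (Fin.last 9) := hm _
    have hmul := mul_nonneg hn (sub_nonneg.2 hcl')
    have hS := PosM_sum J m κ w (fun i => (c i.castSucc : ℝ)) (fun i => (μ i.castSucc : ℝ))
    have hsg := PosM_sgn J m
    have har := arithM σ hσ2 j g (d * δ - ∑ i : Fin 9, sgnm J m i * μ i.castSucc)
      (3 * d - ∑ i : Fin 9, m i.castSucc) (m (Fin.last 9)) w (μ (Fin.last 9))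
      (3 * (δ : ℝ) - ∑ i : Fin 9, (μ i.castSucc : ℝ)) (c (Fin.last 9)) lam
      (∑ i : Fin 9, (if i ∈ J then m i.castSucc else 0)) hg (by
        rw [hlam, hsg]; ring)
    rw [Fin.sum_univ_castSucc] at hA
    rw [hS, Fin.sum_univ_castSucc (n := 9)]
    have e1 : ∑ i : Fin 9, (lam + sgnm J m i) * (μ i.castSucc : ℝ) =
        lam * ∑ i : Fin 9, (μ i.castSucc : ℝ) + ∑ i : Fin 9, sgnm J m i * μ i.castSucc := by
      rw [Finset.mul_sum, ← Finset.sum_add_distrib]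
      exact Finset.sum_congr rfl fun i _ => by ring
    rw [e1, hsg]
    rw [← hκ] at har
    linarith [har, hA, hmul]

end ShghM
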