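import Pool.Agent.ShghM.IsA
import Pool.Agent.ShghR.ResCEq

/-!
# The norm inequality on the curve `A^(q)_p`

Analogue of `ShghR/ResC.lean`, `ShghR/ResCEq.lean`. `C = A^(q)_p`, `deg C = 4 q²`, `Σ w_P(C) = -2`,
`m(C) = 4 q`, `n_p = -1`. `Q ≡ Q'` modulo `C`, `C ∤ Q`; `Q` is used at the places different from `O`, `Q'` at
the place `O`; `r` the resultant of `Q` and `C` with formal degrees `D`, `4 q²`.
Local inequalities: `P ≠ T, p, O`: `v_P r ≥ 4 q² w_P(Q) + D w_P(C) + 4 q² D n_P`; the same at `O` with `Q'`;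
at `T` (`n_T = 0`): `v_T r ≥ 4 q² w_T(Q) + D w_T(C) + (oo_T(Q) - w_T(Q)) 4 q ≥ 4 q² W_T + D w_T(C) + 4 q (M - W_T)`
as `4 q² ≥ 4 q`. At `p` use the analogue of `ResC_mu` with the place `p` and the point `c = 0`:
`v_p r ≥ 4 q² gv0(Q) + D gv0(C) + (oo0(Q) - gv0(Q)) (oo0(C) - gv0(C))`, where `gv0 = gv (v p) 0` and
`oo0 = gv (v p) (-1) = w_p` because `n_p = -1` (`taylor 0` is the identity). `gv0(C) = 1 - 2 q²`
(`IsA.gv0`), `w_p(C) = 2 q²`, so
`v_p r ≥ gv0(Q) + (4 q² - 1) w_p(Q) + D (1 - 2 q²) ≥ 4 q² W_p + D w_p(C) + 4 q² D n_p + (D + γ - W_p)`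
(`D w_p(C) + 4 q² D n_p = - 2 q² D`). The sum over all places is
`0 ≥ 4 q² Σ W_P - 2 D + 4 q (M - W_T) + (D + γ - W_p)`.
In the case of equality all the local inequalities are equalities, and
`Σ v_P(r) P = 0` is the relation of `res_A_eq` (`Σ w_P(C) P = - cls C = - 2 q² s`).
-/

set_option linter.unusedSectionVars false

namespace ShghM

open Polynomial ShghE

variable {k K A : Type*} [Field k] [Field K] [Algebra k K] [AddCommGroup A]
variable (E : EField k K A) (n : E.Twist)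

private lemma ResA_fin_add {f g : A → ℤ} (hf : (Function.support f).Finite)
    (hg : (Function.support g).Finite) : (Function.support fun P => f P + g P).Finite :=
  (hf.union hg).subset (Function.support_add _ _)

private lemma ResA_fin_mul (c : ℤ) {f : A → ℤ} (hf : (Function.support f).Finite) :
    (Function.support fun P => c * f P).Finite := by
  apply hf.subset
  intro P hP
  rw [Function.mem_support] at hP ⊢
  exact right_ne_zero_of_mul hP

private lemma ResA_sig_add {f g : A → ℤ} (hf : (Function.support f).Finite)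
    (hg : (Function.support g).Finite) : ∑ᶠ P, (f P + g P) = ∑ᶠ P, f P + ∑ᶠ P, g P :=
  finsum_add_distrib hf hg

private lemma ResA_sig_mul (c : ℤ) (f : A → ℤ) : ∑ᶠ P, c * f P = c * ∑ᶠ P, f P :=
  (mul_finsum f c).symm

private lemma ResA_fin_T : (Function.support fun P : A => E.dT P).Finite := by
  apply (Set.finite_singleton E.T).subset
  intro P hP
  rw [Set.mem_singleton_iff]
  by_contra h
  rw [Function.mem_support] at hP
  apply hP
  unfold EField.dT
  rw [if_neg h]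

open Classical in
/-- The indicator of the place `p`. -/
private noncomputable def ResA_d (p : A) (P : A) : ℤ := if P = p then 1 else 0

private lemma ResA_fin_d (p : A) : (Function.support (ResA_d p)).Finite := by
  apply (Set.finite_singleton p).subset
  intro P hP
  rw [Set.mem_singleton_iff]
  by_contra h
  rw [Function.mem_support] at hP
  apply hP
  unfold ResA_d
  rw [if_neg h]

private lemma ResA_sum_d (p : A) : ∑ᶠ P, ResA_d p P = 1 := by
  unfold ResA_d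
  rw [finsum_eq_single _ p (fun x hx => if_neg hx), if_pos rfl]

private lemma ResA_sum_d_smul (p : A) : ∑ᶠ P, ResA_d p P • P = p := by
  unfold ResA_d
  rw [finsum_eq_single _ p (fun x hx => by rw [if_neg hx, zero_smul]), if_pos rfl, one_smul]

/-- Order of the resultant with formal degree `D`. -/
private lemma ResA_v {v : K → ℤ} (hv : IsOrd v) {Q C : K[X]} (hC : C ≠ 0)
    (h : resultant Q C ≠ 0) {D : ℕ} (hD : Q.natDegree ≤ D) :
    v (resultant Q C D C.natDegree) =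
      ((D : ℤ) - Q.natDegree) * v C.leadingCoeff + v (resultant Q C) := by
  obtain ⟨e, rfl⟩ := Nat.exists_eq_add_of_le hD
  rw [resultant_add_left_deg _ _ _ _ _ le_rfl]
  have hl : C.coeff C.natDegree ≠ 0 := leadingCoeff_ne_zero.mpr hC
  have h1 : ((-1 : K)) ^ (C.natDegree * e) ≠ 0 := pow_ne_zero _ (neg_ne_zero.mpr one_ne_zero)
  have h2 : C.coeff C.natDegree ^ e ≠ 0 := pow_ne_zero _ hl
  have h3 : v ((-1 : K)) = 0 := by rw [hv.neg one_ne_zero, hv.one]
  rw [hv.mul (mul_ne_zero h1 h2) h, hv.mul h1 h2, hv.pow (neg_ne_zero.mpr one_ne_zero), h3,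
    hv.pow hl, leadingCoeff]
  push_cast
  ring

private lemma ResA_gv {v : K → ℤ} (hv : IsOrd v) (N : ℤ) {Q C : K[X]} (hQ : Q ≠ 0) (hC : C ≠ 0)
    (h : resultant Q C ≠ 0) {D : ℕ} (hD : Q.natDegree ≤ D) :
    (C.natDegree : ℤ) * gv v N Q + D * gv v N C + D * C.natDegree * N ≤
      v (resultant Q C D C.natDegree) := by
  rw [ResA_v hv hC h hD]
  have h1 := resultant_gv hv N hQ hC h
  have h2 : gv v N C + (C.natDegree : ℤ) * N ≤ v C.leadingCoeff :=
    gv_le (leadingCoeff_ne_zero.mpr hC)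
  have h3 : (0 : ℤ) ≤ (D : ℤ) - Q.natDegree := by
    have : (Q.natDegree : ℤ) ≤ D := by exact_mod_cast hD
    linarith
  nlinarith [mul_le_mul_of_nonneg_left h2 h3]

private lemma ResA_mu {v : K → ℤ} (hv : IsOrd v) {c : K} (hc : c ≠ 0 → 0 ≤ v c) {Q C : K[X]}
    (hQ : Q ≠ 0) (hC : C ≠ 0) (h : resultant Q C ≠ 0) {D : ℕ} (hD : Q.natDegree ≤ D) :
    (C.natDegree : ℤ) * gv v 0 Q + D * gv v 0 C + mu v c Q * mu v c C ≤
      v (resultant Q C D C.natDegree) := by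
  rw [ResA_v hv hC h hD]
  have h1 := resultant_mu hv hc hQ hC h
  have h2 : gv v 0 C + (C.natDegree : ℤ) * 0 ≤ v C.leadingCoeff :=
    gv_le (leadingCoeff_ne_zero.mpr hC)
  have h3 : (0 : ℤ) ≤ (D : ℤ) - Q.natDegree := by
    have : (Q.natDegree : ℤ) ≤ D := by exact_mod_cast hD
    linarith
  nlinarith [mul_le_mul_of_nonneg_left h2 h3]

/-- The resultants (formal degree `D`) of congruent polynomials. -/
private lemma ResA_congr {Q Q' C : K[X]} (hC : C ≠ 0) (hQQ : C ∣ Q - Q') {D : ℕ}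
    (hD : Q.natDegree ≤ D) (hD' : Q'.natDegree ≤ D) :
    resultant Q C D C.natDegree = resultant Q' C D C.natDegree := by
  obtain ⟨p, hp⟩ := hQQ
  have hQ : Q = Q' + C * p := by rw [← hp]; ring
  by_cases hp0 : p = 0
  · rw [hQ, hp0, mul_zero, add_zero]
  · rw [hQ, resultant_add_mul_left _ _ _ _ _ _ le_rfl]
    have h1 : (C * p).natDegree ≤ D := by
      rw [← hp]
      exact (natDegree_sub_le _ _).trans (max_le hD hD')
    rw [natDegree_mul hC hp0] at h1
    omega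

/-- The local inequalities. -/
private theorem ResA_key {v0 : k} (h0 : v0 ≠ 0) {q : ℕ} (hq : 1 ≤ q) {p : A} (hp1 : n.n p = -1)
    {C : K[X]} (hC : IsA E n v0 q p C) (O : A) (hO : O ≠ E.T) (hOp : O ≠ p)
    {Q Q' : K[X]} (hQ : ¬ C ∣ Q) (hQQ : C ∣ Q - Q') {D : ℕ}
    (hD : Q.natDegree ≤ D) (hD' : Q'.natDegree ≤ D)
    (W : A → ℤ)
    (hWP : ∀ P, P ≠ O → W P ≤ E.w n P Q) (hWO : W O ≤ E.w n O Q')
    (M : ℤ) (hM : M ≤ oo (E.v E.T) (algebraMap k K v0) Q)
    (γ : ℤ) (hγ : γ ≤ gv (E.v p) 0 Q) :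
    ∃ R : K, R ≠ 0 ∧ ∀ P, 0 ≤ E.v P R +
      ((-(4 * (q : ℤ) ^ 2)) * W P + ((-(D : ℤ)) * E.w n P C +
        ((-((D : ℤ) * (4 * (q : ℤ) ^ 2))) * n.n P +
        ((-(4 * (q : ℤ) * (M - W E.T))) * E.dT P +
        (-((D : ℤ) + γ - W p)) * ResA_d p P)))) := by
  classical
  have hC0 : C ≠ 0 := hC.irr.ne_zero
  have hpT : p ≠ E.T := by
    rintro rfl
    rw [n.nT] at hp1
    norm_num at hp1
  have hQ' : ¬ C ∣ Q' := by
    intro h
    apply hQ
    have := dvd_add hQQ h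
    rwa [sub_add_cancel] at this
  have hQ0 : Q ≠ 0 := by
    rintro rfl
    exact hQ (dvd_zero _)
  have hQ0' : Q' ≠ 0 := by
    rintro rfl
    exact hQ' (dvd_zero _)
  have hr : resultant Q C ≠ 0 :=
    resultant_ne_zero Q C (hC.irr.coprime_iff_not_dvd.mpr hQ).symm
  have hr' : resultant Q' C ≠ 0 :=
    resultant_ne_zero Q' C (hC.irr.coprime_iff_not_dvd.mpr hQ').symm
  have hcong := ResA_congr hC0 hQQ hD hD'
  have hR : resultant Q C D C.natDegree ≠ 0 := by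
    obtain ⟨e, he⟩ := Nat.exists_eq_add_of_le hD
    rw [he, resultant_add_left_deg _ _ _ _ _ le_rfl]
    exact mul_ne_zero (mul_ne_zero (pow_ne_zero _ (neg_ne_zero.mpr one_ne_zero))
      (pow_ne_zero _ (leadingCoeff_ne_zero.mpr hC0))) hr
  have hdeg : (C.natDegree : ℤ) = 4 * (q : ℤ) ^ 2 := by
    rw [hC.deg]
    push_cast
    ring
  have hq' : (1 : ℤ) ≤ q := by exact_mod_cast hq
  have hD0 : (0 : ℤ) ≤ D := Int.natCast_nonneg _
  refine ⟨_, hR, ?_⟩
  intro P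
  have hh : (0 : ℤ) ≤ 4 * (q : ℤ) ^ 2 := by positivity
  unfold EField.dT ResA_d
  by_cases hP : P = E.T
  · rw [if_pos hP]
    subst hP
    rw [if_neg (Ne.symm hpT)]
    have h1 := ResA_mu (E.ord E.T) (c := algebraMap k K v0)
      (fun _ => by rw [E.const v0 h0]) hQ0 hC0 hr hD
    have h2 : mu (E.v E.T) (algebraMap k K v0) C = 4 * q := hC.m
    have h3 : mu (E.v E.T) (algebraMap k K v0) Q =
        oo (E.v E.T) (algebraMap k K v0) Q - gv (E.v E.T) 0 Q := rfl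
    have h4 : W E.T ≤ gv (E.v E.T) 0 Q := by
      have := hWP E.T (Ne.symm hO)
      unfold EField.w at this
      rwa [n.nT] at this
    rw [h2, h3] at h1
    unfold EField.w
    rw [n.nT]
    rw [hdeg] at h1
    have h5 : (0 : ℤ) ≤ 4 * (q : ℤ) ^ 2 - 4 * q := by nlinarith
    have h6 := mul_le_mul_of_nonneg_left h4 h5
    have h7 := mul_le_mul_of_nonneg_left hM (show (0 : ℤ) ≤ 4 * (q : ℤ) by linarith)
    nlinarith
  · rw [if_neg hP]
    by_cases hPp : P = p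
    · rw [if_pos hPp]
      subst hPp
      have h1 := ResA_mu (E.ord P) (c := (0 : K)) (fun h => absurd rfl h) hQ0 hC0 hr hD
      have h2 : ∀ F : K[X], mu (E.v P) (0 : K) F = E.w n P F - gv (E.v P) 0 F := by
        intro F
        unfold mu oo EField.w
        rw [taylor_zero, hp1]
      have h3 : gv (E.v P) 0 C = 1 - 2 * (q : ℤ) ^ 2 := hC.gv0 E n hp1
      have h4 : E.w n P C = 2 * (q : ℤ) ^ 2 := by
        rw [hC.w, hp1]
        unfold EField.dT
        rw [if_neg hP]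
        ring
      have h5 := hWP P (Ne.symm hOp)
      rw [h2, h2, h3, h4, hdeg] at h1
      rw [h4, hp1]
      have h6 : (0 : ℤ) ≤ 4 * (q : ℤ) ^ 2 - 1 := by nlinarith
      have h7 := mul_le_mul_of_nonneg_left h5 h6
      nlinarith
    · rw [if_neg hPp]
      by_cases hPO : P = O
      · subst hPO
        have h1 := ResA_gv (E.ord P) (n.n P) hQ0' hC0 hr' hD'
        rw [← hcong, hdeg] at h1
        unfold EField.w at hWO ⊢
        have h2 := mul_le_mul_of_nonneg_left hWO hh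
        linarith
      · have h1 := ResA_gv (E.ord P) (n.n P) hQ0 hC0 hr hD
        rw [hdeg] at h1
        have h3 := hWP P hPO
        unfold EField.w at h3 ⊢
        have h2 := mul_le_mul_of_nonneg_left h3 hh
        linarith

theorem res_A {v0 : k} (h0 : v0 ≠ 0) {q : ℕ} (hq : 1 ≤ q) {p : A} (hp1 : n.n p = -1)
    {C : K[X]} (hC : IsA E n v0 q p C) (O : A) (hO : O ≠ E.T) (hOp : O ≠ p)
    {Q Q' : K[X]} (hQ : ¬ C ∣ Q) (hQQ : C ∣ Q - Q') {D : ℕ}
    (hD : Q.natDegree ≤ D) (hD' : Q'.natDegree ≤ D)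
    (W : A → ℤ) (hW : (Function.support W).Finite)
    (hWP : ∀ P, P ≠ O → W P ≤ E.w n P Q) (hWO : W O ≤ E.w n O Q')
    (M : ℤ) (hM : M ≤ oo (E.v E.T) (algebraMap k K v0) Q)
    (γ : ℤ) (hγ : γ ≤ gv (E.v p) 0 Q) :
    4 * (q : ℤ) ^ 2 * (∑ᶠ P, W P) + 4 * (q : ℤ) * (M - W E.T) + (γ - W p) ≤ D := by
  classical
  have hC0 : C ≠ 0 := hC.irr.ne_zero
  obtain ⟨R, hR, key⟩ :=
    ResA_key E n h0 hq hp1 hC O hO hOp hQ hQQ hD hD' W hWP hWO M hM γ hγ
  have hw := E.w_fin n hC0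
  have fd := ResA_fin_mul (-((D : ℤ) + γ - W p)) (ResA_fin_d p)
  have fT := ResA_fin_mul (-(4 * (q : ℤ) * (M - W E.T))) (ResA_fin_T E)
  have f4 := ResA_fin_add fT fd
  have f3 := ResA_fin_add (ResA_fin_mul (-((D : ℤ) * (4 * (q : ℤ) ^ 2))) n.fin) f4
  have f2 := ResA_fin_add (ResA_fin_mul (-(D : ℤ)) hw) f3
  have f1 := ResA_fin_add (ResA_fin_mul (-(4 * (q : ℤ) ^ 2)) hW) f2
  have h1 : ∑ᶠ P : A, E.dT P = 1 := by
    unfold EField.dT
    rw [finsum_eq_single _ E.T (fun x hx => if_neg hx), if_pos rfl]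
  have h2 : ∑ᶠ P, E.w n P C = -2 := hC.sum_w E n
  have hs := finsum_nonneg key
  rw [ResA_sig_add (E.fin _ hR) f1,
    ResA_sig_add (ResA_fin_mul _ hW) f2,
    ResA_sig_add (ResA_fin_mul _ hw) f3,
    ResA_sig_add (ResA_fin_mul _ n.fin) f4,
    ResA_sig_add fT fd,
    ResA_sig_mul, ResA_sig_mul, ResA_sig_mul, ResA_sig_mul, ResA_sig_mul, E.deg _ hR, n.deg,
    h1, h2, ResA_sum_d] at hs
  linarith

private lemma ResA_zero {f : A → ℤ} (hf : (Function.support f).Finite) (h0 : ∀ P, 0 ≤ f P)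
    (hs : ∑ᶠ P, f P = 0) : ∀ P, f P = 0 := by
  classical
  intro P
  have h1 : ∑ᶠ R, f R = ∑ R ∈ hf.toFinset ∪ {P}, f R := by
    apply finsum_eq_sum_of_support_subset
    intro R hR
    simp only [Finset.coe_union, Set.Finite.coe_toFinset]
    exact Or.inl hR
  rw [h1] at hs
  rw [Finset.sum_eq_zero_iff_of_nonneg (fun R _ => h0 R)] at hs
  exact hs P (by simp)

private lemma ResA_fin_smul {f : A → ℤ} (hf : (Function.support f).Finite) :
    (Function.support fun P => f P • P).Finite := by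
  apply hf.subset
  intro P hP
  rw [Function.mem_support] at hP ⊢
  intro h
  apply hP
  rw [h, zero_smul]

private lemma ResA_smul_add {f g : A → ℤ} (hf : (Function.support f).Finite)
    (hg : (Function.support g).Finite) :
    ∑ᶠ P, (f P + g P) • P = ∑ᶠ P, f P • P + ∑ᶠ P, g P • P := by
  rw [← finsum_add_distrib (ResA_fin_smul hf) (ResA_fin_smul hg)]
  apply finsum_congr
  intro P
  rw [add_smul]

private lemma ResA_smul_mul (c : ℤ) {f : A → ℤ} (hf : (Function.support f).Finite) :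
    ∑ᶠ P, (c * f P) • P = c • ∑ᶠ P, f P • P := by
  rw [smul_finsum' c (ResA_fin_smul hf)]
  apply finsum_congr
  intro P
  rw [mul_smul]

theorem res_A_eq {v0 : k} (h0 : v0 ≠ 0) {q : ℕ} (hq : 1 ≤ q) {p : A} (hp1 : n.n p = -1)
    {C : K[X]} (hC : IsA E n v0 q p C) (O : A) (hO : O ≠ E.T) (hOp : O ≠ p)
    {Q Q' : K[X]} (hQ : ¬ C ∣ Q) (hQQ : C ∣ Q - Q') {D : ℕ}
    (hD : Q.natDegree ≤ D) (hD' : Q'.natDegree ≤ D)
    (W : A → ℤ) (hW : (Function.support W).Finite)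
    (hWP : ∀ P, P ≠ O → W P ≤ E.w n P Q) (hWO : W O ≤ E.w n O Q')
    (M : ℤ) (hM : M ≤ oo (E.v E.T) (algebraMap k K v0) Q)
    (γ : ℤ) (hγ : γ ≤ gv (E.v p) 0 Q)
    (heq : 4 * (q : ℤ) ^ 2 * (∑ᶠ P, W P) + 4 * (q : ℤ) * (M - W E.T) + (γ - W p) = D) :
    (4 * (q : ℤ) ^ 2) • (∑ᶠ P, W P • P) + (2 * (q : ℤ) ^ 2 * D) • n.s +
      (4 * (q : ℤ) * (M - W E.T)) • E.T + (D + γ - W p) • p = 0 := by
  classical
  have hC0 : C ≠ 0 := hC.irr.ne_zero
  obtain ⟨R, hR, key⟩ :=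
    ResA_key E n h0 hq hp1 hC O hO hOp hQ hQQ hD hD' W hWP hWO M hM γ hγ
  have hw := E.w_fin n hC0
  have gT := ResA_fin_T E
  have gd := ResA_fin_d p
  have fd := ResA_fin_mul (-((D : ℤ) + γ - W p)) gd
  have fT := ResA_fin_mul (-(4 * (q : ℤ) * (M - W E.T))) gT
  have f4 := ResA_fin_add fT fd
  have f3 := ResA_fin_add (ResA_fin_mul (-((D : ℤ) * (4 * (q : ℤ) ^ 2))) n.fin) f4
  have f2 := ResA_fin_add (ResA_fin_mul (-(D : ℤ)) hw) f3
  have f1 := ResA_fin_add (ResA_fin_mul (-(4 * (q : ℤ) ^ 2)) hW) f2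
  have h1 : ∑ᶠ P : A, E.dT P = 1 := by
    unfold EField.dT
    rw [finsum_eq_single _ E.T (fun x hx => if_neg hx), if_pos rfl]
  have h2 : ∑ᶠ P, E.w n P C = -2 := hC.sum_w E n
  have hz := ResA_zero (ResA_fin_add (E.fin _ hR) f1) key (by
    rw [ResA_sig_add (E.fin _ hR) f1,
      ResA_sig_add (ResA_fin_mul _ hW) f2,
      ResA_sig_add (ResA_fin_mul _ hw) f3,
      ResA_sig_add (ResA_fin_mul _ n.fin) f4,
      ResA_sig_add fT fd,
      ResA_sig_mul, ResA_sig_mul, ResA_sig_mul, ResA_sig_mul, ResA_sig_mul, E.deg _ hR, n.deg,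
      h1, h2, ResA_sum_d]
    linarith)
  have hsm : ∑ᶠ P, (E.v P R +
      ((-(4 * (q : ℤ) ^ 2)) * W P + ((-(D : ℤ)) * E.w n P C +
        ((-((D : ℤ) * (4 * (q : ℤ) ^ 2))) * n.n P +
        ((-(4 * (q : ℤ) * (M - W E.T))) * E.dT P +
        (-((D : ℤ) + γ - W p)) * ResA_d p P))))) • P = 0 := by
    simp only [hz, zero_smul, finsum_zero]
  have h5 : ∑ᶠ P : A, E.dT P • P = E.T := by
    unfold EField.dT
    rw [finsum_eq_single _ E.T (fun x hx => by rw [if_neg hx, zero_smul]), if_pos rfl, one_smul]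
  have h6 : ∑ᶠ P, E.w n P C • P = -((2 * (q : ℤ) ^ 2) • n.s) := by
    have h := hC.cls_eq E n
    unfold EField.cls at h
    rw [← neg_eq_iff_eq_neg, h]
    push_cast
    rfl
  have h7 : ∑ᶠ P, n.n P • P = n.s := rfl
  rw [ResA_smul_add (E.fin _ hR) f1,
      ResA_smul_add (ResA_fin_mul _ hW) f2,
      ResA_smul_add (ResA_fin_mul _ hw) f3,
      ResA_smul_add (ResA_fin_mul _ n.fin) f4,
      ResA_smul_add fT fd,
      ResA_smul_mul _ hW, ResA_smul_mul _ hw, ResA_smul_mul _ n.fin, ResA_smul_mul _ gT,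
      ResA_smul_mul _ gd,
      E.sum _ hR, h5, h6, h7, ResA_sum_d_smul] at hsm
  rw [← neg_eq_zero, ← hsm]
  module

end ShghM
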