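import Pool.Agent.ShghM.SetupM

/-!
# The degeneration: the inequality `2 q μ ≤ 2 q² Ξ + w`
-/

namespace ShghM

open MvPolynomial ShghE ShghR WeierstrassCurve WeierstrassCurve.Affine

variable {k : Type*} [Field k] [DecidableEq k] {δ : ℕ} {μ : Fin 10 → ℕ} {B : ℕ}
variable (S : Setup k δ μ B)

theorem Setup.hOmI (h2 : (2 : k) ≠ 0) : Om S.F S.w = OmI δ S.F S.w := by
  obtain ⟨ψ, U, hψ, hU, hflow⟩ := exists_flow (k := k) h2
  have hV : PowerSeries.constantCoeff (U ^ δ) = 1 := by rw [map_pow, hU, one_pow]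
  obtain ⟨-, -, h5⟩ := lead_transfer_shift (0 : Polynomial (K0 k)) ψ hψ (U ^ δ) hV (Om S.F)
    (OmI δ S.F) (hflow δ S.F S.deg) S.w (Om_lt h2 S.F S.w S.gg S.hgg) 0 0 le_rfl (fun i _ => by
      rw [Nat.zero_sub, pow_zero]
      exact one_dvd _) (fun i hi => absurd hi (Nat.not_lt_zero i))
  simpa [sub_eq_zero] using h5

theorem Setup.hFne (h2 : (2 : k) ≠ 0) : Om S.F S.w ≠ 0 := by
  obtain ⟨l0, hl0, hl0G⟩ := S.hG
  intro h
  have h1 := Om_coeff S.F S.w (S.w - l0)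
  rw [Om_eq h2 S.F S.w S.gg S.hgg] at h
  have h3 := congrArg (fun q => Polynomial.coeff q (S.w - l0)) h
  simp only [Polynomial.finsetSum_coeff, Polynomial.coeff_C_mul, Polynomial.coeff_X_pow,
    Polynomial.coeff_zero] at h3
  rw [Finset.sum_eq_single (S.w - l0)] at h3
  · rw [if_pos rfl, mul_one, show S.w - (S.w - l0) = l0 by omega,
      map_eq_zero_iff _ (IsFractionRing.injective (R0 k) (K0 k)), psi_eq_zero_iff] at h3
    exact hl0G h3
  · intro j _ hj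
    rw [if_neg (Ne.symm hj), mul_zero]
  · intro h4
    exact absurd (Finset.mem_range.2 (by omega)) h4

theorem Setup.hpl (h2 : (2 : k) ≠ 0) (hB : 1 ≤ B) (Q : (E0 k).Point) :
    0 ≤ divf (3 * δ) (fun i => -(μ i.castSucc : ℤ)) S.p Q + S.CD.E.w S.n Q (Om S.F S.w) := by
  have hp0 := S.indep.ne_zero hB
  have hpi := S.indep.inj hB
  have h : - (divf (3 * δ) (fun i => -(μ i.castSucc : ℤ)) S.p Q) ≤
      S.CD.E.w S.n Q (Om S.F S.w) := by
    by_cases hQ : Q = 0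
    · rw [hQ]
      unfold EField.w
      have e2 : S.n.n 0 = 9 := by
        rw [S.hn]
        exact divf_zero _ _ _ hp0
      rw [e2, divf_zero _ _ _ hp0, S.hOmI h2]
      have h := OmI_inf S.CD δ S.F S.deg S.w (by rw [← S.hOmI h2]; exact S.hFne h2)
      linarith
    · exact MultEnd_place S.CD S.n S.p hp0 hpi S.hn (S.Z 0 0) (S.Z_ns S.CD.T_ns) (S.Z_p S.CD.T_ns)
        S.F δ μ (S.Z_mult 0 0) S.w Q hQ (S.hFne h2)
  linarith

/-- The part `hmain` of `ShghR.coreS` (with `Om F w = OmI δ F w ≠ 0`). -/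
theorem Setup.sec (h2 : (2 : k) ≠ 0) (q : ℕ) (hq : 1 ≤ q) (hB : bigB 0 q δ ≤ B) :
    2 * (q : ℤ) * μ (Fin.last 9) ≤
      2 * (q : ℤ) ^ 2 * (3 * (δ : ℤ) - ∑ i : Fin 9, (μ i.castSucc : ℤ)) + S.w := by
  unfold bigB at hB
  have hwδ := S.gg0.2
  have hnd : (Om S.F S.w).natDegree ≤ S.w := diag_natDegree _ _
  have hmain := S.CD.E.sec_even S.n S.hv0 S.sym B S.tors q hq (by omega) (S.hFne h2) (by omega)
    (divf (3 * δ) (fun i => -(μ i.castSucc : ℤ)) S.p) (divf_fin _ _ _)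
    (divf_eq_zero _ _ _ S.T0 (fun i => (S.indep.ne_T (by omega) i).symm)) (S.hpl h2 (by omega)) _
    (MultEnd_T S.CD S.v0 S.F _ S.move S.w (S.hFne h2))
  rw [divf_sum, Finset.sum_neg_distrib, ← sub_eq_add_neg] at hmain
  have hnd' : ((Om S.F S.w).natDegree : ℤ) ≤ S.w := by exact_mod_cast hnd
  linarith

/-- The part `hE1` of `ShghR.coreS`. -/
theorem Setup.sec_eq (h2 : (2 : k) ≠ 0) (q : ℕ) (hq : 1 ≤ q) (hB : bigB 0 q δ ≤ B)
    (heq : 2 * (q : ℤ) * μ (Fin.last 9) =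
      2 * (q : ℤ) ^ 2 * (3 * (δ : ℤ) - ∑ i : Fin 9, (μ i.castSucc : ℤ)) + S.w) (i : Fin 9) :
    2 * (μ i.castSucc : ℤ) = S.w := by
  unfold bigB at hB
  have hwδ' := S.gg0.2
  have hwδ : S.w ≤ δ := by omega
  have hnd : (Om S.F S.w).natDegree ≤ S.w := diag_natDegree _ _
  have hnd' : ((Om S.F S.w).natDegree : ℤ) ≤ S.w := by exact_mod_cast hnd
  have hMsum : ∑ᶠ P, divf (3 * δ) (fun i => -(μ i.castSucc : ℤ)) S.p P • P =
      ∑ i : Fin 9, (-(μ i.castSucc : ℤ)) • S.p i := divf_sum_smul _ _ _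
  have hmain := S.CD.E.sec_even S.n S.hv0 S.sym B S.tors q hq (by omega) (S.hFne h2) (by omega)
    (divf (3 * δ) (fun i => -(μ i.castSucc : ℤ)) S.p) (divf_fin _ _ _)
    (divf_eq_zero _ _ _ S.T0 (fun i => (S.indep.ne_T (by omega) i).symm)) (S.hpl h2 (by omega)) _
    (MultEnd_T S.CD S.v0 S.F _ S.move S.w (S.hFne h2))
  rw [divf_sum, Finset.sum_neg_distrib, ← sub_eq_add_neg] at hmain
  have hndw : ((Om S.F S.w).natDegree : ℤ) = S.w := by linarith
  obtain ⟨c, hc1, hc2, hc3⟩ := S.CD.E.sec_even_eq S.n S.hv0 S.sym B S.tors q hq (by omega)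
    (S.hFne h2) (by omega)
    (divf (3 * δ) (fun i => -(μ i.castSucc : ℤ)) S.p) (divf_fin _ _ _)
    (divf_eq_zero _ _ _ S.T0 (fun i => (S.indep.ne_T (by omega) i).symm)) (S.hpl h2 (by omega)) _
    (MultEnd_T S.CD S.v0 S.F _ S.move S.w (S.hFne h2)) (by
      rw [divf_sum, Finset.sum_neg_distrib, ← sub_eq_add_neg, hndw]
      exact heq)
  rw [hMsum, S.s_eq, hndw] at hc3
  have h1 := S.rel (fun i => (c : ℤ) * (2 * (μ i.castSucc : ℤ) - S.w)) ?_ 0 ?_ i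
  · have hc0 : (c : ℤ) ≠ 0 := by
      have : 0 < c := hc1
      exact_mod_cast this.ne'
    have h3 := (mul_eq_zero.1 h1).resolve_left hc0
    linarith
  · intro i
    have e1 : (μ i.castSucc : ℤ) ≤ δ := by exact_mod_cast S.mu_le i
    have e2 : (0 : ℤ) ≤ μ i.castSucc := Int.natCast_nonneg _
    have e3 : (S.w : ℤ) ≤ δ := by exact_mod_cast hwδ
    have e4 : (0 : ℤ) ≤ S.w := Int.natCast_nonneg _
    have e5 : |2 * (μ i.castSucc : ℤ) - S.w| ≤ 4 * δ := by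
      rw [abs_le]
      constructor <;> linarith
    have e6 : (c : ℤ) ≤ 2 * q * (q + 1) := by exact_mod_cast hc2
    have e7 : (0 : ℤ) ≤ c := Int.natCast_nonneg _
    rw [abs_mul, abs_of_nonneg e7]
    calc (c : ℤ) * |2 * (μ i.castSucc : ℤ) - S.w| ≤ (2 * q * (q + 1)) * (4 * δ) :=
          mul_le_mul e6 e5 (abs_nonneg _) (by positivity)
      _ ≤ (B : ℤ) := by
          have : (2 * q * (q + 1)) * (4 * δ) ≤ B := by omega
          exact_mod_cast this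
  · rw [zero_smul]
    have h5 : ∑ i : Fin 9, ((c : ℤ) * (2 * (μ i.castSucc : ℤ) - S.w)) • S.p i =
        ((c : ℤ) * S.w) • (- ∑ i, S.p i) -
          (2 * (c : ℤ)) • (∑ i : Fin 9, (-(μ i.castSucc : ℤ)) • S.p i) := by
      rw [Finset.smul_sum, smul_neg, Finset.smul_sum, ← Finset.sum_neg_distrib,
        ← Finset.sum_sub_distrib]
      refine Finset.sum_congr rfl fun i _ => ?_
      module
    rw [h5, hc3, sub_self]

end ShghM
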