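import Pool.Agent.ShghM.EndAEq
import Pool.Agent.ShghM.ExA
import Pool.Agent.ShghR.CoreS

/-!
# The degeneration: common data

Model for this file and for `SecM`, `End9`, `EndM`: the theorem `ShghR.coreS` (`ShghR/CoreS.lean`).
-/

namespace ShghM

open MvPolynomial ShghE ShghR WeierstrassCurve WeierstrassCurve.Affine

/-- The special family `F`: nine points `p i = (a i, b i)` of the cubic, independent up to `B`, the moving
point `(- v0 ξ, 0)`, `F_l = G^(w-l) g_l` for `l ≤ w`, not all `g_l` divisible by `G`. -/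
structure Setup (k : Type*) [Field k] [DecidableEq k] (δ : ℕ) (μ : Fin 10 → ℕ) (B : ℕ) where
  CD : CurveData2 k
  p : Fin 9 → (E0 k).Point
  n : CD.E.Twist
  v0 : k
  F : Polynomial (MvPolynomial (Fin 2) k)
  a : Fin 9 → k
  b : Fin 9 → k
  ns : ∀ i, (E0 k).Nonsingular (a i) (b i)
  pab : ∀ i, p i = .some (a i) (b i) (ns i)
  w : ℕ
  gg : ℕ → MvPolynomial (Fin 2) k
  indep : Indep p CD.E.T B
  hn : n.n = divf 9 (fun _ => -1) p
  hv0 : v0 ≠ 0
  sym : CD.E.HasSym n v0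
  symA : HasA CD.E n v0
  F0 : F.coeff 0 ≠ 0
  deg : ∀ l, (F.coeff l).totalDegree ≤ δ
  mult : ∀ l, ∀ i : Fin 9, F.coeff l ∈ ptIdeal (a i) (b i) ^ μ i.castSucc
  move : F ∈ (Ideal.span {Polynomial.C (MvPolynomial.X 0) +
      Polynomial.C (MvPolynomial.C v0) * Polynomial.X, Polynomial.C (MvPolynomial.X 1)} :
      Ideal (Polynomial (MvPolynomial (Fin 2) k))) ^ μ (Fin.last 9)
  hgg : ∀ l, l ≤ w → F.coeff l = Geq k ^ (w - l) * gg l
  hG : ∃ l0, l0 ≤ w ∧ ¬ Geq k ∣ gg l0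

/-- A bound for the independence. -/
def bigB (g q δ : ℕ) : ℕ :=
  2 * g * (g + 1) + 2 * q * (q + 1) + 4 * q ^ 2 + 4 * q * (q + 1) + 8 * q ^ 3 * (q + 1) + δ + 1 +
    2 * g * (g + 1) * (4 * δ) + 2 * q * (q + 1) * (4 * δ) + (8 * q ^ 2 + 4) * (4 * δ)

variable {k : Type*} [Field k] [DecidableEq k]

omit [DecidableEq k] in
private theorem SetupM_coords {z : (E0 k).Point} (hz : z ≠ 0) :
    ∃ (a b : k) (h : (E0 k).Nonsingular a b), z = .some a b h := by
  rcases z with _ | ⟨a, b, h⟩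
  · exact absurd rfl hz
  · exact ⟨a, b, h, rfl⟩

/-- As in the first lines of the proof of `coreS`: `exists_curveData2`, `exists_indep` (for
`max B 1`), `exists_symA` (instead of `exists_sym`), `transfer_special0`, `exists_w`. -/
theorem exists_setup [IsAlgClosed k] (h2 : (2 : k) ≠ 0) (P : Fin 10 → Fin 2 → k)
    (hP : AlgebraicIndependent (⊥ : Subfield k) (fun ij : Fin 10 × Fin 2 => P ij.1 ij.2))
    (f : MvPolynomial (Fin 2) k) (hf : f ≠ 0) (δ : ℕ) (hdeg : f.totalDegree ≤ δ) (μ : Fin 10 → ℕ)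
    (hμ : ∀ i, f ∈ ptIdeal (P i 0) (P i 1) ^ μ i) (B : ℕ) : Nonempty (Setup k δ μ B) := by
  obtain ⟨CD⟩ := exists_curveData2 (k := k) h2
  obtain ⟨p, hI'⟩ := exists_indep (k := k) h2 CD.E.T CD.E.T_two (B + 1)
  have hI : Indep p CD.E.T (B + 1) := hI'
  have hBB : 1 ≤ B + 1 := by omega
  have hp0 := hI.ne_zero hBB
  have hpT := hI.ne_T hBB
  have hT0 : CD.E.T ≠ 0 := by
    rw [CD.T_eq]
    exact Point.some_ne_zero _
  choose a b hns hpab using fun i => SetupM_coords (hp0 i)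
  let n : CD.E.Twist :=
    { n := divf 9 (fun _ => -1) p
      fin := divf_fin _ _ _
      deg := by rw [divf_sum]; simp
      nT := divf_eq_zero _ _ _ hT0 (fun i => (hpT i).symm) }
  obtain ⟨v0, hv0, hsym, hsymA⟩ := exists_symA CD.E n h2
  obtain ⟨F0, hF00, hF0d, hF0m, hF0J⟩ :=
    transfer_special0 P hP (fun i => ![a i, b i]) v0 δ μ ⟨f, hf, hdeg, hμ⟩
  have hF0 : F0 ≠ 0 := by
    rintro rfl
    exact hF00 (Polynomial.coeff_zero 0)
  obtain ⟨w, gg, hgg, l0, hl0, hl0G⟩ := exists_w F0 hF0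
  refine ⟨⟨CD, p, n, v0, F0, a, b, hns, hpab, w, gg, ?_, rfl, hv0, hsym, hsymA, hF00, hF0d, hF0m,
    hF0J, hgg, ⟨l0, hl0, hl0G⟩⟩⟩
  intro c hc ε h
  refine hI c (fun i => (hc i).trans ?_) ε h
  exact_mod_cast Nat.le_add_right B 1

variable {δ : ℕ} {μ : Fin 10 → ℕ} {B : ℕ} (S : Setup k δ μ B)

theorem Setup.s_eq : S.n.s = - ∑ i, S.p i := by
  unfold EField.Twist.s
  rw [S.hn, divf_sum_smul]
  simp

theorem Setup.tors (j : ℕ) (hj : 1 ≤ j) (hB : j ≤ B) : j • S.n.s ≠ 0 := by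
  intro h
  have h1 : ∑ i, (j : ℤ) • S.p i = (0 : ℤ) • S.CD.E.T := by
    rw [S.s_eq, smul_neg, neg_eq_zero] at h
    rw [← Finset.smul_sum, zero_smul, ← h, natCast_zsmul]
  have h3 := S.indep (fun _ => (j : ℤ)) (fun i => by
    rw [abs_of_nonneg (by positivity)]
    exact_mod_cast hB) 0 h1
  have h4 : (j : ℤ) = 0 := congrFun h3 0
  omega

theorem Setup.coeff0 : S.F.coeff 0 = Geq k ^ S.w * S.gg 0 := by
  have h := S.hgg 0 (Nat.zero_le _)
  rwa [Nat.sub_zero] at h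

theorem Setup.gg0 : S.gg 0 ≠ 0 ∧ (S.gg 0).totalDegree + 3 * S.w ≤ δ := by
  have hg0 : S.gg 0 ≠ 0 := by
    intro h
    apply S.F0
    rw [S.coeff0, h, mul_zero]
  refine ⟨hg0, ?_⟩
  have h := S.deg 0
  rw [S.coeff0, totalDegree_Geq_pow_mul S.w hg0] at h
  omega

theorem Setup.gg0_mem (h2 : (2 : k) ≠ 0) (i : Fin 9) :
    S.gg 0 ∈ ptIdeal (S.a i) (S.b i) ^ (μ i.castSucc - S.w) := by
  refine colon h2 (eq_of_nonsingular (S.ns i)) S.w _ ?_
  rw [← S.coeff0]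
  exact S.mult 0 i

include S in
/-- `F.coeff 0 ≠ 0` has multiplicity `≥ μ_i` at `p_i`. -/
theorem Setup.mu_le (i : Fin 9) : μ i.castSucc ≤ δ :=
  (ShghE.le_totalDegree S.F0 (S.mult 0 i)).trans (S.deg 0)

/-- The relation `Σ c_i p_i = ε T`. -/
theorem Setup.rel (c : Fin 9 → ℤ) (hc : ∀ i, |c i| ≤ B) (ε : ℤ)
    (h : ∑ i, c i • S.p i = ε • S.CD.E.T) (i : Fin 9) : c i = 0 :=
  congrFun (S.indep c hc ε h) i

/-- The nine points and a further point `(za, zb)`. -/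
noncomputable def Setup.Z (za zb : k) : Fin 10 → Fin 2 → k :=
  Fin.snoc (α := fun _ => Fin 2 → k) (fun i => ![S.a i, S.b i]) ![za, zb]

theorem Setup.Z_cast (za zb : k) (i : Fin 9) : S.Z za zb i.castSucc = ![S.a i, S.b i] :=
  Fin.snoc_castSucc _ _ _

theorem Setup.Z_last (za zb : k) : S.Z za zb (Fin.last 9) = ![za, zb] := Fin.snoc_last _ _

theorem Setup.Z_ns {za zb : k} (h : (E0 k).Nonsingular za zb) (i : Fin 10) :
    (E0 k).Nonsingular (S.Z za zb i 0) (S.Z za zb i 1) := by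
  refine Fin.lastCases ?_ (fun i => ?_) i
  · rw [S.Z_last]
    exact h
  · rw [S.Z_cast]
    exact S.ns i

omit [DecidableEq k] in
private theorem SetupM_some {a b a' b' : k} (h : (E0 k).Nonsingular a b)
    (h' : (E0 k).Nonsingular a' b') (ea : a = a') (eb : b = b') :
    (Point.some a b h : (E0 k).Point) = Point.some a' b' h' := by
  subst ea eb
  rfl

theorem Setup.Z_p {za zb : k} (h : (E0 k).Nonsingular za zb) (i : Fin 9) :
    S.p i = Point.some (S.Z za zb i.castSucc 0) (S.Z za zb i.castSucc 1)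
      (S.Z_ns h i.castSucc) := by
  rw [S.pab i]
  exact SetupM_some _ _ (by rw [S.Z_cast]; rfl) (by rw [S.Z_cast]; rfl)

theorem Setup.Z_z {za zb : k} (h : (E0 k).Nonsingular za zb) :
    (Point.some (S.Z za zb (Fin.last 9) 0) (S.Z za zb (Fin.last 9) 1)
      (S.Z_ns h (Fin.last 9)) : (E0 k).Point) = Point.some za zb h :=
  SetupM_some _ _ (by rw [S.Z_last]; rfl) (by rw [S.Z_last]; rfl)

theorem Setup.Z_mult (za zb : k) (l : ℕ) (i : Fin 9) :
    S.F.coeff l ∈ ptIdeal (S.Z za zb i.castSucc 0) (S.Z za zb i.castSucc 1) ^ μ i.castSucc := by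
  rw [S.Z_cast]
  exact S.mult l i

theorem Setup.T0 : S.CD.E.T ≠ 0 := by
  rw [S.CD.T_eq]
  exact Point.some_ne_zero _

end ShghM
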