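import Pool.Agent.ShghR.EInt

/-!
# The special position

Nine points `p_i` of the cubic, independent up to `B`; the ten special points are `p_i` (`i ∉ J`),
`N1 σ - p_i` (`i ∈ J`) and `T + N2 σ`, `σ = Σ p_l`, `N1 ≥ 2`.
-/

namespace ShghM

open MvPolynomial ShghE ShghR WeierstrassCurve WeierstrassCurve.Affine

variable {k : Type*} [Field k]

theorem SpecM_point_eq {Z : Fin 10 → Fin 2 → k} (hZ : ∀ i, (E0 k).Nonsingular (Z i 0) (Z i 1))
    {i j : Fin 10} (h : Z i = Z j) :
    (Point.some (Z i 0) (Z i 1) (hZ i) : (E0 k).Point) = Point.some (Z j 0) (Z j 1) (hZ j) := by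
  rw [Point.some.injEq]
  exact ⟨congrFun h 0, congrFun h 1⟩

/-- the constant part of the coefficients -/
def SpecM_n (J : Finset (Fin 9)) (N1 : ℕ) (i : Fin 9) : ℤ := if i ∈ J then N1 else 0

/-- the sign -/
def SpecM_s (J : Finset (Fin 9)) (i : Fin 9) : ℤ := if i ∈ J then -1 else 1

theorem SpecM_s_cases (J : Finset (Fin 9)) (i : Fin 9) : SpecM_s J i = -1 ∨ SpecM_s J i = 1 := by
  unfold SpecM_s
  split_ifs
  · exact Or.inl rfl
  · exact Or.inr rfl

theorem SpecM_n_nonneg (J : Finset (Fin 9)) (N1 : ℕ) (i : Fin 9) : 0 ≤ SpecM_n J N1 i := by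
  unfold SpecM_n
  split_ifs
  · exact Int.natCast_nonneg _
  · exact le_rfl

theorem SpecM_n_le (J : Finset (Fin 9)) (N1 : ℕ) (i : Fin 9) : SpecM_n J N1 i ≤ N1 := by
  unfold SpecM_n
  split_ifs
  · exact le_rfl
  · exact Int.natCast_nonneg _

theorem SpecM_rep {A : Type*} [AddCommGroup A] (p : Fin 9 → A) (J : Finset (Fin 9)) (N1 : ℕ)
    (i : Fin 9) :
    (if i ∈ J then (N1 : ℤ) • ∑ l, p l - p i else p i) =
      SpecM_n J N1 i • ∑ l, p l + SpecM_s J i • p i := by
  unfold SpecM_n SpecM_s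
  split_ifs
  · rw [neg_smul, one_smul, sub_eq_add_neg]
  · rw [zero_smul, zero_add, one_smul]

theorem SpecM_third : ∀ i j : Fin 9, ∃ l : Fin 9, l ≠ i ∧ l ≠ j := by decide

theorem SpecM_single {A : Type*} [AddCommGroup A] (p : Fin 9 → A) (i : Fin 9) (a : ℤ) :
    ∑ l, (if l = i then a else 0) • p l = a • p i := by
  rw [Finset.sum_eq_single i]
  · rw [if_pos rfl]
  · intro l _ hl
    rw [if_neg hl, zero_smul]
  · intro h
    exact absurd (Finset.mem_univ i) h

/-- The ten points are distinct: in a relation of the form `P_i = P_j`, `i ≠ j`, some coefficient is not zero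
(there are nine points: choose `l` different from the at most two indices involved; the coefficients
of `p_l` are `0` for `i, j ∉ J` or `i, j ∈ J`, `± N1` in the mixed case, `- N2` resp. `N1 - N2` for the last
point, and then `± 1` at `i`). Model: `ShghR.special_inj`. -/
theorem special_injM [DecidableEq k] (CD : CurveData k) (p : Fin 9 → (E0 k).Point) (N1 N2 B : ℕ)
    (hN1 : 2 ≤ N1) (J : Finset (Fin 9)) (hI : Indep p CD.E.T B) (hB : N1 + N2 + 1 ≤ B)
    (Z : Fin 10 → Fin 2 → k) (hZ : ∀ i, (E0 k).Nonsingular (Z i 0) (Z i 1))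
    (hp : ∀ i : Fin 9, (Point.some (Z i.castSucc 0) (Z i.castSucc 1) (hZ i.castSucc) :
      (E0 k).Point) = if i ∈ J then (N1 : ℤ) • ∑ l, p l - p i else p i)
    (hz : (Point.some (Z (Fin.last 9) 0) (Z (Fin.last 9) 1) (hZ (Fin.last 9)) : (E0 k).Point) =
      CD.E.T + (N2 : ℤ) • ∑ i, p i) :
    Function.Injective Z := by
  have hBZ : (N1 : ℤ) + N2 + 1 ≤ B := by exact_mod_cast hB
  have hN1Z : (2 : ℤ) ≤ N1 := by exact_mod_cast hN1
  have hN2Z : (0 : ℤ) ≤ N2 := Int.natCast_nonneg _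
  have key : ∀ i : Fin 9, Z i.castSucc ≠ Z (Fin.last 9) := by
    intro i h
    have h1 := SpecM_point_eq hZ h
    rw [hp i, hz, SpecM_rep] at h1
    have h2 := hI (fun l => SpecM_n J N1 i + (if l = i then SpecM_s J i else 0) - (N2 : ℤ)) ?_ 1 ?_
    · have e1 := congrFun h2 i
      obtain ⟨l, hl⟩ := exists_ne i
      have e2 := congrFun h2 l
      simp only [if_true, if_neg hl, Pi.zero_apply] at e1 e2
      rcases SpecM_s_cases J i with h3 | h3 <;> omega
    · intro l
      have e1 := SpecM_n_nonneg J N1 i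
      have e2 := SpecM_n_le J N1 i
      rw [abs_le]
      rcases SpecM_s_cases J i with h3 | h3 <;> rw [h3] <;> split_ifs <;>
        constructor <;> linarith
    · simp only [sub_smul, add_smul, Finset.sum_sub_distrib, Finset.sum_add_distrib]
      rw [← Finset.smul_sum, ← Finset.smul_sum, SpecM_single, sub_eq_iff_eq_add, one_smul]
      exact h1
  have key2 : ∀ i j : Fin 9, Z i.castSucc = Z j.castSucc → i = j := by
    intro i j h
    by_contra hij
    have h1 := SpecM_point_eq hZ h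
    rw [hp i, hp j, SpecM_rep, SpecM_rep] at h1
    have h2 := hI (fun l => (SpecM_n J N1 i + (if l = i then SpecM_s J i else 0)) -
      (SpecM_n J N1 j + (if l = j then SpecM_s J j else 0))) ?_ 0 ?_
    · have e1 := congrFun h2 i
      obtain ⟨l, hl1, hl2⟩ := SpecM_third i j
      have e2 := congrFun h2 l
      simp only [if_true, if_neg hl1, if_neg hl2, if_neg hij, Pi.zero_apply] at e1 e2
      rcases SpecM_s_cases J i with h3 | h3 <;> omega
    · intro l
      have e1 := SpecM_n_nonneg J N1 i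
      have e2 := SpecM_n_le J N1 i
      have e3 := SpecM_n_nonneg J N1 j
      have e4 := SpecM_n_le J N1 j
      have e5 : |(if l = i then SpecM_s J i else 0) - (if l = j then SpecM_s J j else 0)| ≤ 1 := by
        by_cases hli : l = i
        · have hlj : l ≠ j := fun h => hij (hli.symm.trans h)
          rw [if_pos hli, if_neg hlj, sub_zero]
          rcases SpecM_s_cases J i with h3 | h3 <;> rw [h3] <;> norm_num
        · rw [if_neg hli, zero_sub, abs_neg]
          rcases SpecM_s_cases J j with h3 | h3 <;> rw [h3] <;> split_ifs <;> norm_num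
      rw [abs_le] at e5 ⊢
      constructor <;> linarith [e5.1, e5.2]
    · simp only [sub_smul, add_smul, Finset.sum_sub_distrib, Finset.sum_add_distrib]
      rw [← Finset.smul_sum, ← Finset.smul_sum, SpecM_single, SpecM_single, zero_smul,
        sub_eq_zero]
      exact h1
  intro a b
  refine Fin.lastCases ?_ (fun i => ?_) a
  · refine Fin.lastCases ?_ (fun j => ?_) b
    · intro _
      rfl
    · intro h
      exact absurd h.symm (key j)
  · refine Fin.lastCases ?_ (fun j => ?_) b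
    · intro h
      exact absurd h (key i)
    · intro h
      rw [key2 i j h]

/-- An irreducible polynomial `L`, not associated to `Geq`, satisfies `Σ ν_i + 1 ≤ 3 deg L` (model:
`ShghR.special_kappa`). Otherwise `e_int` gives `Σ ν_i P_i = 0`. Put `X = N1 Σ_{i ∈ J} ν_i + N2 ν_9 ≥ 0`. The
coefficient of `p_l` is `ν_l + X` (`l ∉ J`) resp. `X - ν_l` (`l ∈ J`), and all of them vanish
(`|..| ≤ (9 N1 + N2 + 1) deg L ≤ B`). If `J` is empty, `X = 0` and `ν_l = 0`. If not,
`Σ_{i ∈ J} ν_i = |J| X` and `X ≥ N1 Σ_{i ∈ J} ν_i ≥ 2 |J| X`, so `X = 0`, and all `ν_l` (`l < 9`) vanish.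
Then `3 deg L = ν_9 ≤ deg L`, `deg L = 0`. -/
theorem special_kappaM [DecidableEq k] (CD : CurveData k) (p : Fin 9 → (E0 k).Point)
    (N1 N2 B : ℕ) (hN1 : 2 ≤ N1) (J : Finset (Fin 9)) (hI : Indep p CD.E.T B)
    (Z : Fin 10 → Fin 2 → k)
    (hZ : ∀ i, (E0 k).Nonsingular (Z i 0) (Z i 1)) (hZinj : Function.Injective Z)
    (hp : ∀ i : Fin 9, (Point.some (Z i.castSucc 0) (Z i.castSucc 1) (hZ i.castSucc) :
      (E0 k).Point) = if i ∈ J then (N1 : ℤ) • ∑ l, p l - p i else p i)
    (hz : (Point.some (Z (Fin.last 9) 0) (Z (Fin.last 9) 1) (hZ (Fin.last 9)) : (E0 k).Point) =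
      CD.E.T + (N2 : ℤ) • ∑ i, p i)
    (L : MvPolynomial (Fin 2) k) (hirr : Irreducible L) (hL : ¬ Geq k ∣ L)
    (hB : (9 * N1 + N2 + 1) * L.totalDegree ≤ B) (ν : Fin 10 → ℕ)
    (hν : ∀ i, L ∈ ptIdeal (Z i 0) (Z i 1) ^ ν i) :
    ∑ i, ν i + 1 ≤ 3 * L.totalDegree := by
  obtain ⟨h1, h2⟩ := e_int CD Z hZ hZinj L hL ν hν
  by_contra hcon
  have heq : ∑ i, ν i = 3 * L.totalDegree := by omega
  have h3 := h2 heq
  have hL0 : L ≠ 0 := hirr.ne_zero
  have hνd : ∀ i, ν i ≤ L.totalDegree := fun i => le_totalDegree hL0 (hν i)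
  obtain ⟨X, hX⟩ : ∃ X : ℤ, X = ∑ i : Fin 9, (ν i.castSucc : ℤ) * SpecM_n J N1 i +
      (ν (Fin.last 9) : ℤ) * N2 := ⟨_, rfl⟩
  have hX1 : 0 ≤ ∑ i : Fin 9, (ν i.castSucc : ℤ) * SpecM_n J N1 i :=
    Finset.sum_nonneg fun i _ => mul_nonneg (Int.natCast_nonneg _) (SpecM_n_nonneg J N1 i)
  have hX2 : (0 : ℤ) ≤ (ν (Fin.last 9) : ℤ) * N2 := by positivity
  have hX0 : 0 ≤ X := by rw [hX]; linarith
  rw [Fin.sum_univ_castSucc, hz] at h3
  have h4 : ∑ l : Fin 9, (X + SpecM_s J l * (ν l.castSucc : ℤ)) • p l =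
      (-(ν (Fin.last 9) : ℤ)) • CD.E.T := by
    have h5 : ∑ i : Fin 9, (ν i.castSucc : ℤ) • (Point.some (Z i.castSucc 0) (Z i.castSucc 1)
        (hZ i.castSucc) : (E0 k).Point) =
        (∑ i : Fin 9, (ν i.castSucc : ℤ) * SpecM_n J N1 i) • ∑ l, p l +
          ∑ i : Fin 9, (SpecM_s J i * (ν i.castSucc : ℤ)) • p i := by
      rw [Finset.sum_smul, ← Finset.sum_add_distrib]
      refine Finset.sum_congr rfl fun i _ => ?_
      rw [hp i, SpecM_rep, smul_add, mul_smul, mul_comm (SpecM_s J i), mul_smul]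
    rw [h5, smul_add, smul_smul] at h3
    simp only [add_smul, Finset.sum_add_distrib]
    rw [← Finset.smul_sum, hX, add_smul, neg_smul, eq_neg_iff_add_eq_zero, ← h3]
    abel
  have h6 := hI _ ?_ _ h4
  · have h6' : ∀ l : Fin 9, X + SpecM_s J l * (ν l.castSucc : ℤ) = 0 := fun l => congrFun h6 l
    have hν0 : ∀ l : Fin 9, (0 : ℤ) ≤ (ν l.castSucc : ℤ) := fun l => Int.natCast_nonneg _
    have h7 : X = 0 := by
      have e0 := h6' 0
      by_cases h0 : (0 : Fin 9) ∈ J
      · have e1 : SpecM_s J 0 = -1 := if_pos h0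
        have e2 : SpecM_n J N1 0 = N1 := if_pos h0
        have e3 : (ν (Fin.castSucc (0 : Fin 9)) : ℤ) * SpecM_n J N1 0 ≤
            ∑ i : Fin 9, (ν i.castSucc : ℤ) * SpecM_n J N1 i :=
          Finset.single_le_sum (f := fun i : Fin 9 => (ν i.castSucc : ℤ) * SpecM_n J N1 i)
            (fun i _ => mul_nonneg (Int.natCast_nonneg _) (SpecM_n_nonneg J N1 i))
            (Finset.mem_univ 0)
        rw [e1] at e0
        rw [e2] at e3
        have e4 : (2 : ℤ) ≤ N1 := by exact_mod_cast hN1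
        have e5 := hν0 0
        have e6 : (ν (Fin.castSucc (0 : Fin 9)) : ℤ) * 2 ≤ ν (Fin.castSucc (0 : Fin 9)) * N1 :=
          mul_le_mul_of_nonneg_left e4 e5
        linarith
      · have e1 : SpecM_s J 0 = 1 := if_neg h0
        rw [e1, one_mul] at e0
        linarith [hν0 0]
    have h8 : ∀ l : Fin 9, ν l.castSucc = 0 := by
      intro l
      have e0 := h6' l
      rw [h7] at e0
      rcases SpecM_s_cases J l with h | h <;> rw [h] at e0 <;> omega
    rw [Fin.sum_univ_castSucc, Finset.sum_eq_zero (fun i _ => h8 i), zero_add] at heq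
    have h9 := hνd (Fin.last 9)
    have h10 : L.totalDegree = 0 := by omega
    rw [totalDegree_eq_zero_iff_eq_C] at h10
    apply hirr.not_isUnit
    rw [h10]
    refine IsUnit.map C (isUnit_iff_ne_zero.mpr ?_)
    intro h
    rw [h, map_zero] at h10
    exact hL0 h10
  · intro l
    have hd : ∀ i, (ν i : ℤ) ≤ L.totalDegree := fun i => by exact_mod_cast hνd i
    have e1 : ∑ i : Fin 9, (ν i.castSucc : ℤ) * SpecM_n J N1 i ≤
        9 * (L.totalDegree * N1) := by
      calc ∑ i : Fin 9, (ν i.castSucc : ℤ) * SpecM_n J N1 i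
          ≤ ∑ _i : Fin 9, (L.totalDegree : ℤ) * N1 :=
            Finset.sum_le_sum fun i _ => mul_le_mul (hd _) (SpecM_n_le J N1 i)
              (SpecM_n_nonneg J N1 i) (Int.natCast_nonneg _)
        _ = 9 * (L.totalDegree * N1) := by
            rw [Finset.sum_const, Finset.card_univ, Fintype.card_fin, nsmul_eq_mul]
            push_cast
            ring
    have e2 : (ν (Fin.last 9) : ℤ) * N2 ≤ L.totalDegree * N2 :=
      mul_le_mul_of_nonneg_right (hd _) (Int.natCast_nonneg _)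
    have e3 : ((9 * N1 + N2 + 1 : ℕ) : ℤ) * L.totalDegree ≤ B := by exact_mod_cast hB
    push_cast at e3
    have e4 := hd l.castSucc
    have e5 : (0 : ℤ) ≤ ν l.castSucc := Int.natCast_nonneg _
    rw [abs_le]
    rcases SpecM_s_cases J l with h | h <;> rw [h] <;> constructor <;> nlinarith

end ShghM
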