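import Pool.Agent.ShghM.PosM

/-!
# The multi-cusp unfolding theorem: strictness for `j ≥ 1`
-/

namespace ShghM

open MvPolynomial ShghE ShghR

variable {k : Type*} [Field k]

theorem StrictM_third : ∀ l i : Fin 9, ∃ r : Fin 9, r ≠ l ∧ r ≠ i := by decide

/-- The class of the line through two points. -/
theorem StrictM_line (d : ℝ) (m : Fin 10 → ℝ) (hN : NumNef d m) (i : Fin 9) :
    m i.castSucc + m (Fin.last 9) ≤ d := by
  have hν : ∀ l : Fin 9, (if l.castSucc = i.castSucc ∨ l.castSucc = Fin.last 9 then 1 else 0 : ℕ) =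
      if l = i then 1 else 0 := by
    intro l
    have h1 : l.castSucc ≠ Fin.last 9 := (Fin.castSucc_lt_last l).ne
    by_cases h : l = i
    · simp [h]
    · have h2 : l.castSucc ≠ i.castSucc := fun h' => h (Fin.castSucc_injective 9 h')
      rw [if_neg h, if_neg (fun h3 => h3.elim h2 h1)]
  have h := hN 1 (fun r => if r = i.castSucc ∨ r = Fin.last 9 then 1 else 0) (by
    rw [Fin.sum_univ_castSucc]
    simp only [hν]
    simp)
  rw [Fin.sum_univ_castSucc] at h
  simp only [hν] at h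
  simpa using h

/-- All excess terms zero is impossible. -/
theorem StrictM_contra (d κ : ℝ) (m : Fin 10 → ℝ) (hm : ∀ i, 0 ≤ m i) (hK : ∑ i, m i = 3 * d)
    (hN : NumNef d m) (J : Finset (Fin 9)) (j : ℕ) (hj : 1 ≤ j) (μ c : Fin 10 → ℕ) (w : ℕ)
    (hκw : κ < w)
    (hc3 : ∀ i : Fin 9, i ∈ J → 2 * κ - μ i.castSucc - w = c i.castSucc →
        ∃ i0 : ℕ, i0 ≤ c i.castSucc ∧
          (∀ l : Fin 9, l ≠ i → 2 * (μ l.castSucc : ℝ) = w + i0) ∧
          4 * (j : ℝ) ^ 2 * μ i.castSucc = 2 * (j : ℝ) ^ 2 * (w + i0) -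
            (w + i0 - (c i.castSucc - i0) - μ i.castSucc))
    (hJ : ∀ i : Fin 9, i ∈ J →
      m i.castSucc * (c i.castSucc - (2 * κ - μ i.castSucc - w)) = 0)
    (hnJ : ∀ i : Fin 9, i ∉ J →
      m i.castSucc * (c i.castSucc - ((μ i.castSucc : ℝ) - w)) = 0)
    (i : Fin 9) (hi : i ∈ J) (hmi : 0 < m i.castSucc) : False := by
  have hj1 : (1 : ℝ) ≤ j := by exact_mod_cast hj
  have hw0 : (0 : ℝ) ≤ w := Nat.cast_nonneg _
  have hci : 2 * κ - μ i.castSucc - w = c i.castSucc := by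
    rcases mul_eq_zero.1 (hJ i hi) with h | h
    · exact absurd h hmi.ne'
    · linarith
  obtain ⟨i0, hi0c, hi0l, hi0e⟩ := hc3 i hi hci
  have hi00 : (0 : ℝ) ≤ i0 := Nat.cast_nonneg _
  obtain ⟨hi0w, hμi⟩ := arith_eq (j : ℝ) hj1 κ w i0 (c i.castSucc) (μ i.castSucc) hκw hw0 hi00
    (by exact_mod_cast hi0c) hci hi0e
  have hzero : ∀ l : Fin 9, l ≠ i → m l.castSucc = 0 := by
    intro l hl
    by_contra hne
    have hml : 0 < m l.castSucc := lt_of_le_of_ne (hm _) (Ne.symm hne)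
    by_cases hlJ : l ∈ J
    · have hcl : 2 * κ - μ l.castSucc - w = c l.castSucc := by
        rcases mul_eq_zero.1 (hJ l hlJ) with h | h
        · exact absurd h hml.ne'
        · linarith
      obtain ⟨i1, -, hi1l, -⟩ := hc3 l hlJ hcl
      obtain ⟨r, hrl, hri⟩ := StrictM_third l i
      have e1 := hi0l r hri
      have e2 := hi1l r hrl
      have e3 := hi1l i (Ne.symm hl)
      have e4 : (i1 : ℝ) = i0 := by linarith
      rw [e4] at e3
      have e5 : 4 * (j : ℝ) ^ 2 * μ i.castSucc = 2 * (j : ℝ) ^ 2 * (w + i0) := by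
        linear_combination (2 * (j : ℝ) ^ 2) * e3
      rw [e5] at hμi
      have e6 : (w : ℝ) + i0 = κ := by linear_combination hμi / 2
      linarith
    · have h := hnJ l hlJ
      have e1 := hi0l l hl
      have hc0 : (0 : ℝ) ≤ c l.castSucc := Nat.cast_nonneg _
      have h2 : 0 < (c l.castSucc : ℝ) - ((μ l.castSucc : ℝ) - w) := by linarith
      exact absurd h (mul_pos hml h2).ne'
  have hsum : m i.castSucc + m (Fin.last 9) = 3 * d := by
    rw [← hK, Fin.sum_univ_castSucc]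
    congr 1
    rw [Finset.sum_eq_single i (fun l _ hl => hzero l hl)
      (fun h => absurd (Finset.mem_univ i) h)]
  have hline := StrictM_line d m hN i
  have hn := hm (Fin.last 9)
  linarith

/-- Strictness, if `m_i > 0` for some `i ∈ J` or `K·D♯ < 0`. By `unfoldM_pos` it is enough that one of the
excess terms is positive. If `Σ m < 3d` the last one is. Let `Σ m = 3 d`, `i ∈ J`, `m_i > 0`, and all
excess terms zero. Then `2 κ - μ_i - w = c_i`, and there is `i0` as above; by `arith_eq` `i0 < w`, so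
`μ_l = (w + i0)/2 < w` for all `l < 9`, `l ≠ i`. For `l ∉ J`: `c_l ≥ 0 > μ_l - w`, so `m_l = 0`. Let `l ∈ J`, `l ≠ i`,
`m_l > 0`: there is an `i0'` for `l`, with `2 μ_r = w + i0'` for `r ≠ l`; take a third index `r`: `i0 = i0'`, so
`2 μ_i = w + i0`, and by `arith_eq` `2 q² (w + i0) = 4 q² μ_i = (2 q² - 2)(w + i0) + 2 κ`, `w + i0 = κ < w`, a
contradiction. So `m_l = 0` for all `l < 9`, `l ≠ i`, and `m_i + m_9 = 3 d`. The class of the line through two
points (`hN 1`) gives `m_i + m_9 ≤ d`, so `d ≤ 0` and `m_i ≤ 0`, a contradiction. -/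
theorem unfoldM_strict [IsAlgClosed k] (h2 : (2 : k) ≠ 0) (P : Fin 10 → Fin 2 → k)
    (hP : AlgebraicIndependent (⊥ : Subfield k) (fun ij : Fin 10 × Fin 2 => P ij.1 ij.2))
    (d : ℝ) (m : Fin 10 → ℝ) (hm : ∀ i, 0 ≤ m i) (hK : ∑ i, m i ≤ 3 * d) (hN : NumNef d m)
    (J : Finset (Fin 9)) (j : ℕ) (hj : 1 ≤ j) (σ : ℝ) (hσ : σ = 1 ∨ σ = -1)
    (hpos : ∑ i, m i < 3 * d ∨ ∃ i : Fin 9, i ∈ J ∧ 0 < m i.castSucc)
    (f : MvPolynomial (Fin 2) k) (hf : f ≠ 0) (δ : ℕ) (hδ1 : 1 ≤ δ) (hδ : f.totalDegree ≤ δ)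
    (μ : Fin 10 → ℕ) (hμ : ∀ i, f ∈ ptIdeal (P i 0) (P i 1) ^ μ i)
    (lam : ℝ)
    (hlam : lam = 2 * j * (j * (3 * d - ∑ i : Fin 9, sgnm J m i) + σ * m (Fin.last 9))) :
    ∑ i : Fin 9, (lam + sgnm J m i) * μ i.castSucc +
        (σ * m (Fin.last 9) + 2 * j * (3 * d - ∑ i : Fin 9, sgnm J m i)) * μ (Fin.last 9) <
      (d + 3 * lam) * δ := by
  obtain ⟨κ, hκ⟩ : ∃ κ : ℝ, κ = 2 * j * (μ (Fin.last 9) -
      j * (3 * (δ : ℝ) - ∑ i : Fin 9, (μ i.castSucc : ℝ))) := ⟨_, rfl⟩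
  obtain ⟨w, c, hκw, hc1, hc2, hc3, hmain⟩ := unfoldM_pos h2 P hP d m hm hK hN J j hj σ hσ
    f hf δ hδ1 hδ μ hμ κ lam hκ hlam
  obtain ⟨T, hT⟩ : ∃ T : Fin 9 → ℝ, T = fun i : Fin 9 =>
      (if i ∈ J then m i.castSucc * (c i.castSucc - (2 * κ - μ i.castSucc - w))
        else m i.castSucc * (c i.castSucc - ((μ i.castSucc : ℝ) - w))) := ⟨_, rfl⟩
  have hTJ : ∀ i : Fin 9, i ∈ J →
      T i = m i.castSucc * (c i.castSucc - (2 * κ - μ i.castSucc - w)) := by
    intro i hi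
    rw [hT]
    exact if_pos hi
  have hTn : ∀ i : Fin 9, i ∉ J →
      T i = m i.castSucc * (c i.castSucc - ((μ i.castSucc : ℝ) - w)) := by
    intro i hi
    rw [hT]
    exact if_neg hi
  have hT0 : ∀ i, 0 ≤ T i := by
    intro i
    by_cases hi : i ∈ J
    · rw [hTJ i hi]
      exact mul_nonneg (hm _) (by linarith [hc2 i hi])
    · rw [hTn i hi]
      refine mul_nonneg (hm _) ?_
      have h3 : μ i.castSucc ≤ c i.castSucc + w := by
        rw [hc1 i hi]
        omega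
      have h4 : (μ i.castSucc : ℝ) ≤ c i.castSucc + w := by exact_mod_cast h3
      linarith
  have hex : 0 < ∑ i, T i + (3 * d - ∑ i, m i) * (w - κ) := by
    rcases hK.lt_or_eq with hlt | heq
    · have h5 : 0 < (3 * d - ∑ i, m i) * (w - κ) := mul_pos (by linarith) (by linarith)
      have h6 : 0 ≤ ∑ i, T i := Finset.sum_nonneg fun i _ => hT0 i
      linarith
    · obtain ⟨i, hi, hmi⟩ := hpos.resolve_left (by rw [heq]; exact lt_irrefl _)
      by_contra hcon
      push Not at hcon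
      have hz : (3 * d - ∑ i, m i) * (w - κ) = 0 := by rw [heq]; ring
      rw [hz, add_zero] at hcon
      have hTz : ∀ i, T i = 0 := by
        intro l
        have h7 : T l ≤ ∑ i, T i :=
          Finset.single_le_sum (f := T) (fun i _ => hT0 i) (Finset.mem_univ l)
        exact le_antisymm (h7.trans hcon) (hT0 l)
      exact StrictM_contra d κ m hm heq hN J j hj μ c w hκw hc3
        (fun l hl => by rw [← hTJ l hl]; exact hTz l)
        (fun l hl => by rw [← hTn l hl]; exact hTz l) i hi hmi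
  rw [hT] at hex
  exact lt_of_lt_of_le (lt_add_of_pos_right _ hex) hmain

end ShghM
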