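import Pool.Agent.ShghE.Sym

/-!
# The symmetric polynomials for a given square root `v0`
-/

set_option linter.unusedSectionVars false

namespace ShghM

open Polynomial ShghE ShghE.EField

variable {k K A : Type*} [Field k] [Field K] [Algebra k K] [AddCommGroup A]
variable (E : EField k K A) (n : E.Twist)

/-- This is the second half of the proof of `EField.exists_sym` (copy it): there `v0` is obtained from
`exists_v0`, here it is given. -/
theorem hasSym_of (h2 : (2 : k) ≠ 0) {Pi : K} (hPi : Pi ≠ 0) (hi : E.iota Pi = Pi)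
    (hPiv : ∀ P, E.v P Pi = - (n.n P + n.n (-P))) {v0 : k} (hv0 : v0 ≠ 0)
    (hPi2 : Pi - algebraMap k K v0 ^ 2 ≠ 0 → 2 ≤ E.v E.T (Pi - algebraMap k K v0 ^ 2)) :
    E.HasSym n v0 := by
  have hPi0 : E.v E.T Pi = 0 := by
    rw [hPiv, E.Sym_neg_T, n.nT]; ring
  obtain ⟨e, -, he, hev⟩ := E.exists_e n
  have heT : ∀ i, e i ≠ 0 → - 1 ≤ E.v E.T (e i) := by
    intro i _
    have h1 := hev i E.T
    rw [n.nT, dT, if_pos rfl] at h1
    linarith
  intro g
  -- dimension count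
  have h0 : E.VV Pi e (g * (g + 1)) v0 0 = ⊤ := by
    rw [eq_top_iff]
    intro c _
    rw [Sym_mem_VV]
    intro j hj
    have := E.Sym_int_taylor Pi hPi hPi0 e heT (g * (g + 1)) hv0 c j hj
    push_cast
    have : (0 : ℤ) ≤ j := Int.natCast_nonneg j
    linarith
  have hdim : ∀ l : ℕ, g * (g + 1) + 1 ≤
      Module.finrank k (E.VV Pi e (g * (g + 1)) v0 (2 * l)) + l * (l + 1) := by
    intro l
    induction l with
    | zero =>
      rw [mul_zero, h0, finrank_top, Module.finrank_fintype_fun_eq_card, Fintype.card_fin]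
    | succ l ih =>
      have h3 : Module.finrank k (E.VV Pi e (g * (g + 1)) v0 (2 * l)) ≤
          Module.finrank k (E.VV Pi e (g * (g + 1)) v0 (2 * l + 1)) :=
        Submodule.finrank_mono (E.VV_even h2 hPi hi hPi0 e heT _ hv0 hPi2 (2 * l)
          (even_two_mul l))
      have h4 := E.finrank_VV Pi hPi hPi0 e heT (g * (g + 1)) hv0 (2 * l + 1)
      have h5 : 2 * (l + 1) = 2 * l + 1 + 1 := by ring
      rw [h5]
      have h6 : (l + 1) * (l + 1 + 1) = l * (l + 1) + (2 * l + 1 + 1) := by ring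
      rw [h6]
      omega
  have hd := hdim g
  have hd2 : 0 < Module.finrank k (E.VV Pi e (g * (g + 1)) v0 (2 * g)) := by omega
  obtain ⟨c, hc⟩ : ∃ c : E.VV Pi e (g * (g + 1)) v0 (2 * g), c ≠ 0 := by
    have := Module.finrank_pos_iff.mp hd2
    exact exists_ne 0
  have hcne : (c : Fin (g * (g + 1) + 1) → k) ≠ 0 := by
    intro hh
    exact hc (Subtype.ext hh)
  have hmem : (c : Fin (g * (g + 1) + 1) → k) ∈ E.VV Pi e (g * (g + 1)) v0 (2 * g + 1) :=
    E.VV_even h2 hPi hi hPi0 e heT _ hv0 hPi2 (2 * g) (even_two_mul g) c.2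
  have hPhi := E.Sym_Phi_ne_zero Pi e he (g * (g + 1)) hcne
  have hpi := E.pi_ne_zero
  have hCpi : (C E.pi : K[X]) ≠ 0 := C_ne_zero.mpr hpi
  have hF : C E.pi * E.Phi Pi e (g * (g + 1)) c ≠ 0 := mul_ne_zero hCpi hPhi
  have hoC : oo (E.v E.T) (algebraMap k K v0) (C E.pi) = 1 := by
    rw [oo, taylor_C, gv_C _ hpi, E.pi_v]
  have hoo : oo (E.v E.T) (algebraMap k K v0) (C E.pi * E.Phi Pi e (g * (g + 1)) c) =
      1 + oo (E.v E.T) (algebraMap k K v0) (E.Phi Pi e (g * (g + 1)) c) := by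
    rw [oo_mul (E.ord E.T) _ hCpi hPhi, hoC]
  have h3 := (FW_iff hF).mp (E.Sym_mem_VV.mp hmem)
  -- parity of the exact order
  obtain ⟨q, hq⟩ : ∃ q : ℕ, oo (E.v E.T) (algebraMap k K v0)
      (C E.pi * E.Phi Pi e (g * (g + 1)) c) = q := by
    refine Int.eq_ofNat_of_zero_le (le_trans ?_ h3)
    positivity
  have hqodd : Odd q := by
    by_contra hqe
    rw [Nat.not_odd_iff_even] at hqe
    have h4 : (c : Fin (g * (g + 1) + 1) → k) ∈ E.VV Pi e (g * (g + 1)) v0 q := by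
      rw [Sym_mem_VV, FW_iff hF, hq]
    have h5 := E.VV_even h2 hPi hi hPi0 e heT _ hv0 hPi2 q hqe h4
    rw [Sym_mem_VV, FW_iff hF, hq] at h5
    push_cast at h5
    linarith
  refine ⟨E.Phi Pi e (g * (g + 1)) c, hPhi, ?_, ?_, ?_, ?_, ?_⟩
  · exact (E.natDegree_Phi Pi hPi e he _ _ hcne).1
  · rw [(E.natDegree_Phi Pi hPi e he _ _ hcne).2]
    exact even_two_mul _
  · intro P
    exact E.w_Phi n hPi hPiv e he hev _ _ hcne P
  · rw [hoo] at h3
    push_cast at h3
    linarith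
  · have h4 : oo (E.v E.T) (algebraMap k K v0) (E.Phi Pi e (g * (g + 1)) c) = (q : ℤ) - 1 := by
      rw [← hq, hoo]; ring
    rw [h4]
    obtain ⟨r, hr⟩ := hqodd
    exact ⟨r, by rw [hr]; push_cast; ring⟩

end ShghM
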