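import Pool.Agent.ShghE.Sym

/-!
# The elementary symmetric polynomials

`Tm Pi h i u = u X^(h-i) + iota(u) Π^(-i) X^(h+i)`.
-/

set_option linter.unusedSectionVars false

namespace ShghM

open Polynomial ShghE

variable {k K A : Type*} [Field k] [Field K] [Algebra k K] [AddCommGroup A]
variable (E : EField k K A) (n : E.Twist)

/-- `u X^(h-i) + iota(u) Π^(-i) X^(h+i)` -/
noncomputable def Tm (Pi : K) (h i : ℕ) (u : K) : K[X] :=
  C u * X ^ (h - i) + C (E.iota u * (Pi ^ i)⁻¹) * X ^ (h + i)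

/-- The linear map `(c', c) ↦ Σ_{i<h} c'_i Tm (e' i) + Σ_{i≤h} c_i Tm (e i)`. -/
noncomputable def TT (Pi : K) (h : ℕ) (e e' : ℕ → K) :
    ((Fin h → k) × (Fin (h + 1) → k)) →ₗ[k] K[X] where
  toFun c := ∑ i : Fin h, algebraMap k K (c.1 i) • Tm E Pi h i (e' i) +
    ∑ i : Fin (h + 1), algebraMap k K (c.2 i) • Tm E Pi h i (e i)
  map_add' c d := by
    simp only [Prod.fst_add, Prod.snd_add, _root_.Pi.add_apply, map_add, add_smul,
      Finset.sum_add_distrib]
    abel
  map_smul' a c := by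
    simp only [Prod.smul_fst, Prod.smul_snd, _root_.Pi.smul_apply, smul_eq_mul, map_mul, mul_smul,
      RingHom.id_apply, smul_add, Finset.smul_sum, algebraMap_smul]

theorem TT_apply (Pi : K) (h : ℕ) (e e' : ℕ → K) (c : (Fin h → k) × (Fin (h + 1) → k)) :
    TT E Pi h e e' c = ∑ i : Fin h, algebraMap k K (c.1 i) • Tm E Pi h i (e' i) +
    ∑ i : Fin (h + 1), algebraMap k K (c.2 i) • Tm E Pi h i (e i) := rfl

theorem TmM_add (Pi : K) (h i : ℕ) (u v : K) : Tm E Pi h i (u + v) = Tm E Pi h i u + Tm E Pi h i v := by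
  unfold Tm
  rw [map_add, map_add, add_mul (E.iota u), map_add]
  ring

theorem TmM_zero (Pi : K) (h i : ℕ) : Tm E Pi h i 0 = 0 := by
  unfold Tm
  rw [map_zero, map_zero, zero_mul, zero_mul, map_zero, zero_mul, add_zero]

theorem TmM_smul (Pi : K) (h i : ℕ) (a : k) (u : K) :
    Tm E Pi h i (algebraMap k K a * u) = algebraMap k K a • Tm E Pi h i u := by
  unfold Tm
  rw [map_mul E.iota, E.iota_const, smul_add, smul_eq_C_mul, smul_eq_C_mul, ← mul_assoc, ← mul_assoc,
    ← C_mul, ← C_mul, mul_assoc]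

theorem TmM_coeff (Pi : K) (h i : ℕ) (u : K) (j : ℕ) :
    (Tm E Pi h i u).coeff j = (if j = h - i then u else 0) +
      (if j = h + i then E.iota u * (Pi ^ i)⁻¹ else 0) := by
  unfold Tm
  rw [coeff_add, coeff_C_mul_X_pow, coeff_C_mul_X_pow]

/-- The `i`-th argument. -/
noncomputable def TmM_u (h : ℕ) (e e' : ℕ → K) (c : (Fin h → k) × (Fin (h + 1) → k)) (i : ℕ) : K :=
  (if hi : i < h then algebraMap k K (c.1 ⟨i, hi⟩) * e' i else 0) +
    (if hi : i < h + 1 then algebraMap k K (c.2 ⟨i, hi⟩) * e i else 0)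

theorem TmM_sum (Pi : K) (h : ℕ) (e e' : ℕ → K) (c : (Fin h → k) × (Fin (h + 1) → k)) :
    TT E Pi h e e' c = ∑ i ∈ Finset.range (h + 1), Tm E Pi h i (TmM_u h e e' c i) := by
  rw [TT_apply]
  unfold TmM_u
  simp only [TmM_add, Finset.sum_add_distrib]
  congr 1
  · rw [Finset.sum_range_succ, dif_neg (lt_irrefl h), TmM_zero, add_zero, Finset.sum_range]
    refine Finset.sum_congr rfl fun i _ => ?_
    rw [dif_pos i.2, TmM_smul]
  · rw [Finset.sum_range]
    refine Finset.sum_congr rfl fun i _ => ?_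
    rw [dif_pos i.2, TmM_smul]

theorem TmM_coeff_low (Pi : K) (h : ℕ) (e e' : ℕ → K) (c : (Fin h → k) × (Fin (h + 1) → k))
    {i : ℕ} (h1 : 1 ≤ i) (h2 : i ≤ h) :
    (TT E Pi h e e' c).coeff (h - i) = TmM_u h e e' c i := by
  rw [TmM_sum, finsetSum_coeff, Finset.sum_eq_single i]
  · rw [TmM_coeff, if_pos rfl, if_neg (by omega), add_zero]
  · intro l hl hli
    rw [Finset.mem_range] at hl
    rw [TmM_coeff, if_neg (by omega), if_neg (by omega), add_zero]
  · intro hh
    exact absurd (Finset.mem_range.mpr (by omega)) hh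

theorem TmM_coeff_mid (Pi : K) (h : ℕ) (e e' : ℕ → K) (c : (Fin h → k) × (Fin (h + 1) → k)) :
    (TT E Pi h e e' c).coeff h = TmM_u h e e' c 0 + E.iota (TmM_u h e e' c 0) := by
  rw [TmM_sum, finsetSum_coeff, Finset.sum_eq_single 0]
  · rw [TmM_coeff, if_pos (by omega), if_pos (by omega), pow_zero, inv_one, mul_one]
  · intro l hl hli
    rw [Finset.mem_range] at hl
    rw [TmM_coeff, if_neg (by omega), if_neg (by omega), add_zero]
  · intro hh
    exact absurd (Finset.mem_range.mpr (by omega)) hh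

theorem TmM_coeff_high (Pi : K) (h : ℕ) (e e' : ℕ → K) (c : (Fin h → k) × (Fin (h + 1) → k))
    {i : ℕ} (h1 : 1 ≤ i) (h2 : i ≤ h) :
    (TT E Pi h e e' c).coeff (h + i) = E.iota (TmM_u h e e' c i) * (Pi ^ i)⁻¹ := by
  rw [TmM_sum, finsetSum_coeff, Finset.sum_eq_single i]
  · rw [TmM_coeff, if_neg (by omega), if_pos rfl, zero_add]
  · intro l hl hli
    rw [Finset.mem_range] at hl
    rw [TmM_coeff, if_neg (by omega), if_neg (by omega), add_zero]
  · intro hh
    exact absurd (Finset.mem_range.mpr (by omega)) hh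

theorem TmM_coeff_big (Pi : K) (h : ℕ) (e e' : ℕ → K) (c : (Fin h → k) × (Fin (h + 1) → k))
    (j : ℕ) (hj : 2 * h < j) : (TT E Pi h e e' c).coeff j = 0 := by
  rw [TmM_sum, finsetSum_coeff]
  refine Finset.sum_eq_zero fun l hl => ?_
  rw [Finset.mem_range] at hl
  rw [TmM_coeff, if_neg (by omega), if_neg (by omega), add_zero]

theorem TmM_cases (h j : ℕ) (hj : j ≤ 2 * h) :
    (∃ i, 1 ≤ i ∧ i ≤ h ∧ j = h - i) ∨ j = h ∨ (∃ i, 1 ≤ i ∧ i ≤ h ∧ j = h + i) := by
  rcases lt_trichotomy j h with h1 | h1 | h1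
  · exact Or.inl ⟨h - j, by omega, by omega, by omega⟩
  · exact Or.inr (Or.inl h1)
  · exact Or.inr (Or.inr ⟨j - h, by omega, by omega, by omega⟩)

theorem TmM_v_add {P : A} {b : ℤ} {x y : K} (hx : x ≠ 0 → b ≤ E.v P x) (hy : y ≠ 0 → b ≤ E.v P y)
    (h : x + y ≠ 0) : b ≤ E.v P (x + y) := by
  by_cases hx0 : x = 0
  · subst hx0
    rw [zero_add] at h ⊢
    exact hy h
  by_cases hy0 : y = 0
  · subst hy0
    rw [add_zero] at h ⊢
    exact hx h
  exact (le_min (hx hx0) (hy hy0)).trans ((E.ord P).add hx0 hy0 h)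

theorem TmM_u_v (h : ℕ) (e e' : ℕ → K)
    (he : ∀ i ≤ h, e i ≠ 0 → ∀ P, - 2 * E.dT P - (i : ℤ) * n.n P ≤ E.v P (e i))
    (he' : ∀ i ≤ h, e' i ≠ 0 → ∀ P, - 2 * E.dT P - (i : ℤ) * n.n P ≤ E.v P (e' i))
    (c : (Fin h → k) × (Fin (h + 1) → k)) {i : ℕ} (hi : i ≤ h) (P : A)
    (hu : TmM_u h e e' c i ≠ 0) :
    - 2 * E.dT P - (i : ℤ) * n.n P ≤ E.v P (TmM_u h e e' c i) := by
  unfold TmM_u at hu ⊢
  refine TmM_v_add E ?_ ?_ hu
  · intro h1
    by_cases h2 : i < h
    · rw [dif_pos h2] at h1 ⊢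
      rw [E.Sym_v_const_mul P h1]
      exact he' i hi (right_ne_zero_of_mul h1) P
    · rw [dif_neg h2] at h1
      exact absurd rfl h1
  · intro h1
    rw [dif_pos (by omega)] at h1 ⊢
    rw [E.Sym_v_const_mul P h1]
    exact he i hi (right_ne_zero_of_mul h1) P

theorem TmM_v_high {Pi : K} (hPi : Pi ≠ 0) (hPiv : ∀ P, E.v P Pi = - (n.n P + n.n (-P)))
    {u : K} (hu : u ≠ 0) (i : ℕ) (P : A) :
    E.v P (E.iota u * (Pi ^ i)⁻¹) = E.v (-P) u + i * (n.n P + n.n (-P)) := by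
  rw [(E.ord P).mul (E.Sym_iota_ne_zero hu) (inv_ne_zero (pow_ne_zero _ hPi)),
    (E.ord P).inv (pow_ne_zero _ hPi), (E.ord P).pow hPi, E.iota_v P _ hu, hPiv]
  ring

/-- `deg ≤ 2h` -/
theorem TT_natDegree (Pi : K) (h : ℕ) (e e' : ℕ → K) (c : (Fin h → k) × (Fin (h + 1) → k)) :
    (TT E Pi h e e' c).natDegree ≤ 2 * h := by
  rw [natDegree_le_iff_coeff_eq_zero]
  exact fun j hj => TmM_coeff_big E Pi h e e' c j hj

/-- `ρ (Tm u) = Tm u`: use `EField.rho_add`, `rho_C_mul`, `rho_X_pow`, `iota_iota`, `hi`; for constants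
`iota_const`. -/
theorem TT_rho {Pi : K} (hPi : Pi ≠ 0) (hi : E.iota Pi = Pi) (h : ℕ) (e e' : ℕ → K)
    (c : (Fin h → k) × (Fin (h + 1) → k)) : E.rho Pi h (TT E Pi h e e' c) = TT E Pi h e e' c := by
  ext j
  rw [E.Sym_coeff_rho]
  by_cases hj : j ≤ 2 * h
  · rw [revAt_le hj]
    rcases TmM_cases h j hj with ⟨i, h1, h2, rfl⟩ | rfl | ⟨i, h1, h2, rfl⟩
    · have h3 : 2 * h - (h - i) = h + i := by omega
      rw [h3, TmM_coeff_high E Pi h e e' c h1 h2, TmM_coeff_low E Pi h e e' c h1 h2, map_mul,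
        E.iota_iota, map_inv₀, map_pow, hi, pow_add]
      field_simp
    · have h3 : 2 * j - j = j := by omega
      rw [h3, TmM_coeff_mid, map_add, E.iota_iota]
      field_simp
      ring
    · have h3 : 2 * h - (h + i) = h - i := by omega
      rw [h3, TmM_coeff_high E Pi h e e' c h1 h2, TmM_coeff_low E Pi h e e' c h1 h2]
      have h4 : Pi ^ h = Pi ^ (h - i) * Pi ^ i := by
        rw [← pow_add]; congr 1; omega
      rw [h4]
      field_simp
  · push Not at hj
    rw [revAt_eq_self_of_lt hj, TmM_coeff_big E Pi h e e' c j hj, map_zero, zero_mul, mul_zero]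

/-- Lower bounds: the coefficient of `X^(h-i)` is a combination of `e i`, `e' i` with constant
coefficients, that of `X^(h+i)` is `Π^(-i) iota` of it (for `i = 0`: the sum of both), and
`v_P(iota x) = v_(-P) x`, `v_P Π = - (n_P + n_(-P))`. So if `v_P(e i), v_P(e' i) ≥ - 2 dT P - i n_P` for all
places `P` (`i ≤ h`; `dT (-P) = dT P`) then all coefficients satisfy
`v_P(coeff_j) ≥ - 2 dT P + (j - h) n_P`. -/
theorem TT_v {Pi : K} (hPi : Pi ≠ 0) (hPiv : ∀ P, E.v P Pi = - (n.n P + n.n (-P)))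
    (h : ℕ) (e e' : ℕ → K)
    (he : ∀ i ≤ h, e i ≠ 0 → ∀ P, - 2 * E.dT P - (i : ℤ) * n.n P ≤ E.v P (e i))
    (he' : ∀ i ≤ h, e' i ≠ 0 → ∀ P, - 2 * E.dT P - (i : ℤ) * n.n P ≤ E.v P (e' i))
    (c : (Fin h → k) × (Fin (h + 1) → k)) (j : ℕ) (hj : (TT E Pi h e e' c).coeff j ≠ 0) (P : A) :
    - 2 * E.dT P + ((j : ℤ) - h) * n.n P ≤ E.v P ((TT E Pi h e e' c).coeff j) := by
  have hj2 : j ≤ 2 * h := by
    by_contra hh
    exact hj (TmM_coeff_big E Pi h e e' c j (by omega))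
  rcases TmM_cases h j hj2 with ⟨i, h1, h2, rfl⟩ | rfl | ⟨i, h1, h2, rfl⟩
  · rw [TmM_coeff_low E Pi h e e' c h1 h2] at hj ⊢
    have h3 := TmM_u_v E n h e e' he he' c h2 P hj
    have h4 : ((h - i : ℕ) : ℤ) = (h : ℤ) - i := by
      rw [Nat.cast_sub h2]
    rw [h4]
    linarith
  · rw [TmM_coeff_mid] at hj ⊢
    rw [sub_self, zero_mul, add_zero]
    refine TmM_v_add E ?_ ?_ hj
    · intro h0
      have h3 := TmM_u_v E n j e e' he he' c (Nat.zero_le _) P h0
      simpa using h3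
    · intro h0
      have h0' : TmM_u j e e' c 0 ≠ 0 := by
        intro h5
        exact h0 (by rw [h5, map_zero])
      have h3 := TmM_u_v E n j e e' he he' c (Nat.zero_le _) (-P) h0'
      rw [E.iota_v P _ h0']
      rw [E.Sym_dT_neg] at h3
      simpa using h3
  · rw [TmM_coeff_high E Pi h e e' c h1 h2] at hj ⊢
    have h0' : TmM_u h e e' c i ≠ 0 := by
      intro h5
      exact hj (by rw [h5, map_zero, zero_mul])
    have h3 := TmM_u_v E n h e e' he he' c h2 (-P) h0'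
    rw [TmM_v_high E n hPi hPiv h0' i P]
    rw [E.Sym_dT_neg] at h3
    push_cast
    linarith

/-- The leading coefficient (of `X^(2h)`, `h ≥ 1`) is `c_h iota(e h) Π^(-h)`. -/
theorem TT_top {Pi : K} (hPi : Pi ≠ 0) (hPiv : ∀ P, E.v P Pi = - (n.n P + n.n (-P)))
    (h : ℕ) (hh : 1 ≤ h) (e e' : ℕ → K) (p : A) (heh : e h ≠ 0)
    (hep : 1 - (h : ℤ) * n.n (-p) ≤ E.v (-p) (e h))
    (c : (Fin h → k) × (Fin (h + 1) → k)) (hj : (TT E Pi h e e' c).coeff (2 * h) ≠ 0) :
    (h : ℤ) * n.n p + 1 ≤ E.v p ((TT E Pi h e e' c).coeff (2 * h)) := by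
  rw [two_mul, TmM_coeff_high E Pi h e e' c hh le_rfl] at hj ⊢
  have h0' : TmM_u h e e' c h ≠ 0 := by
    intro h5
    exact hj (by rw [h5, map_zero, zero_mul])
  rw [TmM_v_high E n hPi hPiv h0' h p]
  have h1 : TmM_u h e e' c h = algebraMap k K (c.2 ⟨h, Nat.lt_succ_self h⟩) * e h := by
    unfold TmM_u
    rw [dif_neg (lt_irrefl h), dif_pos (Nat.lt_succ_self h), zero_add]
  rw [h1] at h0' ⊢
  rw [E.Sym_v_const_mul _ h0']
  linarith

/-- Injectivity. Let `TT c = 0`. For `1 ≤ i < h` the coefficient of `X^(h-i)` is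
`c'_i e'_i + c_i e_i = 0`; `v_T(e'_i) = -2 < -1 ≤ v_T(e_i)` gives `c'_i = 0` and then `c_i = 0`.
`i = h` (`h ≥ 1`): `c_h e_h = 0`. `i = 0`: the coefficient of `X^h` is
`c'_0 (e'_0 + iota e'_0) + 2 c_0 = 0` (as `e 0 = 1`); `v_T(e'_0 + iota e'_0) = -2`:
`e'_0 = π^(-2) y`, `v_T y = 0`, `iota (π^(-2)) = π^(-2)`, `y + iota y = 2 y + (iota y - y)` and
`v_T(iota y - y) ≥ 1` (`EField.iota_sign` with `i = 0`), `v_T(2 y) = 0`. So `c'_0 = 0`, `c_0 = 0`. -/
theorem TT_ne_zero (h2 : (2 : k) ≠ 0) {Pi : K} (hPi : Pi ≠ 0) (h : ℕ) (hh : 1 ≤ h)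
    (e e' : ℕ → K) (he0 : e 0 = 1) (he : ∀ i ≤ h, e i ≠ 0)
    (heT : ∀ i < h, -1 ≤ E.v E.T (e i))
    (he' : ∀ i < h, e' i ≠ 0 ∧ E.v E.T (e' i) = -2)
    {c : (Fin h → k) × (Fin (h + 1) → k)} (hc : c ≠ 0) : TT E Pi h e e' c ≠ 0 := by
  intro h0
  -- two summands with different valuations
  have key : ∀ (a b : k) (x y : K), x ≠ 0 → y ≠ 0 → E.v E.T x = -2 → -1 ≤ E.v E.T y →
      algebraMap k K a * x + algebraMap k K b * y = 0 → a = 0 ∧ b = 0 := by
    intro a b x y hx hy hvx hvy hs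
    have ha : a = 0 := by
      by_contra ha
      have ha' : algebraMap k K a ≠ 0 := by
        rwa [Ne, FaithfulSMul.algebraMap_eq_zero_iff]
      have h3 : algebraMap k K b * y = - (algebraMap k K a * x) := by
        linear_combination hs
      have h4 : algebraMap k K b * y ≠ 0 := by
        rw [h3, neg_ne_zero]
        exact mul_ne_zero ha' hx
      have h5 := E.Sym_v_const_mul E.T h4
      have h6 : algebraMap k K (-a) * x ≠ 0 := by
        rw [map_neg, neg_mul, neg_ne_zero]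
        exact mul_ne_zero ha' hx
      have h7 := E.Sym_v_const_mul E.T h6
      have h8 : algebraMap k K b * y = algebraMap k K (-a) * x := by
        rw [h3, map_neg, neg_mul]
      rw [h8, h7, hvx] at h5
      linarith
    refine ⟨ha, ?_⟩
    rw [ha, map_zero, zero_mul, zero_add] at hs
    have h3 := (mul_eq_zero.mp hs).resolve_right hy
    rwa [FaithfulSMul.algebraMap_eq_zero_iff] at h3
  have hlow : ∀ i, 1 ≤ i → i ≤ h → TmM_u h e e' c i = 0 := by
    intro i h1 h2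
    have := TmM_coeff_low E Pi h e e' c h1 h2
    rw [h0, coeff_zero] at this
    exact this.symm
  have hz1 : ∀ (i : ℕ) (hi : i < h), 1 ≤ i → c.1 ⟨i, hi⟩ = 0 ∧ c.2 ⟨i, by omega⟩ = 0 := by
    intro i hi h1
    have h3 := hlow i h1 hi.le
    unfold TmM_u at h3
    rw [dif_pos hi, dif_pos (by omega)] at h3
    exact key _ _ _ _ (he' i hi).1 (he i hi.le) (he' i hi).2 (heT i hi) h3
  have hzh : c.2 ⟨h, Nat.lt_succ_self h⟩ = 0 := by
    have h3 := hlow h hh le_rfl
    unfold TmM_u at h3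
    rw [dif_neg (lt_irrefl h), dif_pos (Nat.lt_succ_self h), zero_add] at h3
    have h4 := (mul_eq_zero.mp h3).resolve_right (he h le_rfl)
    rwa [FaithfulSMul.algebraMap_eq_zero_iff] at h4
  have hz0 : c.1 ⟨0, hh⟩ = 0 ∧ c.2 ⟨0, by omega⟩ = 0 := by
    have h3 := TmM_coeff_mid E Pi h e e' c
    rw [h0, coeff_zero] at h3
    unfold TmM_u at h3
    rw [dif_pos (by omega : 0 < h), dif_pos (by omega : 0 < h + 1), he0, mul_one, map_add, map_mul,
      E.iota_const, E.iota_const] at h3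
    have h4 : algebraMap k K (c.1 ⟨0, hh⟩) * (e' 0 + E.iota (e' 0)) +
        algebraMap k K (c.2 ⟨0, by omega⟩) * (algebraMap k K 2) = 0 := by
      rw [map_ofNat]
      linear_combination -h3
    obtain ⟨he1, he2⟩ := he' 0 (by omega)
    have hp := E.pi_ne_zero
    -- the valuation of `e'_0 + iota e'_0`
    obtain ⟨y, hy⟩ : ∃ y, e' 0 = (E.pi ^ 2)⁻¹ * y :=
      ⟨E.pi ^ 2 * e' 0, by rw [inv_mul_cancel_left₀ (pow_ne_zero _ hp)]⟩
    have hy0 : y ≠ 0 := by
      rintro rfl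
      exact he1 (by rw [hy, mul_zero])
    have hyv : E.v E.T y = 0 := by
      have h5 := he2
      rw [hy, (E.ord E.T).mul (inv_ne_zero (pow_ne_zero _ hp)) hy0,
        (E.ord E.T).inv (pow_ne_zero _ hp), (E.ord E.T).pow hp, E.pi_v] at h5
      push_cast at h5
      linarith
    have hio : E.iota (e' 0) = (E.pi ^ 2)⁻¹ * E.iota y := by
      rw [hy, map_mul, map_inv₀, map_pow, E.pi_iota, neg_sq]
    have hsum : e' 0 + E.iota (e' 0) = (E.pi ^ 2)⁻¹ * (y + E.iota y) := by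
      rw [hio]
      conv_lhs => rw [hy]
      ring
    have h2K : (algebraMap k K 2) ≠ 0 := by
      rwa [Ne, FaithfulSMul.algebraMap_eq_zero_iff]
    have hyy : y + E.iota y ≠ 0 ∧ E.v E.T (y + E.iota y) = 0 := by
      have hd : y + E.iota y = algebraMap k K 2 * y + (E.iota y - y) := by
        rw [map_ofNat]; ring
      have h2y : algebraMap k K 2 * y ≠ 0 := mul_ne_zero h2K hy0
      have hv2 : E.v E.T (algebraMap k K 2 * y) = 0 := by
        rw [E.Sym_v_const_mul _ h2y, hyv]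
      by_cases hs : E.iota y - y = 0
      · rw [hd, hs, add_zero]
        exact ⟨h2y, hv2⟩
      · have h5 : 1 ≤ E.v E.T (E.iota y - y) := by
          have := E.iota_sign 0 hy0 (by rw [hyv]; simp) (by rwa [pow_zero, one_mul])
          rw [pow_zero, one_mul] at this
          simpa using this
        have hne : y + E.iota y ≠ 0 := by
          intro h6
          rw [hd] at h6
          have h7 : algebraMap k K 2 * y = algebraMap k K (-1) * (E.iota y - y) := by
            rw [map_neg, map_one]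
            linear_combination h6
          have h8 : algebraMap k K (-1) * (E.iota y - y) ≠ 0 := by rwa [← h7]
          have h9 := E.Sym_v_const_mul E.T h8
          rw [← h7, hv2] at h9
          linarith
        refine ⟨hne, ?_⟩
        apply le_antisymm
        · by_contra h6
          push Not at h6
          have h7 : algebraMap k K 2 * y = (y + E.iota y) + algebraMap k K (-1) * (E.iota y - y) := by
            rw [map_neg, map_one, map_ofNat]
            ring
          have h8 : 1 ≤ E.v E.T (algebraMap k K 2 * y) := by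
            rw [h7]
            refine TmM_v_add E (fun _ => by linarith) (fun h8 => ?_) (by rwa [← h7])
            rw [E.Sym_v_const_mul _ h8]
            exact h5
          rw [hv2] at h8
          linarith
        · rw [hd]
          refine TmM_v_add E (fun _ => hv2.ge) (fun _ => by linarith) (by rwa [← hd])
    have hx0 : e' 0 + E.iota (e' 0) ≠ 0 := by
      rw [hsum]
      exact mul_ne_zero (inv_ne_zero (pow_ne_zero _ hp)) hyy.1
    have hxv : E.v E.T (e' 0 + E.iota (e' 0)) = -2 := by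
      rw [hsum, (E.ord E.T).mul (inv_ne_zero (pow_ne_zero _ hp)) hyy.1,
        (E.ord E.T).inv (pow_ne_zero _ hp), (E.ord E.T).pow hp, E.pi_v, hyy.2]
      norm_num
    exact key _ _ _ _ hx0 h2K hxv (by rw [E.const 2 h2]; norm_num) h4
  apply hc
  refine Prod.ext ?_ ?_
  · funext i
    obtain ⟨i, hi⟩ := i
    by_cases h1 : 1 ≤ i
    · exact (hz1 i hi h1).1
    · obtain rfl : i = 0 := by omega
      exact hz0.1
  · funext i
    obtain ⟨i, hi⟩ := i
    by_cases h1 : i < h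
    · by_cases h2 : 1 ≤ i
      · exact (hz1 i h1 h2).2
      · obtain rfl : i = 0 := by omega
        exact hz0.2
    · obtain rfl : i = h := by omega
      exact hzh

end ShghM
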