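import Pool.Agent.ShghM.FunM
import Pool.Agent.ShghM.DimM
import Pool.Agent.ShghM.SymV
import Pool.Agent.ShghM.TmM

/-!
# Symmetric polynomials with content of degree two through a point at infinity
-/

set_option linter.unusedSectionVars false

namespace ShghM

open Polynomial ShghE

variable {k K A : Type*} [Field k] [Field K] [Algebra k K] [AddCommGroup A]
variable (E : EField k K A) (n : E.Twist)

/-- For `q ≥ 1` and a place `p` there is a polynomial of degree `≤ 4 q²` with content of degree `≤ 2`,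
order `≥ 4 q - 2` at `(T, v0)` (so a point of multiplicity `≥ 4 q`), and leading coefficient vanishing
at `p`. -/
def HasA (v0 : k) : Prop :=
  ∀ (q : ℕ) (p : A), 1 ≤ q → (∀ i ≤ 2 * q ^ 2, i • n.s ≠ p + E.T) →
    ∃ F : K[X], F ≠ 0 ∧ F.natDegree ≤ 4 * q ^ 2 ∧
      (∀ P, - 2 * E.dT P - 2 * (q : ℤ) ^ 2 * n.n P ≤ E.w n P F) ∧
      4 * (q : ℤ) - 2 ≤ oo (E.v E.T) (algebraMap k K v0) F ∧
      (F.coeff (4 * q ^ 2) ≠ 0 → 2 * (q : ℤ) ^ 2 * n.n p + 1 ≤ E.v p (F.coeff (4 * q ^ 2)))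

/-- Take `Pi`, `v0` from `EField.exists_Pi`, `EField.exists_v0`; `HasSym` is `hasSym_of`. For `HasA` put
`h = 2 q²`, `e i` (`i < h`) from `EField.exists_e`, `e h = x` from `exists_top`, `e'` from `exists_two`,
`V = (Fin h → k) × (Fin (h+1) → k)` of dimension `2 h + 1 = 4 q² + 1 > (2 q)²`, `Φ = TT`. Apply
`exists_fw` with `l = 2 q`; `F = Φ c`. `FW v0 (4 q) (π² F)` and `FW_iff`, `oo_mul`,
`oo (C π²) = 2` give `oo F ≥ 4 q - 2`. -/
theorem exists_symA [IsAlgClosed k] (h2 : (2 : k) ≠ 0) :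
    ∃ v0 : k, v0 ≠ 0 ∧ E.HasSym n v0 ∧ HasA E n v0 := by
  obtain ⟨Pi, hPi, hi, hPiv⟩ := E.exists_Pi n h2
  have hPi0 : E.v E.T Pi = 0 := by
    rw [hPiv, E.Sym_neg_T, n.nT]; ring
  obtain ⟨v0, hv0, hPi2⟩ := E.exists_v0 h2 hPi hi hPi0
  refine ⟨v0, hv0, hasSym_of E n h2 hPi hi hPiv hv0 hPi2, ?_⟩
  intro q p hq hp
  have hdTT : E.dT E.T = 1 := by
    unfold EField.dT
    rw [if_pos rfl]
  have hpT : p ≠ E.T := by
    intro h0
    apply hp 0 (Nat.zero_le _)
    rw [zero_smul, h0, E.T_two]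
  have hh : 1 ≤ 2 * q ^ 2 := by nlinarith
  obtain ⟨e0, he00, he0, hev0⟩ := E.exists_e n
  obtain ⟨e', he'⟩ := exists_two E n p (2 * q ^ 2) hp
  obtain ⟨x, hx, hxv, hxp⟩ := exists_top E n p hpT (2 * q ^ 2)
  set h : ℕ := 2 * q ^ 2 with hh_def
  set e : ℕ → K := fun i => if i = h then x else e0 i with he_def
  have heh : e h = x := by
    rw [he_def]
    simp
  have heo : ∀ i, i ≠ h → e i = e0 i := by
    intro i hi
    rw [he_def]
    simp [hi]
  have hene : ∀ i, e i ≠ 0 := by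
    intro i
    by_cases hi : i = h
    · rw [hi, heh]
      exact hx
    · rw [heo i hi]
      exact he0 i
  have hdT0 : ∀ P, 0 ≤ E.dT P := fun P => E.Sym_dT_nonneg P
  have hev : ∀ (i : ℕ) (P : A), - 2 * E.dT P - (i : ℤ) * n.n P ≤ E.v P (e i) := by
    intro i P
    by_cases hi : i = h
    · rw [hi, heh]
      exact hxv P
    · rw [heo i hi]
      have h1 := hev0 i P
      have h2 := hdT0 P
      linarith
  have hTTv := TT_v E n hPi hPiv h e e' (fun i _ _ P => hev i P)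
    (fun i hi _ P => (he' i hi).2.2 P)
  have hdim : (2 * q) ^ 2 < Module.finrank k ((Fin h → k) × (Fin (h + 1) → k)) := by
    rw [Module.finrank_prod, Module.finrank_fintype_fun_eq_card, Fintype.card_fin,
      Module.finrank_fintype_fun_eq_card, Fintype.card_fin, hh_def]
    ring_nf
    omega
  obtain ⟨c, hc, hFW⟩ := exists_fw E h2 hPi hPi0 hv0 hPi2 h (2 * q) (TT E Pi h e e')
    (TT_natDegree E Pi h e e') (TT_rho E hPi hi h e e') (by
      intro c j hj
      have h1 := hTTv c j hj E.T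
      rw [hdTT, n.nT] at h1
      linarith) hdim
  have hF0 : TT E Pi h e e' c ≠ 0 := by
    refine TT_ne_zero E h2 hPi h hh e e' ?_ (fun i _ => hene i) ?_ ?_ hc
    · rw [heo 0 (by omega), he00]
    · intro i hi
      rw [heo i (by omega)]
      have h1 := hev0 i E.T
      rw [hdTT, n.nT] at h1
      linarith
    · intro i hi
      exact ⟨(he' i hi.le).1, (he' i hi.le).2.1⟩
  have hhZ : (h : ℤ) = 2 * (q : ℤ) ^ 2 := by
    rw [hh_def]
    push_cast
    ring
  have h2h : 2 * h = 4 * q ^ 2 := by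
    rw [hh_def]
    ring
  refine ⟨TT E Pi h e e' c, hF0, ?_, ?_, ?_, ?_⟩
  · have h1 := TT_natDegree E Pi h e e' c
    rw [h2h] at h1
    exact h1
  · intro P
    unfold EField.w
    rw [le_gv_iff hF0]
    intro j hj
    have h1 := hTTv c j hj P
    rw [hhZ] at h1
    linarith
  · have hpi := E.pi_ne_zero
    have hpi2 : E.pi ^ 2 ≠ 0 := pow_ne_zero _ hpi
    have hCpi : (C (E.pi ^ 2) : K[X]) ≠ 0 := C_ne_zero.mpr hpi2
    have hF : C (E.pi ^ 2) * TT E Pi h e e' c ≠ 0 := mul_ne_zero hCpi hF0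
    have hoC : oo (E.v E.T) (algebraMap k K v0) (C (E.pi ^ 2)) = 2 := by
      rw [oo, taylor_C, gv_C _ hpi2, (E.ord E.T).pow hpi, E.pi_v]
      norm_num
    have h3 := (EField.FW_iff hF).mp hFW
    rw [oo_mul (E.ord E.T) _ hCpi hF0, hoC] at h3
    push_cast at h3
    linarith
  · intro hj
    rw [← h2h] at hj ⊢
    have h1 := TT_top E n hPi hPiv h hh e e' p (hene h) (by rw [heh]; exact hxp) c hj
    rw [hhZ] at h1
    exact h1

end ShghM
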